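import Pool.Agent.K6.H45.MU.Over

/-!
The asymptotic behaviour of the tensor powers (MP_519cc8_nt): tensor products of representations.
-/

set_option autoImplicit false
set_option linter.unusedSectionVars false

open Module TensorProduct

namespace Pool.Agent.K6.H45.MU

variable {F : Type} [Field F] {𝔊 : Type} [Group 𝔊] [TopologicalSpace 𝔊] [IsTopologicalGroup 𝔊]

section plain

variable {M M' M'' N N' P : Type} [AddCommGroup M] [Module F M] [AddCommGroup M'] [Module F M']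
  [AddCommGroup M''] [Module F M''] [AddCommGroup N] [Module F N] [AddCommGroup N'] [Module F N']
  [AddCommGroup P] [Module F P]

omit [TopologicalSpace 𝔊] [IsTopologicalGroup 𝔊] [Group 𝔊]

theorem pl_map (f : M →ₗ[F] M') (g : N →ₗ[F] N') (a : M →ₗ[F] M) (b : N →ₗ[F] N)
    (a' : M' →ₗ[F] M') (b' : N' →ₗ[F] N') (h1 : f ∘ₗ a = a' ∘ₗ f) (h2 : g ∘ₗ b = b' ∘ₗ g)
    (x : M ⊗[F] N) : TensorProduct.map f g (TensorProduct.map a b x) =
      TensorProduct.map a' b' (TensorProduct.map f g x) := by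
  rw [← LinearMap.comp_apply, ← LinearMap.comp_apply, ← TensorProduct.map_comp,
    ← TensorProduct.map_comp, h1, h2]

theorem pl_assoc (a : M →ₗ[F] M) (b : N →ₗ[F] N) (c : P →ₗ[F] P) (x : M ⊗[F] (N ⊗[F] P)) :
    (TensorProduct.assoc F M N P).symm (TensorProduct.map a (TensorProduct.map b c) x) =
      TensorProduct.map (TensorProduct.map a b) c ((TensorProduct.assoc F M N P).symm x) := by
  induction x using TensorProduct.induction_on with
  | zero => simp only [map_zero]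
  | add x y hx hy => rw [map_add, map_add, map_add, map_add, hx, hy]
  | tmul x y =>
    induction y using TensorProduct.induction_on with
    | zero => simp only [TensorProduct.tmul_zero, map_zero]
    | add y z hy hz =>
      rw [TensorProduct.tmul_add, map_add, map_add, map_add, map_add, hy, hz]
    | tmul y z => rfl

theorem pl_leftComm (a : M →ₗ[F] M) (b : N →ₗ[F] N) (c : P →ₗ[F] P) (x : M ⊗[F] (N ⊗[F] P)) :
    TensorProduct.leftComm F M N P (TensorProduct.map a (TensorProduct.map b c) x) =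
      TensorProduct.map b (TensorProduct.map a c) (TensorProduct.leftComm F M N P x) := by
  induction x using TensorProduct.induction_on with
  | zero => simp only [map_zero]
  | add x y hx hy => rw [map_add, map_add, map_add, map_add, hx, hy]
  | tmul x y =>
    induction y using TensorProduct.induction_on with
    | zero => simp only [TensorProduct.tmul_zero, map_zero]
    | add y z hy hz =>
      rw [TensorProduct.tmul_add, map_add, map_add, map_add, map_add, hy, hz]
    | tmul y z => rfl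

theorem pl_id (f : M →ₗ[F] M') (g : M' →ₗ[F] M) (h : g ∘ₗ f = LinearMap.id) (x : M ⊗[F] N) :
    TensorProduct.map g (LinearMap.id : N →ₗ[F] N)
      (TensorProduct.map f (LinearMap.id : N →ₗ[F] N) x) = x := by
  rw [← LinearMap.comp_apply, ← TensorProduct.map_comp, h, LinearMap.comp_id,
    TensorProduct.map_id]
  rfl

theorem pl_zero (f : M →ₗ[F] M') (g : M' →ₗ[F] M'') (h : g ∘ₗ f = 0) (x : M ⊗[F] N) :
    TensorProduct.map g (LinearMap.id : N →ₗ[F] N)
      (TensorProduct.map f (LinearMap.id : N →ₗ[F] N) x) = 0 := by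
  rw [← LinearMap.comp_apply, ← TensorProduct.map_comp, h, TensorProduct.map_zero_left]
  rfl

theorem pl_sum (π : M →ₗ[F] M') (σ : M' →ₗ[F] M) (γ : M →ₗ[F] M'') (ι : M'' →ₗ[F] M)
    (h : σ ∘ₗ π + ι ∘ₗ γ = LinearMap.id) (y : M ⊗[F] N)
    (hy : TensorProduct.map γ (LinearMap.id : N →ₗ[F] N) y = 0) :
    TensorProduct.map σ (LinearMap.id : N →ₗ[F] N)
      (TensorProduct.map π (LinearMap.id : N →ₗ[F] N) y) = y := by
  have h5 : TensorProduct.map (σ ∘ₗ π + ι ∘ₗ γ) (LinearMap.id : N →ₗ[F] N) y = y := by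
    rw [h, TensorProduct.map_id]
    rfl
  rw [TensorProduct.map_add_left, LinearMap.add_apply] at h5
  have h6 : TensorProduct.map (ι ∘ₗ γ) (LinearMap.id : N →ₗ[F] N) y = 0 := by
    have h7 := TensorProduct.map_comp ι (LinearMap.id : N →ₗ[F] N) γ
      (LinearMap.id : N →ₗ[F] N)
    rw [LinearMap.comp_id] at h7
    rw [h7, LinearMap.comp_apply, hy, map_zero]
  have h8 := TensorProduct.map_comp σ (LinearMap.id : N →ₗ[F] N) π
    (LinearMap.id : N →ₗ[F] N)
  rw [LinearMap.comp_id] at h8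
  rw [h6, add_zero, h8] at h5
  exact h5

theorem pl_smul (c d : F) : TensorProduct.map (c • (1 : M →ₗ[F] M)) (d • (1 : N →ₗ[F] N)) =
    (c * d) • (1 : M ⊗[F] N →ₗ[F] M ⊗[F] N) := by
  rw [TensorProduct.map_smul_left, TensorProduct.map_smul_right, smul_smul]
  congr 1
  exact TensorProduct.map_id

end plain

theorem tprod_open {V W : Type} [AddCommGroup V] [Module F V] [AddCommGroup W] [Module F W]
    (ρ : Representation F 𝔊 V) (σ : Representation F 𝔊 W) (hρ : IsOpen {g | ρ g = 1})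
    (hσ : IsOpen {g | σ g = 1}) : IsOpen {g | ρ.tprod σ g = 1} := by
  have h1 : IsOpen ((MonoidHom.ker ρ ⊓ MonoidHom.ker σ : Subgroup 𝔊) : Set 𝔊) := hρ.inter hσ
  have h2 : MonoidHom.ker ρ ⊓ MonoidHom.ker σ ≤ MonoidHom.ker (ρ.tprod σ) := by
    rintro g ⟨ha, hb⟩
    have ha' : ρ g = 1 := ha
    have hb' : σ g = 1 := hb
    show TensorProduct.map (ρ g) (σ g) = 1
    rw [ha', hb']
    exact TensorProduct.map_id
  exact Subgroup.isOpen_mono h2 h1

/-- the tensor product of two representations, with the diagonal action -/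
noncomputable def tensVW {V W : Type} [AddCommGroup V] [Module F V] [Module.Finite F V]
    [AddCommGroup W] [Module F W] [Module.Finite F W] (ρ : Representation F 𝔊 V)
    (σ : Representation F 𝔊 W) (hρ : IsOpen {g | ρ g = 1}) (hσ : IsOpen {g | σ g = 1}) :
    Rp F 𝔊 where
  N := V ⊗[F] W
  ρ := ρ.tprod σ
  cont := tprod_open ρ σ hρ hσ

/-- the tensor product of two representations, with the diagonal action -/
noncomputable def tens (X Y : Rp F 𝔊) : Rp F 𝔊 := tensVW X.ρ Y.ρ X.cont Y.cont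

theorem tens_apply (X Y : Rp F 𝔊) (g : 𝔊) (x : X.N) (y : Y.N) :
    (tens X Y).ρ g (x ⊗ₜ[F] y) = X.ρ g x ⊗ₜ[F] Y.ρ g y := rfl

/-- the tensor product of two homomorphisms -/
noncomputable def tmap {X X' Y Y' : Rp F 𝔊} (f : Hom X X') (g : Hom Y Y') :
    Hom (tens X Y) (tens X' Y') where
  f := TensorProduct.map f.f g.f
  eq := by
    intro h x
    exact pl_map f.f g.f (X.ρ h) (Y.ρ h) (X'.ρ h) (Y'.ρ h) (LinearMap.ext (f.eq h))
      (LinearMap.ext (g.eq h)) x

/-- isomorphic representations -/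
def Iso (X Y : Rp F 𝔊) : Prop := ∃ f : Hom X Y, Function.Bijective f.f

theorem Iso.refl (X : Rp F 𝔊) : Iso X X := ⟨Hom.id X, Function.bijective_id⟩

theorem Iso.trans {X Y Z : Rp F 𝔊} (h : Iso X Y) (h' : Iso Y Z) : Iso X Z := by
  obtain ⟨f, hf⟩ := h
  obtain ⟨g, hg⟩ := h'
  exact ⟨g.comp f, hg.comp hf⟩

theorem Iso.tens {X X' Y Y' : Rp F 𝔊} (h : Iso X X') (h' : Iso Y Y') :
    Iso (tens X Y) (tens X' Y') := by
  obtain ⟨f, hf⟩ := h
  obtain ⟨g, hg⟩ := h'
  exact ⟨tmap f g, (TensorProduct.congr (LinearEquiv.ofBijective f.f hf)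
    (LinearEquiv.ofBijective g.f hg)).bijective⟩

theorem iso_assoc (X Y Z : Rp F 𝔊) :
    Iso (MU.tens X (MU.tens Y Z)) (MU.tens (MU.tens X Y) Z) :=
  ⟨⟨(TensorProduct.assoc F X.N Y.N Z.N).symm.toLinearMap, fun g x =>
    pl_assoc (X.ρ g) (Y.ρ g) (Z.ρ g) x⟩, (TensorProduct.assoc F X.N Y.N Z.N).symm.bijective⟩

theorem iso_leftComm (X Y Z : Rp F 𝔊) :
    Iso (MU.tens X (MU.tens Y Z)) (MU.tens Y (MU.tens X Z)) :=
  ⟨⟨(TensorProduct.leftComm F X.N Y.N Z.N).toLinearMap, fun g x =>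
    pl_leftComm (X.ρ g) (Y.ρ g) (Z.ρ g) x⟩, (TensorProduct.leftComm F X.N Y.N Z.N).bijective⟩

/-- the trivial representation -/
def triv : Rp F 𝔊 where
  N := F
  ρ := 1
  cont := by
    have h : {g : 𝔊 | (1 : 𝔊 →* (F →ₗ[F] F)) g = 1} = Set.univ := by
      ext g
      exact ⟨fun _ => trivial, fun _ => rfl⟩
    rw [h]
    exact isOpen_univ

theorem iso_unit (Y : Rp F 𝔊) : Iso Y (MU.tens triv Y) := by
  refine ⟨⟨(TensorProduct.lid F Y.N).symm.toLinearMap, fun g x => ?_⟩,
    (TensorProduct.lid F Y.N).symm.bijective⟩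
  rfl

/-- `V ⊗ (V ⊗ ... (V ⊗ Y))`, with `m` factors `V` -/
noncomputable def It (V : Rp F 𝔊) : ℕ → Rp F 𝔊 → Rp F 𝔊
  | 0, Y => Y
  | m + 1, Y => tens V (It V m Y)

theorem It_add (V : Rp F 𝔊) (a b : ℕ) (Y : Rp F 𝔊) : It V (a + b) Y = It V a (It V b Y) := by
  induction a with
  | zero => rw [Nat.zero_add]; rfl
  | succ a ih =>
    rw [Nat.succ_add]
    show tens V (It V (a + b) Y) = tens V (It V a (It V b Y))
    rw [ih]

theorem It_iso (V : Rp F 𝔊) (m : ℕ) (Y : Rp F 𝔊) : Iso (It V m Y) (tens (It V m triv) Y) := by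
  induction m with
  | zero => exact iso_unit Y
  | succ m ih => exact ((Iso.refl V).tens ih).trans (iso_assoc V (It V m triv) Y)

theorem It_leftComm (V W : Rp F 𝔊) (m : ℕ) (Y : Rp F 𝔊) :
    Iso (tens W (It V m Y)) (It V m (tens W Y)) := by
  induction m with
  | zero => exact Iso.refl _
  | succ m ih => exact (iso_leftComm W V (It V m Y)).trans ((Iso.refl V).tens ih)

theorem finrank_tens (X Y : Rp F 𝔊) : finrank F (tens X Y).N = finrank F X.N * finrank F Y.N :=
  Module.finrank_tensorProduct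

theorem finrank_It (V : Rp F 𝔊) (m : ℕ) (Y : Rp F 𝔊) :
    finrank F (It V m Y).N = finrank F V.N ^ m * finrank F Y.N := by
  induction m with
  | zero => rw [pow_zero, one_mul]; rfl
  | succ m ih =>
    show finrank F (tens V (It V m Y)).N = _
    rw [finrank_tens, ih, pow_succ]
    ring

variable {κ : Type} [Fintype κ] [DecidableEq κ]

/-- the action of `𝔊` on `F^κ` by the matrices `A g` -/
def stdR (A : 𝔊 →* Matrix κ κ F) : Representation F 𝔊 (κ → F) :=
  (Matrix.toLinAlgEquiv' : Matrix κ κ F ≃ₐ[F] ((κ → F) →ₗ[F] (κ → F))).toMonoidHom.comp A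

theorem stdR_apply (A : 𝔊 →* Matrix κ κ F) (g : 𝔊) : stdR A g = Matrix.toLin' (A g) := rfl

theorem std_open (A : 𝔊 →* Matrix κ κ F) (hA : IsOpen {g | A g = 1}) :
    IsOpen {g | stdR A g = 1} := by
  refine open_of_ker hA _ fun g hg => ?_
  rw [stdR_apply, hg, Matrix.toLin'_one]
  rfl

/-- the standard representation `T = F^κ` -/
def std (A : 𝔊 →* Matrix κ κ F) (hA : IsOpen {g | A g = 1}) : Rp F 𝔊 where
  N := κ → F
  ρ := stdR A
  cont := std_open A hA

/-- the elements which act as the scalar `c` on `T` act as `c ^ j` on `X` -/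
def Cl (A : 𝔊 →* Matrix κ κ F) (j : ℕ) (X : Rp F 𝔊) : Prop :=
  ∀ (g : 𝔊) (c : F), A g = c • (1 : Matrix κ κ F) → X.ρ g = c ^ j • (1 : X.N →ₗ[F] X.N)

theorem Cl.tens {A : 𝔊 →* Matrix κ κ F} {i j : ℕ} {X Y : Rp F 𝔊} (hX : Cl A i X)
    (hY : Cl A j Y) : Cl A (i + j) (MU.tens X Y) := by
  intro g c h
  have h1 := pl_smul (M := X.N) (N := Y.N) (c ^ i) (c ^ j)
  rw [← hX g c h, ← hY g c h, ← pow_add] at h1
  exact h1

theorem Cl.std (A : 𝔊 →* Matrix κ κ F) (hA : IsOpen {g | A g = 1}) : Cl A 1 (MU.std A hA) := by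
  intro g c h
  show Matrix.toLin' (A g) = c ^ 1 • (1 : (κ → F) →ₗ[F] (κ → F))
  rw [h, map_smul, Matrix.toLin'_one, pow_one]
  rfl

theorem Cl.triv (A : 𝔊 →* Matrix κ κ F) : Cl A 0 (MU.triv : Rp F 𝔊) := by
  intro g c h
  rw [pow_zero, one_smul]
  rfl

theorem Cl.It {A : 𝔊 →* Matrix κ κ F} (hA : IsOpen {g | A g = 1}) (m : ℕ) {j : ℕ}
    {Y : Rp F 𝔊} (hY : Cl A j Y) : Cl A (m + j) (MU.It (MU.std A hA) m Y) := by
  induction m with
  | zero => rw [Nat.zero_add]; exact hY
  | succ m ih =>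
    have h1 : m + 1 + j = 1 + (m + j) := by ring
    rw [h1]
    exact (Cl.std A hA).tens ih

/-- the kernel of a homomorphism -/
def kerR {X Y : Rp F 𝔊} (f : Hom X Y) : Rp F 𝔊 where
  N := LinearMap.ker f.f
  ρ :=
    { toFun := fun g => (X.ρ g).restrict (p := LinearMap.ker f.f) (q := LinearMap.ker f.f)
        fun x hx => by
          rw [LinearMap.mem_ker] at hx ⊢
          rw [f.eq, hx, map_zero]
      map_one' := by
        refine LinearMap.ext fun x => Subtype.ext ?_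
        show X.ρ 1 x.1 = x.1
        rw [map_one]
        rfl
      map_mul' := fun g h => by
        refine LinearMap.ext fun x => Subtype.ext ?_
        show X.ρ (g * h) x.1 = X.ρ g (X.ρ h x.1)
        rw [map_mul]
        rfl }
  cont := by
    refine open_of_ker (A := X.ρ) X.cont _ fun g hg => ?_
    refine LinearMap.ext fun x => Subtype.ext ?_
    show X.ρ g x.1 = x.1
    rw [hg]
    rfl

theorem Cl.kerR {A : 𝔊 →* Matrix κ κ F} {j : ℕ} {X Y : Rp F 𝔊} (hX : Cl A j X) (f : Hom X Y) :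
    Cl A j (MU.kerR f) := by
  intro g c h
  refine LinearMap.ext fun x => Subtype.ext ?_
  show X.ρ g x.1 = c ^ j • x.1
  rw [hX g c h]
  rfl

section
variable {Ω : Type} [CommRing Ω] [IsDomain Ω] (C : Coh F 𝔊 Ω)

theorem Iso.rk {X Y : Rp F 𝔊} (h : Iso X Y) : C.rk X = C.rk Y := by
  obtain ⟨f, hf⟩ := h
  exact rk_eq_of_bij C f hf

/-- the rank of a tensor product with a split extension -/
theorem rk_split (X Z Y : Rp F 𝔊) (π : Hom X Z) (σ : Hom Z X) (h : ∀ z, π.f (σ.f z) = z) :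
    C.rk (tens X Y) = C.rk (tens Z Y) + C.rk (tens (kerR π) Y) := by
  let γ : Hom X (kerR π) :=
    { f := (LinearMap.id - σ.f ∘ₗ π.f).codRestrict (LinearMap.ker π.f) fun x => by
        rw [LinearMap.mem_ker]
        show π.f (x - σ.f (π.f x)) = 0
        rw [map_sub, h, sub_self]
      eq := fun g x => by
        apply Subtype.ext
        show X.ρ g x - σ.f (π.f (X.ρ g x)) = X.ρ g (x - σ.f (π.f x))
        rw [π.eq, σ.eq, map_sub] }
  let ι : Hom (kerR π) X :=
    { f := (LinearMap.ker π.f).subtype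
      eq := fun g x => rfl }
  have h1 : γ.f ∘ₗ ι.f = LinearMap.id := by
    refine LinearMap.ext fun x => Subtype.ext ?_
    show x.1 - σ.f (π.f x.1) = x.1
    have h2 : π.f x.1 = 0 := x.2
    rw [h2, map_zero, sub_zero]
  have h2 : π.f ∘ₗ σ.f = LinearMap.id := LinearMap.ext h
  have h3 : γ.f ∘ₗ σ.f = 0 := by
    refine LinearMap.ext fun x => Subtype.ext ?_
    show σ.f x - σ.f (π.f (σ.f x)) = 0
    rw [h, sub_self]
  have h4 : σ.f ∘ₗ π.f + ι.f ∘ₗ γ.f = LinearMap.id := by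
    refine LinearMap.ext fun x => ?_
    show σ.f (π.f x) + (x - σ.f (π.f x)) = x
    abel
  have key : ∀ y, (tmap π (Hom.id Y)).f ((tmap σ (Hom.id Y)).f y) = y :=
    fun y => pl_id σ.f π.f h2 y
  refine rk_exact_eq C (tmap σ (Hom.id Y)) (tmap γ (Hom.id Y)) ⟨?_, ?_, ?_⟩
    (tmap π (Hom.id Y)) key
  · exact Function.LeftInverse.injective key
  · intro y
    exact ⟨(tmap ι (Hom.id Y)).f y, pl_id ι.f γ.f h1 y⟩
  · intro y
    constructor
    · intro hy
      exact ⟨(tmap π (Hom.id Y)).f y, pl_sum π.f σ.f γ.f ι.f h4 y hy⟩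
    · rintro ⟨x, rfl⟩
      exact pl_zero σ.f γ.f h3 x

end

end Pool.Agent.K6.H45.MU
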