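import Pool.Agent.K6.H45.MU.AsyMain

/-!
The asymptotic behaviour of the tensor powers (MP_519cc8_nt): the rank.
-/

set_option autoImplicit false
set_option linter.unusedSectionVars false

open Module

namespace Pool.Agent.K6.H45.MU

variable {F : Type} [Field F] {𝔊 : Type} [Group 𝔊] [TopologicalSpace 𝔊] [IsTopologicalGroup 𝔊]
variable {κ : Type} [Fintype κ] [DecidableEq κ]

theorem ar1 (D N w w' d r y : ℕ) (ha : w * d * N * r ≤ D * y + w * d * w' * r) :
    d * (N * (D + w)) * r ≤ D * (N * d * r + y) + d * (w' * w) * r := by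
  have e1 : d * (N * (D + w)) * r = D * (N * d * r) + w * d * N * r := by ring
  have e2 : D * (N * d * r + y) + d * (w' * w) * r =
    D * (N * d * r) + (D * y + w * d * w' * r) := by ring
  rw [e1, e2]
  exact Nat.add_le_add_left ha _

theorem ar2 (D N w w' d r y : ℕ)
    (hb : D * y + w * d * w' * r ≤ w * d * N * r + D * (w * d * w' * r)) :
    D * (N * d * r + y) + d * (w' * w) * r ≤
      d * (N * (D + w)) * r + D * (d * (w' * w) * r) := by
  have e1 : d * (N * (D + w)) * r + D * (d * (w' * w) * r) =
    D * (N * d * r) + (w * d * N * r + D * (w * d * w' * r)) := by ring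
  have e2 : D * (N * d * r + y) + d * (w' * w) * r =
    D * (N * d * r) + (D * y + w * d * w' * r) := by ring
  rw [e1, e2]
  exact Nat.add_le_add_left hb _

theorem ar3 (D N N' w' d r y : ℕ) (hD1 : 1 ≤ D)
    (h : N' * d * N * r ≤ D * y + N' * d * w' * r ∧
      D * y + N' * d * w' * r ≤ N' * d * N * r + D * (N' * d * w' * r)) :
    d * (N * N') * r ≤ D * y + D * (d * (N' * w') * r) ∧
      D * y ≤ d * (N * N') * r + D * (d * (N' * w') * r) := by
  obtain ⟨ha, hb⟩ := h
  have e1 : N' * d * w' * r = d * (N' * w') * r := by ring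
  have e2 : N' * d * N * r = d * (N * N') * r := by ring
  rw [e1, e2] at ha hb
  generalize d * (N' * w') * r = t at *
  constructor
  · exact ha.trans (Nat.add_le_add_left (Nat.le_mul_of_pos_left _ hD1) _)
  · omega

section
variable {Ω : Type} [CommRing Ω] [IsDomain Ω] (C : Coh F 𝔊 Ω) (A : 𝔊 →* Matrix κ κ F)
  (hA : IsOpen {g | A g = 1}) (hD : (scal A).index ≠ 0)

theorem rk_le_CC [Nonempty κ] (j : ℕ) (Y : Rp F 𝔊) (hY : Cl A j Y) :
    C.rk Y ≤ finrank F Y.N * C.rk (CC A hA hD j) := by
  have := Subgroup.fintypeOfIndexNeZero hD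
  let b := Module.finBasis F Y.N
  let t : Hom (pw (CC A hA hD j) (Fin (finrank F Y.N))) Y :=
    { f := ThetaF A j Y b
      eq := fun g Φ => ThetaF_eq A j Y hY b g Φ }
  have h1 := rk_le_of_surj C t (ThetaF_surj A j Y hY b)
  rwa [rk_pw, Fintype.card_fin] at h1

theorem rk_It_index [Nonempty κ]
    (π : Hom (It (std A hA) (scal A).index triv) (CC A hA hD (scal A).index))
    (σ : Hom (CC A hA hD (scal A).index) (It (std A hA) (scal A).index triv))
    (h : ∀ z, π.f (σ.f z) = z) (j : ℕ) (Y : Rp F 𝔊) (hY : Cl A j Y) :
    C.rk (It (std A hA) (scal A).index Y) =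
      finrank F Y.N * C.rk (CC A hA hD ((scal A).index + j)) + C.rk (tens (kerR π) Y) := by
  rw [(It_iso (std A hA) (scal A).index Y).rk C, rk_split C _ _ Y π σ h,
    (iso_tensor_identity A hA hD (scal A).index j Y hY).rk C, rk_pw, Fintype.card_fin]

theorem finrank_std : finrank F (std A hA).N = Fintype.card κ :=
  Module.finrank_fintype_fun_eq_card F

theorem kerR_dim [Nonempty κ]
    (π : Hom (It (std A hA) (scal A).index triv) (CC A hA hD (scal A).index))
    (σ : Hom (CC A hA hD (scal A).index) (It (std A hA) (scal A).index triv))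
    (h : ∀ z, π.f (σ.f z) = z) :
    (scal A).index + finrank F (kerR π).N = Fintype.card κ ^ (scal A).index := by
  have h1 := LinearMap.finrank_range_add_finrank_ker π.f
  have h2 : LinearMap.range π.f = ⊤ := LinearMap.range_eq_top.2 fun z => ⟨σ.f z, h z⟩
  have h3 : finrank F (It (std A hA) (scal A).index triv).N = Fintype.card κ ^ (scal A).index := by
    rw [finrank_It, finrank_std]
    have h4 : finrank F (triv : Rp F 𝔊).N = 1 := finrank_self F
    rw [h4, mul_one]
  have h5 : finrank F (CC A hA hD (scal A).index).N = (scal A).index := finrank_hom A hD _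
  rw [h2, finrank_top, h3, h5] at h1
  exact h1

theorem bounds [Nonempty κ]
    (π : Hom (It (std A hA) (scal A).index triv) (CC A hA hD (scal A).index))
    (σ : Hom (CC A hA hD (scal A).index) (It (std A hA) (scal A).index triv))
    (h : ∀ z, π.f (σ.f z) = z) (k : ℕ) : ∀ (j : ℕ) (Y : Rp F 𝔊), Cl A j Y →
    finrank F Y.N * Fintype.card κ ^ ((scal A).index * k) *
        C.rk (CC A hA hD ((scal A).index * k + j)) ≤
      (scal A).index * C.rk (It (std A hA) ((scal A).index * k) Y) +
        finrank F Y.N * finrank F (kerR π).N ^ k * C.rk (CC A hA hD ((scal A).index * k + j)) ∧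
    (scal A).index * C.rk (It (std A hA) ((scal A).index * k) Y) +
        finrank F Y.N * finrank F (kerR π).N ^ k * C.rk (CC A hA hD ((scal A).index * k + j)) ≤
      finrank F Y.N * Fintype.card κ ^ ((scal A).index * k) *
        C.rk (CC A hA hD ((scal A).index * k + j)) +
      (scal A).index * (finrank F Y.N * finrank F (kerR π).N ^ k *
        C.rk (CC A hA hD ((scal A).index * k + j))) := by
  have hw := kerR_dim A hA hD π σ h
  induction k with
  | zero =>
    intro j Y hY
    have h1 := rk_le_CC C A hA hD j Y hY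
    rw [mul_zero, pow_zero, pow_zero, mul_one, Nat.zero_add]
    have h2 : C.rk (It (std A hA) 0 Y) = C.rk Y := rfl
    rw [h2]
    constructor
    · exact Nat.le_add_left _ _
    · rw [Nat.add_comm]
      exact Nat.add_le_add_left (Nat.mul_le_mul_left _ h1) _
  | succ k ih =>
    intro j Y hY
    have hZ : Cl A ((scal A).index * k + j) (It (std A hA) ((scal A).index * k) Y) :=
      Cl.It hA _ hY
    have h1 := rk_It_index C A hA hD π σ h _ _ hZ
    have hW : Cl A (scal A).index (kerR π) := by
      refine Cl.kerR ?_ π
      have h2 := Cl.It hA (scal A).index (Cl.triv A)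
      rwa [add_zero] at h2
    have hY' : Cl A ((scal A).index + j) (tens (kerR π) Y) := hW.tens hY
    have h3 := ih _ _ hY'
    have h4 : (scal A).index * (k + 1) = (scal A).index + (scal A).index * k := by ring
    have h5 : C.rk (tens (kerR π) (It (std A hA) ((scal A).index * k) Y)) =
        C.rk (It (std A hA) ((scal A).index * k) (tens (kerR π) Y)) :=
      (It_leftComm (std A hA) (kerR π) ((scal A).index * k) Y).rk C
    have h6 : finrank F (It (std A hA) ((scal A).index * k) Y).N =
        Fintype.card κ ^ ((scal A).index * k) * finrank F Y.N := by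
      rw [finrank_It, finrank_std]
    have h7 : finrank F (tens (kerR π) Y).N = finrank F (kerR π).N * finrank F Y.N :=
      finrank_tens _ _
    have h8 : (scal A).index + ((scal A).index * k + j) = (scal A).index * (k + 1) + j := by ring
    have h9 : (scal A).index * k + ((scal A).index + j) = (scal A).index * (k + 1) + j := by ring
    have h10 : C.rk (It (std A hA) ((scal A).index * (k + 1)) Y) =
        C.rk (It (std A hA) (scal A).index (It (std A hA) ((scal A).index * k) Y)) := by
      rw [h4, It_add]
    rw [h9, h7] at h3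
    rw [h5, h6, h8] at h1
    rw [h10, h1]
    have h11 : Fintype.card κ ^ ((scal A).index * (k + 1)) =
        Fintype.card κ ^ ((scal A).index * k) * ((scal A).index + finrank F (kerR π).N) := by
      rw [hw, ← pow_add]
      congr 1
    rw [h11, pow_succ]
    exact ⟨ar1 _ _ _ _ _ _ _ h3.1, ar2 _ _ _ _ _ _ _ h3.2⟩

/-- the rank of `T ⊗ (T ⊗ ... (T ⊗ X))` -/
theorem bounds_all [Nonempty κ] (j : ℕ) (X : Rp F 𝔊) (hX : Cl A j X) (m : ℕ) :
    finrank F X.N * Fintype.card κ ^ m * C.rk (CC A hA hD (m + j)) ≤
      (scal A).index * C.rk (It (std A hA) m X) +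
        (scal A).index * (finrank F X.N * (Fintype.card κ ^ (m % (scal A).index) *
          (Fintype.card κ ^ (scal A).index - (scal A).index) ^ (m / (scal A).index)) *
            C.rk (CC A hA hD (m + j))) ∧
    (scal A).index * C.rk (It (std A hA) m X) ≤
      finrank F X.N * Fintype.card κ ^ m * C.rk (CC A hA hD (m + j)) +
        (scal A).index * (finrank F X.N * (Fintype.card κ ^ (m % (scal A).index) *
          (Fintype.card κ ^ (scal A).index - (scal A).index) ^ (m / (scal A).index)) *
            C.rk (CC A hA hD (m + j))) := by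
  obtain ⟨π, σ, h⟩ := exists_summand A hA hD
  have hw := kerR_dim A hA hD π σ h
  have hw' : Fintype.card κ ^ (scal A).index - (scal A).index = finrank F (kerR π).N := by omega
  have hY : Cl A (m % (scal A).index + j) (It (std A hA) (m % (scal A).index) X) :=
    Cl.It hA _ hX
  have h1 := bounds C A hA hD π σ h (m / (scal A).index) _ _ hY
  have hm : (scal A).index * (m / (scal A).index) + m % (scal A).index = m := Nat.div_add_mod _ _
  have h2 : C.rk (It (std A hA) ((scal A).index * (m / (scal A).index))
      (It (std A hA) (m % (scal A).index) X)) = C.rk (It (std A hA) m X) := by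
    rw [← It_add, hm]
  have h3 : (scal A).index * (m / (scal A).index) + (m % (scal A).index + j) = m + j := by
    rw [← add_assoc, hm]
  have h4 : finrank F (It (std A hA) (m % (scal A).index) X).N =
      Fintype.card κ ^ (m % (scal A).index) * finrank F X.N := by
    rw [finrank_It, finrank_std]
  have h5 : Fintype.card κ ^ m = Fintype.card κ ^ ((scal A).index * (m / (scal A).index)) *
      Fintype.card κ ^ (m % (scal A).index) := by
    rw [← pow_add, hm]
  rw [h2, h3, h4] at h1
  rw [hw', h5]
  have hD1 : 1 ≤ (scal A).index := Nat.one_le_iff_ne_zero.2 hD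
  exact ar3 _ _ _ _ _ _ _ hD1 h1

end

end Pool.Agent.K6.H45.MU
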