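import Pool.Agent.K6.H45.MU.AsyDefs

/-!
The asymptotic behaviour of the tensor powers (MP_519cc8_nt): the homogeneous functions as a direct
summand of a tensor power, and the rank.
-/

set_option autoImplicit false
set_option linter.unusedSectionVars false

open Module TensorProduct

namespace Pool.Agent.K6.H45.MU

variable {F : Type} [Field F] {𝔊 : Type} [Group 𝔊] [TopologicalSpace 𝔊] [IsTopologicalGroup 𝔊]
variable {κ : Type} [Fintype κ] [DecidableEq κ]

section plain

variable {M N P : Type} [AddCommGroup M] [Module F M] [AddCommGroup N] [Module F N]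
  [AddCommGroup P] [Module F P]

theorem pl_lift (B : M →ₗ[F] N →ₗ[F] P) (a : M →ₗ[F] M) (b : N →ₗ[F] N) (c : P →ₗ[F] P)
    (h : ∀ m n, B (a m) (b n) = c (B m n)) (x : M ⊗[F] N) :
    TensorProduct.lift B (TensorProduct.map a b x) = c (TensorProduct.lift B x) := by
  induction x using TensorProduct.induction_on with
  | zero => simp only [map_zero]
  | add x y hx hy => rw [map_add, map_add, map_add, map_add, hx, hy]
  | tmul x y => exact h x y

theorem pl_inj [Module.Finite F M] [Module.Finite F N] [Module.Finite F P]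
    (T : M ⊗[F] N →ₗ[F] P) (h : finrank F (M ⊗[F] N) = finrank F P)
    (hs : Function.Surjective T) : Function.Injective T := by
  let e : P ≃ₗ[F] M ⊗[F] N := LinearEquiv.ofFinrankEq P (M ⊗[F] N) h.symm
  have h1 : Function.Surjective (e.toLinearMap ∘ₗ T) := e.surjective.comp hs
  have h2 : Function.Injective (e.toLinearMap ∘ₗ T) :=
    OrzechProperty.injective_of_surjective_endomorphism _ h1
  exact Function.Injective.of_comp h2

end plain

theorem scal_mem {A : 𝔊 →* Matrix κ κ F} {a b : 𝔊} {c : F} (h : A b = c • A a) :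
    A (b * a⁻¹) = c • (1 : Matrix κ κ F) := by
  rw [map_mul, h, smul_mul_assoc, ← map_mul, mul_inv_cancel, map_one]

/-- values of the delta function at quotients -/
theorem delta_out [Nonempty κ] (A : 𝔊 →* Matrix κ κ F) (m : ℕ) (g : 𝔊) (q : 𝔊 ⧸ scal A)
    (h : q ≠ QuotientGroup.mk g) : (delta A m).1 (g * (q.out)⁻¹) = 0 := by
  refine delta_neg A m ?_
  rintro ⟨c, hc⟩
  apply h
  rw [← QuotientGroup.out_eq' q]
  refine (mk_eq_iff A _ _).2 ⟨c, ?_⟩
  have h4 : A g = A (g * (q.out)⁻¹) * A q.out := by rw [← map_mul, inv_mul_cancel_right]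
  rw [h4, hc, smul_mul_assoc, one_mul]

theorem out_smul (A : 𝔊 →* Matrix κ κ F) (g : 𝔊) :
    ∃ c : F, A g = c • A (QuotientGroup.mk g : 𝔊 ⧸ scal A).out :=
  (mk_eq_iff A _ _).1 (QuotientGroup.out_eq' _)

theorem finrank_hom [Nonempty κ] (A : 𝔊 →* Matrix κ κ F) (hD : (scal A).index ≠ 0) (m : ℕ) :
    finrank F (hom A m) = (scal A).index := by
  classical
  have := Subgroup.fintypeOfIndexNeZero hD
  let e : hom A m →ₗ[F] (𝔊 ⧸ scal A → F) :=
    { toFun := fun φ q => φ.1 q.out
      map_add' := fun _ _ => rfl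
      map_smul' := fun _ _ => rfl }
  have h1 : Function.Injective e := by
    intro φ ψ h
    apply Subtype.ext
    funext g
    obtain ⟨c, hc⟩ := out_smul A g
    rw [φ.2 _ _ c hc, ψ.2 _ _ c hc]
    congr 1
    exact congrFun h (QuotientGroup.mk g)
  have h2 : Function.Surjective e := by
    intro t
    refine ⟨∑ q, t q • trans A m (q.out)⁻¹ (delta A m), ?_⟩
    rw [map_sum]
    funext q
    rw [Finset.sum_apply, Finset.sum_eq_single q]
    · show t q * (delta A m).1 (q.out * (q.out)⁻¹) = t q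
      rw [mul_inv_cancel, delta_one, mul_one]
    · intro q' _ hq'
      show t q' * (delta A m).1 (q.out * (q'.out)⁻¹) = 0
      rw [delta_out A m q.out q' (by rw [QuotientGroup.out_eq']; exact hq'), mul_zero]
    · intro h
      exact absurd (Finset.mem_univ _) h
  rw [(LinearEquiv.ofBijective e ⟨h1, h2⟩).finrank_eq, Module.finrank_fintype_fun_eq_card,
    Subgroup.index, Nat.card_eq_fintype_card]

/-- the tensor identity -/
noncomputable def TI (A : 𝔊 →* Matrix κ κ F) (i j : ℕ) (Y : Rp F 𝔊) (hY : Cl A j Y) {d : ℕ}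
    (b : Basis (Fin d) F Y.N) : hom A i →ₗ[F] Y.N →ₗ[F] (Fin d → hom A (i + j)) :=
  LinearMap.mk₂ F (fun φ y k => ⟨fun g => φ.1 g * b.repr (Y.ρ g y) k, fun g g' c hc => by
      show φ.1 g' * b.repr (Y.ρ g' y) k = c ^ (i + j) * (φ.1 g * b.repr (Y.ρ g y) k)
      have h1 : Y.ρ g' y = c ^ j • Y.ρ g y := by
        have h2 : A (g' * g⁻¹) = c • (1 : Matrix κ κ F) := scal_mem hc
        have h3 := hY _ _ h2
        have h4 : Y.ρ g' = Y.ρ (g' * g⁻¹) * Y.ρ g := by rw [← map_mul, inv_mul_cancel_right]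
        rw [h4, h3]
        rfl
      rw [φ.2 _ _ c hc, h1, map_smul, Finsupp.smul_apply, smul_eq_mul, pow_add]
      ring⟩)
    (fun φ ψ y => by
      funext k
      apply Subtype.ext
      funext g
      show (φ.1 g + ψ.1 g) * _ = φ.1 g * _ + ψ.1 g * _
      ring)
    (fun c φ y => by
      funext k
      apply Subtype.ext
      funext g
      show (c * φ.1 g) * b.repr (Y.ρ g y) k = c * (φ.1 g * b.repr (Y.ρ g y) k)
      ring)
    (fun φ y z => by
      funext k
      apply Subtype.ext
      funext g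
      show φ.1 g * b.repr (Y.ρ g (y + z)) k =
        φ.1 g * b.repr (Y.ρ g y) k + φ.1 g * b.repr (Y.ρ g z) k
      rw [map_add, map_add, Finsupp.add_apply]
      ring)
    (fun c φ y => by
      funext k
      apply Subtype.ext
      funext g
      show φ.1 g * b.repr (Y.ρ g (c • y)) k = c * (φ.1 g * b.repr (Y.ρ g y) k)
      rw [map_smul, map_smul, Finsupp.smul_apply, smul_eq_mul]
      ring)

theorem TI_apply (A : 𝔊 →* Matrix κ κ F) (i j : ℕ) (Y : Rp F 𝔊) (hY : Cl A j Y) {d : ℕ}
    (b : Basis (Fin d) F Y.N) (φ : hom A i) (y : Y.N) (k : Fin d) (g : 𝔊) :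
    (TI A i j Y hY b φ y k).1 g = φ.1 g * b.repr (Y.ρ g y) k := rfl

theorem iso_tensor_identity [Nonempty κ] (A : 𝔊 →* Matrix κ κ F) (hA : IsOpen {g | A g = 1})
    (hD : (scal A).index ≠ 0) (i j : ℕ) (Y : Rp F 𝔊) (hY : Cl A j Y) :
    Iso (tens (CC A hA hD i) Y) (pw (CC A hA hD (i + j)) (Fin (finrank F Y.N))) := by
  classical
  have := Subgroup.fintypeOfIndexNeZero hD
  have := hom_finite A hD i
  have := hom_finite A hD (i + j)
  let b := Module.finBasis F Y.N
  let T : hom A i ⊗[F] Y.N →ₗ[F] (Fin (finrank F Y.N) → hom A (i + j)) :=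
    TensorProduct.lift (TI A i j Y hY b)
  have hs : Function.Surjective T := by
    intro Φ
    refine ⟨∑ q : 𝔊 ⧸ scal A, ∑ k, (Φ k).1 q.out •
      ((trans A i (q.out)⁻¹ (delta A i)) ⊗ₜ[F] (Y.ρ (q.out)⁻¹ (b k))), ?_⟩
    let ev' : Fin (finrank F Y.N) → 𝔊 → ((Fin (finrank F Y.N) → hom A (i + j)) →ₗ[F] F) :=
      fun k' g =>
      { toFun := fun y => (y k').1 g
        map_add' := fun _ _ => rfl
        map_smul' := fun _ _ => rfl }
    funext k'
    apply Subtype.ext
    funext g
    show ev' k' g (T _) = _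
    rw [map_sum, map_sum]
    simp only [map_sum, map_smul]
    have h1 : ∀ (q : 𝔊 ⧸ scal A) (k : Fin (finrank F Y.N)),
        ev' k' g (T ((trans A i (q.out)⁻¹ (delta A i)) ⊗ₜ[F] (Y.ρ (q.out)⁻¹ (b k)))) =
        (delta A i).1 (g * (q.out)⁻¹) * b.repr (Y.ρ (g * (q.out)⁻¹) (b k)) k' := by
      intro q k
      rw [map_mul]
      rfl
    simp only [h1]
    rw [Finset.sum_eq_single (QuotientGroup.mk g : 𝔊 ⧸ scal A)]
    · obtain ⟨c, hc⟩ := out_smul A g
      have h2 := scal_mem hc
      rw [delta_pos A i h2, hY _ _ h2]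
      have h3 : ∀ k, b.repr ((c ^ j • (1 : Y.N →ₗ[F] Y.N)) (b k)) k' =
          c ^ j * (if k = k' then 1 else 0) := by
        intro k
        show b.repr (c ^ j • b k) k' = _
        rw [map_smul, Basis.repr_self, Finsupp.smul_apply, Finsupp.single_apply, smul_eq_mul]
      simp only [h3, smul_eq_mul]
      rw [Finset.sum_eq_single k']
      · rw [if_pos rfl, (Φ k').2 _ _ c hc, pow_add]
        ring
      · intro k _ hk
        rw [if_neg hk, mul_zero, mul_zero, mul_zero]
      · intro h
        exact absurd (Finset.mem_univ _) h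
    · intro q _ hq
      refine Finset.sum_eq_zero fun k _ => ?_
      rw [delta_out A i g q hq, zero_mul, smul_zero]
    · intro h
      exact absurd (Finset.mem_univ _) h
  have hf : finrank F (hom A i ⊗[F] Y.N) =
      finrank F (Fin (finrank F Y.N) → hom A (i + j)) := by
    rw [Module.finrank_tensorProduct, Module.finrank_pi_fintype, finrank_hom A hD]
    simp only [finrank_hom A hD, Finset.sum_const, Finset.card_univ, Fintype.card_fin,
      smul_eq_mul]
    ring
  have hi : Function.Injective T := pl_inj T hf hs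
  refine ⟨⟨T, fun h x => ?_⟩, hi, hs⟩
  refine pl_lift (TI A i j Y hY b) (trans A i h) (Y.ρ h)
    ((pw (CC A hA hD (i + j)) (Fin (finrank F Y.N))).ρ h) (fun φ y => ?_) x
  funext k
  apply Subtype.ext
  funext g
  show φ.1 (g * h) * b.repr (Y.ρ g (Y.ρ h y)) k = φ.1 (g * h) * b.repr (Y.ρ (g * h) y) k
  rw [map_mul]
  rfl


/-- a vector and a linear function -/
theorem exists_pair (M : Matrix κ κ F) (h : ¬ ∃ c : F, M = c • (1 : Matrix κ κ F)) :
    ∃ (l : (κ → F) →ₗ[F] F) (v : κ → F), l v = 1 ∧ l (M.mulVec v) = 0 := by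
  classical
  by_contra hcon
  push Not at hcon
  apply h
  obtain ⟨a, ha⟩ := LinearMap.exists_eq_smul_id_of_forall_notLinearIndependent
    (f := Matrix.toLin' M) fun v => by
      intro hv
      obtain ⟨hv1, hv2⟩ := linearIndependent_fin2.1 hv
      have hv1' : M.mulVec v ≠ 0 := hv1
      have hv2' : ∀ a : F, a • M.mulVec v ≠ v := hv2
      have h3 : v ∉ Submodule.span F {M.mulVec v} := by
        intro h4
        rw [Submodule.mem_span_singleton] at h4
        obtain ⟨a, ha⟩ := h4
        exact hv2' a ha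
      obtain ⟨f, hf1, hf2⟩ := Submodule.exists_le_ker_of_notMem h3
      refine hcon ((f v)⁻¹ • f) v ?_ ?_
      · show (f v)⁻¹ * f v = 1
        exact inv_mul_cancel₀ hf1
      · show (f v)⁻¹ * f (M.mulVec v) = 0
        have h5 : f (M.mulVec v) = 0 := hf2 (Submodule.mem_span_singleton_self _)
        rw [h5, mul_zero]
  refine ⟨a, ?_⟩
  have h1 : Matrix.toLin' M = Matrix.toLin' (a • (1 : Matrix κ κ F)) := by
    rw [ha, map_smul, Matrix.toLin'_one]
    rfl
  exact Matrix.toLin'.injective h1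

/-- matrix coefficients of an iterated tensor product -/
theorem exists_eval (A : 𝔊 →* Matrix κ κ F) (hA : IsOpen {g | A g = 1})
    (hD : (scal A).index ≠ 0) (l : List (((κ → F) →ₗ[F] F) × (κ → F))) :
    ∃ (π : Hom (It (std A hA) l.length triv) (CC A hA hD l.length))
      (x : (It (std A hA) l.length triv).N),
      ∀ g, (π.f x).1 g = (l.map (fun p => p.1 ((A g).mulVec p.2))).prod := by
  induction l with
  | nil =>
    let p0 : F →ₗ[F] hom A 0 :=
      { toFun := fun a => ⟨fun _ => a, fun g g' c _ => by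
          show a = c ^ 0 * a
          rw [pow_zero, one_mul]⟩
        map_add' := fun _ _ => rfl
        map_smul' := fun _ _ => rfl }
    exact ⟨⟨p0, fun g x => rfl⟩, (1 : F), fun g => rfl⟩
  | cons p l ih =>
    obtain ⟨π, x, hx⟩ := ih
    let B : (κ → F) →ₗ[F] (It (std A hA) l.length triv).N →ₗ[F] hom A (l.length + 1) :=
      LinearMap.mk₂ F (fun v u => ⟨fun g => p.1 ((A g).mulVec v) * (π.f u).1 g,
        fun g g' c hc => by
          show p.1 ((A g').mulVec v) * (π.f u).1 g' =
            c ^ (l.length + 1) * (p.1 ((A g).mulVec v) * (π.f u).1 g)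
          rw [hc, Matrix.smul_mulVec, map_smul, smul_eq_mul, (π.f u).2 _ _ c hc, pow_succ]
          ring⟩)
        (fun v w u => by
          apply Subtype.ext
          funext g
          show p.1 ((A g).mulVec (v + w)) * (π.f u).1 g =
            p.1 ((A g).mulVec v) * (π.f u).1 g + p.1 ((A g).mulVec w) * (π.f u).1 g
          rw [Matrix.mulVec_add, map_add]
          ring)
        (fun c v u => by
          apply Subtype.ext
          funext g
          show p.1 ((A g).mulVec (c • v)) * (π.f u).1 g = c * (p.1 ((A g).mulVec v) * (π.f u).1 g)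
          rw [Matrix.mulVec_smul, map_smul, smul_eq_mul]
          ring)
        (fun v u w => by
          apply Subtype.ext
          funext g
          show p.1 ((A g).mulVec v) * (π.f (u + w)).1 g =
            p.1 ((A g).mulVec v) * (π.f u).1 g + p.1 ((A g).mulVec v) * (π.f w).1 g
          rw [map_add]
          show p.1 ((A g).mulVec v) * ((π.f u).1 g + (π.f w).1 g) = _
          ring)
        (fun c v u => by
          apply Subtype.ext
          funext g
          show p.1 ((A g).mulVec v) * (π.f (c • u)).1 g = c * (p.1 ((A g).mulVec v) * (π.f u).1 g)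
          rw [map_smul]
          show p.1 ((A g).mulVec v) * (c * (π.f u).1 g) = _
          ring)
    refine ⟨⟨TensorProduct.lift B, fun h y => ?_⟩,
      (p.2 ⊗ₜ[F] x : (κ → F) ⊗[F] (It (std A hA) l.length triv).N), fun g => ?_⟩
    · refine pl_lift B (Matrix.toLin' (A h)) ((It (std A hA) l.length triv).ρ h)
        (trans A (l.length + 1) h) (fun v u => ?_) y
      apply Subtype.ext
      funext g
      show p.1 ((A g).mulVec ((A h).mulVec v)) *
        (π.f ((It (std A hA) l.length triv).ρ h u)).1 g =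
        p.1 ((A (g * h)).mulVec v) * (π.f u).1 (g * h)
      rw [π.eq, Matrix.mulVec_mulVec, map_mul]
      rfl
    · show p.1 ((A g).mulVec p.2) * (π.f x).1 g = _
      rw [hx, List.map_cons, List.prod_cons]

/-- the homomorphism from the homogeneous functions which maps the delta function to `x` -/
noncomputable def sec (A : 𝔊 →* Matrix κ κ F) (hA : IsOpen {g | A g = 1})
    (hD : (scal A).index ≠ 0) [Fintype (𝔊 ⧸ scal A)] (m : ℕ) (X : Rp F 𝔊) (hX : Cl A m X)
    (x : X.N) : Hom (CC A hA hD m) X where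
  f := ThetaF A m X (fun _ : Fin 1 => x) ∘ₗ LinearMap.pi (fun _ => LinearMap.id)
  eq := fun g φ => ThetaF_eq A m X hX (fun _ : Fin 1 => x) g (fun _ => φ)

theorem sec_apply (A : 𝔊 →* Matrix κ κ F) (hA : IsOpen {g | A g = 1})
    (hD : (scal A).index ≠ 0) [Fintype (𝔊 ⧸ scal A)] (m : ℕ) (X : Rp F 𝔊) (hX : Cl A m X)
    (x : X.N) (φ : hom A m) : (sec A hA hD m X hX x).f φ =
      ∑ q : 𝔊 ⧸ scal A, φ.1 (q.out)⁻¹ • X.ρ q.out x := by
  show ∑ b : Fin 1, ∑ q : 𝔊 ⧸ scal A, φ.1 (q.out)⁻¹ • X.ρ q.out x = _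
  rw [Finset.sum_const, Finset.card_univ, Fintype.card_fin, one_smul]

theorem sec_sec [Nonempty κ] (A : 𝔊 →* Matrix κ κ F) (hA : IsOpen {g | A g = 1})
    (hD : (scal A).index ≠ 0) [Fintype (𝔊 ⧸ scal A)] (m : ℕ) (X : Rp F 𝔊) (hX : Cl A m X)
    (x : X.N) (π : Hom X (CC A hA hD m)) (hx : π.f x = delta A m) (φ : hom A m) :
    π.f ((sec A hA hD m X hX x).f φ) = φ := by
  rw [sec_apply, map_sum]
  apply Subtype.ext
  funext g
  let ev' : (CC A hA hD m).N →ₗ[F] F :=
    { toFun := fun y => (show hom A m from y).1 g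
      map_add' := fun _ _ => rfl
      map_smul' := fun _ _ => rfl }
  show ev' (∑ q : 𝔊 ⧸ scal A, π.f (φ.1 (q.out)⁻¹ • X.ρ q.out x)) = φ.1 g
  rw [map_sum]
  have h1 : ∀ q : 𝔊 ⧸ scal A, ev' (π.f (φ.1 (q.out)⁻¹ • X.ρ q.out x)) =
      φ.1 (q.out)⁻¹ * (delta A m).1 (g * q.out) := by
    intro q
    rw [map_smul, π.eq, hx, map_smul]
    rfl
  simp only [h1]
  rw [Finset.sum_eq_single (QuotientGroup.mk g⁻¹ : 𝔊 ⧸ scal A)]
  · obtain ⟨c, hc⟩ := out_smul A g⁻¹
    set q : 𝔊 := (QuotientGroup.mk g⁻¹ : 𝔊 ⧸ scal A).out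
    have h2 : c • A (g * q) = (1 : Matrix κ κ F) := by
      rw [map_mul, ← mul_smul_comm, ← hc, ← map_mul, mul_inv_cancel, map_one]
    have hc0 : c ≠ 0 := by
      rintro rfl
      rw [zero_smul] at h2
      exact A_ne_zero A 1 (by rw [map_one, ← h2])
    have h3 : A (g * q) = c⁻¹ • (1 : Matrix κ κ F) := by
      rw [← h2, smul_smul, inv_mul_cancel₀ hc0, one_smul]
    have h4 : A g = c⁻¹ • A q⁻¹ := by
      have h5 : A g = A (g * q) * A q⁻¹ := by rw [← map_mul, mul_inv_cancel_right]
      rw [h5, h3, smul_mul_assoc, one_mul]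
    rw [delta_pos A m h3, φ.2 _ _ _ h4, mul_comm]
  · intro q _ hq
    rw [delta_neg A m, mul_zero]
    rintro ⟨c, hc⟩
    apply hq
    rw [← QuotientGroup.out_eq' q]
    have hc0 : c ≠ 0 := by
      rintro rfl
      rw [zero_smul] at hc
      exact A_ne_zero A _ hc
    refine (mk_eq_iff A _ _).2 ⟨c⁻¹, ?_⟩
    have h5 : A g⁻¹ * A (g * q.out) = A q.out := by
      rw [← map_mul, inv_mul_cancel_left]
    rw [← h5, hc, mul_smul_comm, mul_one, smul_smul, inv_mul_cancel₀ hc0, one_smul]
  · intro h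
    exact absurd (Finset.mem_univ _) h

/-- the homogeneous functions of degree `D` are a direct summand of the `D`-th tensor power -/
theorem exists_summand [Nonempty κ] (A : 𝔊 →* Matrix κ κ F) (hA : IsOpen {g | A g = 1})
    (hD : (scal A).index ≠ 0) :
    ∃ (π : Hom (It (std A hA) (scal A).index triv) (CC A hA hD (scal A).index))
      (σ : Hom (CC A hA hD (scal A).index) (It (std A hA) (scal A).index triv)),
      ∀ z, π.f (σ.f z) = z := by
  classical
  have := Subgroup.fintypeOfIndexNeZero hD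
  have hex : ∀ q : 𝔊 ⧸ scal A, ∃ p : ((κ → F) →ₗ[F] F) × (κ → F), p.1 p.2 = 1 ∧
      (q ≠ QuotientGroup.mk 1 → p.1 ((A q.out).mulVec p.2) = 0) := by
    intro q
    by_cases hq : q = QuotientGroup.mk 1
    · obtain ⟨k⟩ := ‹Nonempty κ›
      refine ⟨(LinearMap.proj k, Pi.single k 1), ?_, fun h => absurd hq h⟩
      show (Pi.single k (1 : F) : κ → F) k = 1
      exact Pi.single_eq_same k 1
    · have h1 : ¬ ∃ c : F, A q.out = c • (1 : Matrix κ κ F) := by
        rintro ⟨c, hc⟩
        apply hq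
        rw [← QuotientGroup.out_eq' q, eq_comm]
        exact (mk_eq_iff A _ _).2 ⟨c, by rw [map_one, hc]⟩
      obtain ⟨l, v, h2, h3⟩ := exists_pair _ h1
      exact ⟨(l, v), h2, fun _ => h3⟩
  choose p hp1 hp2 using hex
  let l := (Finset.univ : Finset (𝔊 ⧸ scal A)).toList.map p
  have hl : l.length = (scal A).index := by
    show ((Finset.univ : Finset (𝔊 ⧸ scal A)).toList.map p).length = _
    rw [List.length_map, Finset.length_toList, Finset.card_univ, Subgroup.index,
      Nat.card_eq_fintype_card]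
  have key : ∀ s, l.length = s → ∃ (π : Hom (It (std A hA) s triv) (CC A hA hD s))
      (σ : Hom (CC A hA hD s) (It (std A hA) s triv)), ∀ z, π.f (σ.f z) = z := by
    rintro s rfl
    obtain ⟨π, x, hx⟩ := exists_eval A hA hD l
    have hx' : π.f x = delta A l.length := by
      apply Subtype.ext
      funext g
      rw [hx]
      by_cases hg : ∃ c : F, A g = c • (1 : Matrix κ κ F)
      · obtain ⟨c, hc⟩ := hg
        rw [delta_pos A _ hc]
        have h1 : l.map (fun p => p.1 ((A g).mulVec p.2)) = List.replicate l.length c := by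
          rw [List.eq_replicate_iff]
          refine ⟨List.length_map _, fun b hb => ?_⟩
          obtain ⟨r, hr, rfl⟩ := List.mem_map.1 hb
          obtain ⟨q, _, rfl⟩ := List.mem_map.1 hr
          rw [hc, Matrix.smul_mulVec, Matrix.one_mulVec, map_smul, hp1, smul_eq_mul, mul_one]
        rw [h1, List.prod_replicate]
      · rw [delta_neg A _ hg]
        apply List.prod_eq_zero
        refine List.mem_map.2 ⟨p (QuotientGroup.mk g), List.mem_map.2
          ⟨QuotientGroup.mk g, Finset.mem_toList.2 (Finset.mem_univ _), rfl⟩, ?_⟩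
        obtain ⟨c, hc⟩ := out_smul A g
        rw [hc, Matrix.smul_mulVec, map_smul, hp2, smul_zero]
        intro h
        apply hg
        obtain ⟨d, hd⟩ := (mk_eq_iff A _ _).1 h.symm
        exact ⟨d, by rw [hd, map_one]⟩
    have hcl : Cl A l.length (It (std A hA) l.length triv) := by
      have h1 := Cl.It hA l.length (Cl.triv A)
      rwa [add_zero] at h1
    exact ⟨π, sec A hA hD l.length _ hcl x, fun z => sec_sec A hA hD l.length _ hcl x π hx' z⟩
  exact key _ hl

end Pool.Agent.K6.H45.MU
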