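import Pool.Agent.K6.H45.MU.AsyReg

/-!
The asymptotic behaviour of the tensor powers (MP_519cc8_nt): the permutation representation on the
image.
-/

set_option autoImplicit false
set_option linter.unusedSectionVars false

open Module

namespace Pool.Agent.K6.H45.MU

variable {F : Type} [Field F] {𝔊 : Type} [Group 𝔊] [TopologicalSpace 𝔊] [IsTopologicalGroup 𝔊]
variable {κ : Type} [Fintype κ] [DecidableEq κ]

theorem mk_ker (A : 𝔊 →* Matrix κ κ F) (a b : 𝔊) :
    (QuotientGroup.mk a : 𝔊 ⧸ MonoidHom.ker A) = QuotientGroup.mk b ↔ A b = A a := by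
  rw [QuotientGroup.eq]
  constructor
  · intro h
    have h1 : A (a⁻¹ * b) = 1 := h
    have h2 : A b = A a * A (a⁻¹ * b) := by rw [← map_mul, mul_inv_cancel_left]
    rw [h2, h1, mul_one]
  · intro h
    show A (a⁻¹ * b) = 1
    rw [map_mul, h, ← map_mul, inv_mul_cancel, map_one]

theorem A_inv (A : 𝔊 →* Matrix κ κ F) {a b : 𝔊} (h : A a = A b) : A a⁻¹ = A b⁻¹ := by
  have h1 : A a⁻¹ = A a⁻¹ * A b * A b⁻¹ := by
    rw [mul_assoc, ← map_mul A b, mul_inv_cancel, map_one, mul_one]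
  rw [h1, ← h, ← map_mul A a⁻¹, inv_mul_cancel, map_one, one_mul]

theorem regP_finite (A : 𝔊 →* Matrix κ κ F) (hK : (MonoidHom.ker A).index ≠ 0) :
    Module.Finite F (MonoidAlgebra F (𝔊 ⧸ MonoidHom.ker A)) := by
  have := Subgroup.fintypeOfIndexNeZero hK
  exact Module.Finite.equiv (MonoidAlgebra.coeffLinearEquiv (M := 𝔊 ⧸ MonoidHom.ker A)
    (S := F) F).symm

theorem regP_open (A : 𝔊 →* Matrix κ κ F) (hA : IsOpen {g | A g = 1}) :
    IsOpen {g | Representation.ofMulAction F 𝔊 (𝔊 ⧸ MonoidHom.ker A) g = 1} := by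
  refine open_of_ker hA _ fun g hg => ?_
  refine LinearMap.ext fun f => ?_
  apply (MonoidAlgebra.coeffLinearEquiv (M := 𝔊 ⧸ MonoidHom.ker A) (S := F) F).injective
  refine Finsupp.ext fun q => ?_
  show (Representation.ofMulAction F 𝔊 (𝔊 ⧸ MonoidHom.ker A) g f).coeff q = f.coeff q
  rw [Representation.coeff_ofMulAction]
  have h1 : g⁻¹ • q = q := by
    rw [← QuotientGroup.out_eq' q]
    refine (mk_ker A _ _).2 ?_
    show A q.out = A (g⁻¹ * q.out)
    rw [map_mul]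
    have h2 : A g⁻¹ = 1 := by
      have h3 := A_inv A (a := g) (b := 1) (by rw [hg, map_one])
      rw [h3, inv_one, map_one]
    rw [h2, one_mul]
  rw [h1]

/-- the regular representation of the image of `A`, as the permutation representation on
`𝔊 ⧸ ker A` -/
noncomputable def RegP (A : 𝔊 →* Matrix κ κ F) (hA : IsOpen {g | A g = 1})
    (hK : (MonoidHom.ker A).index ≠ 0) : Rp F 𝔊 where
  N := MonoidAlgebra F (𝔊 ⧸ MonoidHom.ker A)
  fin := regP_finite A hK
  ρ := Representation.ofMulAction F 𝔊 (𝔊 ⧸ MonoidHom.ker A)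
  cont := regP_open A hA

theorem rk_RegP {Ω : Type} [CommRing Ω] [IsDomain Ω] [Finite F] [Nonempty κ] (C : Coh F 𝔊 Ω)
    (A : 𝔊 →* Matrix κ κ F) (hA : IsOpen {g | A g = 1}) :
    C.rk (RegP A hA (ker_index A)) = C.rk (Reg A hA (ker_index A)) := by
  have := Subgroup.fintypeOfIndexNeZero (ker_index A)
  let T : MonoidAlgebra F (𝔊 ⧸ MonoidHom.ker A) →ₗ[F] reg A :=
    { toFun := fun f => ⟨fun g => f.coeff (QuotientGroup.mk g⁻¹), fun g g' h => by
        have h1 : (QuotientGroup.mk g'⁻¹ : 𝔊 ⧸ MonoidHom.ker A) = QuotientGroup.mk g⁻¹ :=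
          (mk_ker A _ _).2 (A_inv A h.symm)
        show f.coeff (QuotientGroup.mk g'⁻¹) = f.coeff (QuotientGroup.mk g⁻¹)
        rw [h1]⟩
      map_add' := fun _ _ => rfl
      map_smul' := fun _ _ => rfl }
  refine rk_eq_of_bij C (X := RegP A hA (ker_index A)) (Y := Reg A hA (ker_index A))
    ⟨T, fun h (f : MonoidAlgebra F (𝔊 ⧸ MonoidHom.ker A)) => ?_⟩ ⟨?_, ?_⟩
  · apply Subtype.ext
    funext g
    show (Representation.ofMulAction F 𝔊 (𝔊 ⧸ MonoidHom.ker A) h f).coeff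
      (QuotientGroup.mk g⁻¹) = f.coeff (QuotientGroup.mk (g * h)⁻¹)
    rw [Representation.coeff_ofMulAction, mul_inv_rev]
    rfl
  · intro (f : MonoidAlgebra F (𝔊 ⧸ MonoidHom.ker A)) (f' : MonoidAlgebra F _) h
    apply (MonoidAlgebra.coeffLinearEquiv (M := 𝔊 ⧸ MonoidHom.ker A) (S := F) F).injective
    refine Finsupp.ext fun q => ?_
    have h1 : f.coeff (QuotientGroup.mk ((q.out)⁻¹)⁻¹) =
        f'.coeff (QuotientGroup.mk ((q.out)⁻¹)⁻¹) :=
      congrFun (congrArg Subtype.val h) (q.out)⁻¹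
    rw [inv_inv, QuotientGroup.out_eq'] at h1
    exact h1
  · intro φ
    refine ⟨(MonoidAlgebra.coeffLinearEquiv (M := 𝔊 ⧸ MonoidHom.ker A) (S := F) F).symm
      (Finsupp.equivFunOnFinite.symm fun q : 𝔊 ⧸ MonoidHom.ker A => φ.1 (q.out)⁻¹), ?_⟩
    apply Subtype.ext
    funext g
    show φ.1 ((QuotientGroup.mk g⁻¹ : 𝔊 ⧸ MonoidHom.ker A).out)⁻¹ = φ.1 g
    apply φ.2
    have h1 : A g⁻¹ = A (QuotientGroup.mk g⁻¹ : 𝔊 ⧸ MonoidHom.ker A).out :=
      (mk_ker A _ _).1 (QuotientGroup.out_eq' _)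
    have h2 := A_inv A h1
    rw [inv_inv] at h2
    exact h2.symm

end Pool.Agent.K6.H45.MU
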