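import Pool.Agent.K6.H45.MU.AsyEnd

/-!
The asymptotic behaviour of the tensor powers (MP_519cc8_nt): the regular representation of the image.
-/

set_option autoImplicit false
set_option linter.unusedSectionVars false

open Module

namespace Pool.Agent.K6.H45.MU

variable {F : Type} [Field F] {𝔊 : Type} [Group 𝔊] [TopologicalSpace 𝔊] [IsTopologicalGroup 𝔊]
variable {κ : Type} [Fintype κ] [DecidableEq κ]

theorem rk_sm {Ω : Type} [CommRing Ω] [IsDomain Ω] (C : Coh F 𝔊 Ω) {a : ℕ}
    (Z : Fin a → Rp F 𝔊) : C.rk (sm Z) = ∑ i, C.rk (Z i) := by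
  induction a with
  | zero =>
    rw [Fin.sum_univ_zero]
    exact rk_zero C fun z => by
      funext k
      exact k.elim0
  | succ a ih =>
    let f : Hom (sm fun i => Z i.succ) (sm Z) :=
      { f :=
          { toFun := fun v => Fin.cons (α := fun i => (Z i).N) 0 v
            map_add' := by
              intro v w
              funext k
              refine Fin.cases ?_ (fun k => ?_) k
              · show (0 : (Z 0).N) = 0 + 0
                rw [add_zero]
              · rfl
            map_smul' := by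
              intro c v
              funext k
              refine Fin.cases ?_ (fun k => ?_) k
              · show (0 : (Z 0).N) = c • 0
                rw [smul_zero]
              · rfl }
        eq := by
          intro g v
          funext k
          refine Fin.cases ?_ (fun k => ?_) k
          · show (0 : (Z 0).N) = (Z 0).ρ g 0
            rw [map_zero]
          · rfl }
    let p : Hom (sm Z) (Z 0) :=
      { f := LinearMap.proj (R := F) (φ := fun i : Fin (a + 1) => (Z i).N) 0
        eq := fun g v => rfl }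
    let r : Hom (sm Z) (sm fun i => Z i.succ) :=
      { f := LinearMap.pi fun i => LinearMap.proj (R := F) (φ := fun i : Fin (a + 1) => (Z i).N)
          i.succ
        eq := fun g v => rfl }
    have hex : Exact f p := by
      refine ⟨?_, ?_, ?_⟩
      · intro v w h
        funext k
        exact congrFun h k.succ
      · intro x
        exact ⟨Fin.cons (α := fun i => (Z i).N) x 0, rfl⟩
      · intro y
        constructor
        · intro h
          refine ⟨fun k => y k.succ, ?_⟩
          funext k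
          refine Fin.cases ?_ (fun k => ?_) k
          · exact Eq.symm h
          · rfl
        · rintro ⟨x, rfl⟩
          rfl
    rw [rk_exact_eq C f p hex r (fun x => rfl), ih, Fin.sum_univ_succ]
    ring

/-- the functions on the image of `A`, as functions on `𝔊` -/
def reg (A : 𝔊 →* Matrix κ κ F) : Submodule F (𝔊 → F) where
  carrier := {φ | ∀ g g' : 𝔊, A g' = A g → φ g' = φ g}
  zero_mem' := fun _ _ _ => rfl
  add_mem' := by
    intro φ ψ hφ hψ g g' h
    show φ g' + ψ g' = φ g + ψ g
    rw [hφ g g' h, hψ g g' h]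
  smul_mem' := by
    intro d φ hφ g g' h
    show d * φ g' = d * φ g
    rw [hφ g g' h]

theorem reg_finite (A : 𝔊 →* Matrix κ κ F) (hK : (MonoidHom.ker A).index ≠ 0) :
    Module.Finite F (reg A) := by
  have := Subgroup.fintypeOfIndexNeZero hK
  let e : reg A →ₗ[F] (𝔊 ⧸ MonoidHom.ker A → F) :=
    { toFun := fun φ q => φ.1 q.out
      map_add' := fun _ _ => rfl
      map_smul' := fun _ _ => rfl }
  refine Module.Finite.of_injective e ?_
  intro φ ψ h
  apply Subtype.ext
  funext g
  have h1 : A g = A (QuotientGroup.mk g : 𝔊 ⧸ MonoidHom.ker A).out := by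
    have h3 : (QuotientGroup.mk (QuotientGroup.mk g : 𝔊 ⧸ MonoidHom.ker A).out :
        𝔊 ⧸ MonoidHom.ker A) = QuotientGroup.mk g := QuotientGroup.out_eq' _
    have h4 : A ((QuotientGroup.mk g : 𝔊 ⧸ MonoidHom.ker A).out⁻¹ * g) = 1 :=
      QuotientGroup.eq.1 h3
    have h5 : A g = A (QuotientGroup.mk g : 𝔊 ⧸ MonoidHom.ker A).out *
        A ((QuotientGroup.mk g : 𝔊 ⧸ MonoidHom.ker A).out⁻¹ * g) := by
      rw [← map_mul, mul_inv_cancel_left]
    rw [h5, h4, mul_one]
  rw [φ.2 _ _ h1, ψ.2 _ _ h1]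
  exact congrFun h (QuotientGroup.mk g)

/-- the regular representation of the image of `A`: the functions on the image of `A` with the
action by right translations -/
def Reg (A : 𝔊 →* Matrix κ κ F) (hA : IsOpen {g | A g = 1})
    (hK : (MonoidHom.ker A).index ≠ 0) : Rp F 𝔊 where
  N := reg A
  fin := reg_finite A hK
  ρ :=
    { toFun := fun h =>
        { toFun := fun φ => ⟨fun g => φ.1 (g * h), fun g g' hg => φ.2 _ _ (by
            rw [map_mul, hg, map_mul])⟩
          map_add' := fun _ _ => rfl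
          map_smul' := fun _ _ => rfl }
      map_one' := by
        ext φ g
        show φ.1 (g * 1) = φ.1 g
        rw [mul_one]
      map_mul' := fun h h' => by
        ext φ g
        show φ.1 (g * (h * h')) = φ.1 (g * h * h')
        rw [mul_assoc] }
  cont := by
    refine open_of_ker hA _ fun h hh => ?_
    refine LinearMap.ext fun φ => Subtype.ext ?_
    funext g
    show φ.1 (g * h) = φ.1 g
    exact φ.2 _ _ (by rw [map_mul, hh, mul_one])

/-- the sum of homogeneous functions -/
def SumR (A : 𝔊 →* Matrix κ κ F) (e : ℕ) : (∀ i : Fin e, hom A i) →ₗ[F] reg A where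
  toFun Φ := ⟨fun g => ∑ i, (Φ i).1 g, fun g g' h => Finset.sum_congr rfl fun i _ => by
    rw [(Φ i).2 g g' 1 (by rw [h, one_smul]), one_pow, one_mul]⟩
  map_add' Φ Ψ := by
    apply Subtype.ext
    funext g
    show ∑ i, ((Φ i).1 g + (Ψ i).1 g) = ∑ i, (Φ i).1 g + ∑ i, (Ψ i).1 g
    rw [Finset.sum_add_distrib]
  map_smul' c Φ := by
    apply Subtype.ext
    funext g
    show ∑ i, c * (Φ i).1 g = c * ∑ i, (Φ i).1 g
    rw [Finset.mul_sum]

theorem SumR_inj [Finite F] (A : 𝔊 →* Matrix κ κ F) :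
    Function.Injective (SumR A (Nat.card (sc A))) := by
  classical
  have := Fintype.ofFinite (sc A)
  rw [← LinearMap.ker_eq_bot, LinearMap.ker_eq_bot']
  intro Φ hΦ
  funext i
  apply Subtype.ext
  funext g
  show (Φ i).1 g = 0
  let f : Fin (Nat.card (sc A)) → F := fun i => (Φ i).1 g
  let P : Polynomial F := ∑ i : Fin (Nat.card (sc A)), Polynomial.C (f i) * Polynomial.X ^ (i : ℕ)
  have hP : P = 0 := by
    refine Polynomial.eq_zero_of_degree_lt_of_eval_index_eq_zero
      (s := (Finset.univ : Finset (sc A))) (v := fun c : sc A => ((c : Fˣ) : F)) ?_ ?_ ?_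
    · intro a _ b _ h
      exact Subtype.ext (Units.ext h)
    · rw [Finset.card_univ, ← Nat.card_eq_fintype_card]
      exact Polynomial.degree_sum_fin_lt f
    · intro c _
      obtain ⟨z, hz⟩ := c.2
      have h1 : ∑ i, (Φ i).1 (z * g) = 0 := congrFun (congrArg Subtype.val hΦ) (z * g)
      have h2 : ∀ i : Fin (Nat.card (sc A)), (Φ i).1 (z * g) =
          ((c : Fˣ) : F) ^ (i : ℕ) * (Φ i).1 g := fun i =>
        (Φ i).2 _ _ _ (by rw [map_mul, hz, smul_mul_assoc, one_mul])
      simp only [h2] at h1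
      show Polynomial.eval ((c : Fˣ) : F) P = 0
      rw [Polynomial.eval_finsetSum]
      rw [← h1]
      refine Finset.sum_congr rfl fun i _ => ?_
      rw [Polynomial.eval_mul, Polynomial.eval_C, Polynomial.eval_pow, Polynomial.eval_X]
      exact mul_comm _ _
  have h3 : P.coeff (i : ℕ) = f i := by
    show (∑ i : Fin (Nat.card (sc A)), Polynomial.C (f i) * Polynomial.X ^ (i : ℕ)).coeff _ = _
    rw [Polynomial.finsetSum_coeff, Finset.sum_eq_single i]
    · rw [Polynomial.coeff_C_mul, Polynomial.coeff_X_pow, if_pos rfl, mul_one]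
    · intro j _ hj
      rw [Polynomial.coeff_C_mul, Polynomial.coeff_X_pow, if_neg, mul_zero]
      intro h
      exact hj (Fin.ext h.symm)
    · intro h
      exact absurd (Finset.mem_univ _) h
  have h4 : f i = 0 := by rw [← h3, hP, Polynomial.coeff_zero]
  exact h4

theorem SumR_surj [Finite F] [Nonempty κ] (A : 𝔊 →* Matrix κ κ F) :
    Function.Surjective (SumR A (Nat.card (sc A))) := by
  classical
  have := Fintype.ofFinite (sc A)
  intro φ
  choose z hz using fun c : sc A => c.2
  have he0 := sc_card A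
  let t : ℕ → 𝔊 → F := fun i g =>
    ((Nat.card (sc A) : ℕ) : F)⁻¹ * ∑ c : sc A, ((((c : Fˣ) : F))⁻¹) ^ i * φ.1 (z c * g)
  have ht : ∀ i, t i ∈ hom A i := by
    intro i g g' d hd
    have hd0 : d ≠ 0 := by
      rintro rfl
      rw [zero_smul] at hd
      exact A_ne_zero A g' hd
    let u : sc A := ⟨Units.mk0 d hd0, g' * g⁻¹, scal_mem hd⟩
    show ((Nat.card (sc A) : ℕ) : F)⁻¹ *
      ∑ c : sc A, ((((c : Fˣ) : F))⁻¹) ^ i * φ.1 (z c * g') = d ^ i *
      (((Nat.card (sc A) : ℕ) : F)⁻¹ * ∑ c : sc A, ((((c : Fˣ) : F))⁻¹) ^ i * φ.1 (z c * g))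
    rw [← mul_assoc, mul_comm (d ^ i), mul_assoc, Finset.mul_sum Finset.univ _ (d ^ i)]
    congr 1
    refine Fintype.sum_equiv (Equiv.mulRight u) _ _ fun c => ?_
    show ((((c : Fˣ) : F))⁻¹) ^ i * φ.1 (z c * g') =
      d ^ i * ((((((c * u : sc A) : Fˣ)) : F)⁻¹) ^ i * φ.1 (z (c * u) * g))
    have h1 : φ.1 (z c * g') = φ.1 (z (c * u) * g) := by
      apply φ.2
      rw [map_mul, map_mul, hz, hz, hd, smul_mul_assoc, one_mul, smul_mul_assoc, one_mul,
        smul_smul]
      rfl
    have h2 : ((((c * u : sc A) : Fˣ)) : F) = ((c : Fˣ) : F) * d := rfl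
    rw [h1, h2, mul_inv, mul_pow, ← mul_assoc]
    congr 1
    rw [mul_comm (d ^ i), mul_assoc, ← mul_pow, inv_mul_cancel₀ hd0, one_pow, mul_one]
  refine ⟨fun i => ⟨t i, ht i⟩, ?_⟩
  apply Subtype.ext
  funext g
  show ∑ i : Fin (Nat.card (sc A)), ((Nat.card (sc A) : ℕ) : F)⁻¹ *
    ∑ c : sc A, ((((c : Fˣ) : F))⁻¹) ^ (i : ℕ) * φ.1 (z c * g) = φ.1 g
  rw [← Finset.mul_sum, Finset.sum_comm]
  have h1 : ∀ c : sc A, ∑ i : Fin (Nat.card (sc A)),
      ((((c : Fˣ) : F))⁻¹) ^ (i : ℕ) * φ.1 (z c * g) =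
      if c = 1 then ((Nat.card (sc A) : ℕ) : F) * φ.1 g else 0 := by
    intro c
    rw [← Finset.sum_mul, Fin.sum_univ_eq_sum_range (fun i => ((((c : Fˣ) : F))⁻¹) ^ i)]
    split_ifs with hc
    · have h2 : φ.1 (z c * g) = φ.1 g := by
        apply φ.2
        rw [map_mul, hz, hc]
        show ((1 : F) • (1 : Matrix κ κ F)) * A g = A g
        rw [one_smul, one_mul]
      rw [h2]
      congr 1
      have h3 : (((c : Fˣ) : F))⁻¹ = 1 := by
        rw [hc]
        show ((1 : F))⁻¹ = 1
        exact inv_one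
      rw [h3]
      simp
    · have h4 : ((((c : Fˣ) : F))⁻¹ - 1) *
          ∑ i ∈ Finset.range (Nat.card (sc A)), ((((c : Fˣ) : F))⁻¹) ^ i = 0 := by
        rw [mul_geom_sum, inv_pow, sc_pow A (z c) _ (hz c), inv_one, sub_self]
      rcases mul_eq_zero.1 h4 with h5 | h5
      · exfalso
        apply hc
        have h6 : (((c : Fˣ) : F)) = 1 := by
          rw [← inv_inv (((c : Fˣ) : F)), sub_eq_zero.1 h5, inv_one]
        exact Subtype.ext (Units.ext h6)
      · rw [h5, zero_mul]
  simp only [h1]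
  rw [Finset.sum_ite_eq' Finset.univ (1 : sc A), if_pos (Finset.mem_univ _), ← mul_assoc,
    inv_mul_cancel₀ he0, one_mul]

theorem rk_Reg {Ω : Type} [CommRing Ω] [IsDomain Ω] [Finite F] [Nonempty κ] (C : Coh F 𝔊 Ω)
    (A : 𝔊 →* Matrix κ κ F) (hA : IsOpen {g | A g = 1}) :
    C.rk (Reg A hA (ker_index A)) =
      ∑ i : Fin (Nat.card (sc A)), C.rk (CC A hA (scal_index A) (i : ℕ)) := by
  rw [← rk_sm C fun i : Fin (Nat.card (sc A)) => CC A hA (scal_index A) (i : ℕ)]
  refine (rk_eq_of_bij C (X := sm fun i : Fin (Nat.card (sc A)) =>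
    CC A hA (scal_index A) (i : ℕ)) ⟨SumR A (Nat.card (sc A)), fun g Φ => rfl⟩
    ⟨SumR_inj A, SumR_surj A⟩).symm

theorem rk_CC_mod {Ω : Type} [CommRing Ω] [IsDomain Ω] [Finite F] [Nonempty κ] (C : Coh F 𝔊 Ω)
    (A : 𝔊 →* Matrix κ κ F) (hA : IsOpen {g | A g = 1}) (i j : ℕ)
    (h : i % Nat.card (sc A) = j % Nat.card (sc A)) :
    C.rk (CC A hA (scal_index A) i) = C.rk (CC A hA (scal_index A) j) := by
  have h1 : hom A i = hom A j := by
    have hp : ∀ (g g' : 𝔊) (c : F), A g' = c • A g → c ^ i = c ^ j := by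
      intro g g' c hc
      have h2 := sc_pow A _ c (scal_mem hc)
      rw [← Nat.div_add_mod i (Nat.card (sc A)), ← Nat.div_add_mod j (Nat.card (sc A)), h,
        pow_add, pow_add, pow_mul, pow_mul, h2, one_pow, one_pow]
    ext φ
    constructor
    · intro hφ g g' c hc
      rw [← hp g g' c hc]
      exact hφ g g' c hc
    · intro hφ g g' c hc
      rw [hp g g' c hc]
      exact hφ g g' c hc
  let f : hom A i →ₗ[F] hom A j :=
    { toFun := fun φ => ⟨φ.1, h1 ▸ φ.2⟩
      map_add' := fun _ _ => rfl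
      map_smul' := fun _ _ => rfl }
  refine rk_eq_of_bij C (X := CC A hA (scal_index A) i) (Y := CC A hA (scal_index A) j)
    ⟨f, fun g φ => rfl⟩ ⟨fun φ ψ h2 => ?_, fun φ =>
      ⟨⟨φ.1, by rw [h1]; exact φ.2⟩, rfl⟩⟩
  exact Subtype.ext (congrArg (fun x : hom A j => x.1) h2)

end Pool.Agent.K6.H45.MU
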