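import Pool.Agent.K6.H45.MU.Defs

/-!
Tensor powers and the `μ`-invariant (MP_519cc8_nt): Nakayama.
-/

set_option autoImplicit false

open Module

namespace Pool.Agent.K6.H45.MU

theorem tmz_iff {Λ : Type} [CommRing Λ] (P : Ideal Λ) [P.IsPrime] {M : Type} [AddCommGroup M]
    [Module Λ M] [Module.Finite Λ M] {H : Type} [AddCommGroup H] [Module (Λ ⧸ P) H]
    (e : (M ⧸ (P • ⊤ : Submodule Λ M)) ≃ₗ[Λ ⧸ P] H) :
    TorsionMuZero P M ↔ finrank (Λ ⧸ P) H = 0 := by
  classical
  have : IsScalarTower Λ (Λ ⧸ P) (M ⧸ (P • ⊤ : Submodule Λ M)) := by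
    refine ⟨fun a b x => ?_⟩
    obtain ⟨b, rfl⟩ := Ideal.Quotient.mk_surjective b
    obtain ⟨y, rfl⟩ := Submodule.Quotient.mk_surjective _ x
    show (Ideal.Quotient.mk P (a • b)) • Submodule.Quotient.mk (p := (P • ⊤ : Submodule Λ M)) y = _
    rw [Module.Quotient.mk_smul_mk, Module.Quotient.mk_smul_mk, smul_eq_mul, mul_smul]
    rfl
  have hfin : Module.Finite (Λ ⧸ P) (M ⧸ (P • ⊤ : Submodule Λ M)) :=
    Module.Finite.of_restrictScalars_finite Λ _ _
  rw [← e.finrank_eq, Module.finrank_eq_zero_iff]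
  constructor
  · rintro ⟨a, ha, h⟩ x
    obtain ⟨y, rfl⟩ := Submodule.Quotient.mk_surjective _ x
    refine ⟨Ideal.Quotient.mk P a, fun h0 => ha (Ideal.Quotient.eq_zero_iff_mem.1 h0), ?_⟩
    rw [Module.Quotient.mk_smul_mk, h, Submodule.Quotient.mk_zero]
  · intro h0
    have h1 : ∀ y : M, ∃ a : Λ, a ∉ P ∧ a • y ∈ (P • ⊤ : Submodule Λ M) := by
      intro y
      obtain ⟨a, ha, hy⟩ := h0 (Submodule.Quotient.mk y)
      obtain ⟨a, rfl⟩ := Ideal.Quotient.mk_surjective a
      refine ⟨a, fun h => ha (Ideal.Quotient.eq_zero_iff_mem.2 h), ?_⟩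
      rw [Module.Quotient.mk_smul_mk] at hy
      exact (Submodule.Quotient.mk_eq_zero _).1 hy
    choose a ha1 ha2 using h1
    obtain ⟨s, hs⟩ := (Module.Finite.fg_top : (⊤ : Submodule Λ M).FG)
    have h2 : ∏ y ∈ s, a y ∉ P := by
      intro h
      obtain ⟨y, -, hy⟩ := (Ideal.IsPrime.prod_mem_iff (p := P)).1 h
      exact ha1 y hy
    have h3 : ∀ x : M, (∏ y ∈ s, a y) • x ∈ (P • ⊤ : Submodule Λ M) := by
      intro x
      have hx : x ∈ Submodule.span Λ (s : Set M) := by rw [hs]; trivial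
      induction hx using Submodule.span_induction with
      | mem x h =>
        rw [← Finset.prod_erase_mul s _ (Finset.mem_coe.1 h), mul_smul]
        exact Submodule.smul_mem _ _ (ha2 x)
      | zero => rw [smul_zero]; exact Submodule.zero_mem _
      | add x y _ _ hx hy => rw [smul_add]; exact Submodule.add_mem _ hx hy
      | smul c x _ hx => rw [smul_comm]; exact Submodule.smul_mem _ _ hx
    obtain ⟨p, hp1, -, hp2, hp3⟩ :=
      LinearMap.exists_monic_and_natDegree_eq_and_coeff_mem_pow_and_aeval_eq_zero Λ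
        (algebraMap Λ (Module.End Λ M) (∏ y ∈ s, a y)) P (by
          rintro _ ⟨x, rfl⟩
          exact h3 x)
    rw [Polynomial.aeval_algebraMap_apply] at hp3
    refine ⟨Polynomial.aeval (∏ y ∈ s, a y) p, ?_, fun x => ?_⟩
    · intro h
      rw [Polynomial.coe_aeval_eq_eval, Polynomial.eval_eq_sum_range, Finset.sum_range_succ,
        Polynomial.coeff_natDegree, hp1.leadingCoeff, one_mul] at h
      have h4 : ∑ k ∈ Finset.range p.natDegree, p.coeff k * (∏ y ∈ s, a y) ^ k ∈ P := by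
        refine Ideal.sum_mem _ fun k hk => Ideal.mul_mem_right _ _ ?_
        refine Ideal.pow_le_self ?_ (hp2 k)
        have := Finset.mem_range.1 hk
        omega
      have h5 : (∏ y ∈ s, a y) ^ p.natDegree ∈ P := (Ideal.add_mem_iff_right P h4).1 h
      exact h2 (Ideal.IsPrime.mem_of_pow_mem inferInstance _ h5)
    · exact LinearMap.congr_fun hp3 x

end Pool.Agent.K6.H45.MU
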