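import Pool.Agent.K6.H45.MU.AsyPerm
import Pool.Agent.K6.H45.MU.Tors

/-!
# The `μ`-invariants of tensor powers: an asymptotic formula

`F` is the residue field of `R`, `Λ = R[[Γ]]`, `P = πΛ`, `Λ ⧸ P = F[[Γ]]`, and
`C : N ↦ H²_{Σ,Iw}(O_{L,S}, N)` is a right exact functor from the finite dimensional representations
of `𝔊 = G_{L,S}` over `F` to the finitely generated `Λ ⧸ P`-modules. `A : 𝔊 → GL_n(F)` is the
representation `T/π` of a lattice `T`, `D` the index of the elements acting as scalars and `e` the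
number of the scalars in the image of `A`. `X` is a representation on which the elements acting as
the scalar `c` on `T/π` act as `c^j` (for instance the trivial representation, `j = 0`).

There are numbers `ρ_i`, `i` modulo `e`, such that the rank of `C(X ⊗ T^{⊗m})` is
`(dim X / D) ρ_(m+j) n^m` up to the exponentially smaller error `dim X ρ_(m+j) n^m θ^⌊m/D⌋`,
`θ = 1 - D/n^D`. The number `ρ_i` is zero if and only if the conjecture is true for all lattices whose
reduction is a successive extension of representations of central degree `i`. The sum of the `ρ_i`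
over all classes is the rank of `C` at the regular representation `Reg` of the image of `A`; so

`rk C(Reg) = D / dim X * lim_m ∑_{m ≤ t < m + e} rk C(X ⊗ T^{⊗t}) / n^t`.

By Shapiro's lemma `C(Reg)` is `H²_{Σ,Iw}` of the field `L(T/π)` with coefficients in `F`: the (higher)
`μ`-invariant of this field is determined by the growth of the `μ`-invariants of the tensor powers of
`T`, also after tensoring with any fixed representation `X` of the image, and Q1 holds for all
lattices over the image if the rank of `C(X ⊗ T^{⊗m})` is `o(n^m)` for one `X ≠ 0`.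
-/

set_option autoImplicit false

namespace Pool.Agent.K6.H45.MU.AsyResult

open Module Filter Topology Pool.Agent.K6.H45.MU

/-- The conjecture holds for the reduction `X`: the value at `X` has rank zero, and every finitely
generated `Λ`-module with the reduction `C.H X` is torsion with `μ = 0`. -/
def Holds {F : Type} [Field F] {𝔊 : Type} [Group 𝔊] [TopologicalSpace 𝔊] {Λ : Type} [CommRing Λ]
    (P : Ideal Λ) (C : Coh F 𝔊 (Λ ⧸ P)) (X : Rp F 𝔊) : Prop :=
  C.rk X = 0 ∧ ∀ (M : Type) [AddCommGroup M] [Module Λ M] [Module.Finite Λ M],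
    ((M ⧸ (P • ⊤ : Submodule Λ M)) ≃ₗ[Λ ⧸ P] C.H X) → TorsionMuZero P M

lemma sum_per (e : ℕ) (ρ : ℕ → ℕ) (h : ∀ i, ρ (i + e) = ρ i) (m : ℕ) :
    ∑ t ∈ Finset.range e, ρ (m + t) = ∑ t ∈ Finset.range e, ρ t := by
  induction m with
  | zero => exact Finset.sum_congr rfl fun t _ => by rw [Nat.zero_add]
  | succ m ih =>
    rw [← ih]
    have h1 := Finset.sum_range_succ (fun t => ρ (m + t)) e
    have h2 := Finset.sum_range_succ' (fun t => ρ (m + t)) e
    have h3 : ∑ t ∈ Finset.range e, ρ (m + 1 + t) = ∑ t ∈ Finset.range e, ρ (m + (t + 1)) :=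
      Finset.sum_congr rfl fun t _ => by congr 1; ring
    rw [h3]
    have h4 := h m
    simp only [Nat.add_zero] at h2
    omega

/-- `|D x - d n ^ m r| ≤ D d n ^ m r (1 - D / n ^ D) ^ ⌊m / D⌋` -/
def Near (D n m d r x : ℕ) : Prop :=
  |(D : ℝ) * x - d * (n : ℝ) ^ m * r| ≤ D * (d * (n : ℝ) ^ m * r) * (1 - D / (n : ℝ) ^ D) ^ (m / D)

/-- `∑_{m ≤ u < m + e} x_u / n ^ u` tends to `l` for `m → ∞`. -/
def SumTends (e n : ℕ) (x : ℕ → ℕ) (l : ℝ) : Prop :=
  Tendsto (fun m : ℕ => ∑ t ∈ Finset.range e, (x (m + t) : ℝ) / (n : ℝ) ^ (m + t)) atTop (𝓝 l)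

theorem result {F : Type} [Field F] [Finite F] {𝔊 : Type} [Group 𝔊] [TopologicalSpace 𝔊]
    [IsTopologicalGroup 𝔊] {Λ : Type} [CommRing Λ] (P : Ideal Λ) [P.IsPrime]
    (C : Coh F 𝔊 (Λ ⧸ P)) {κ : Type} [Fintype κ] [DecidableEq κ] [Nonempty κ]
    (A : 𝔊 →* Matrix κ κ F) (hA : IsOpen {g | A g = 1}) :
    ∃ ρ : ℕ → ℕ, (∀ i, ρ (i + Nat.card (sc A)) = ρ i) ∧
      ∑ i ∈ Finset.range (Nat.card (sc A)), ρ i = C.rk (RegP A hA (ker_index A)) ∧
      (∀ i, ρ i = 0 ↔ ∀ Y : Rp F 𝔊, Built A i Y → Holds P C Y) ∧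
      ∀ (j : ℕ) (X : Rp F 𝔊), Cl A j X →
        (∀ m : ℕ, Near (scal A).index (Fintype.card κ) m (finrank F X.N) (ρ (m + j))
          (C.rk (It (std A hA) m X))) ∧
        SumTends (Nat.card (sc A)) (Fintype.card κ) (fun m => C.rk (It (std A hA) m X))
          (finrank F X.N * C.rk (RegP A hA (ker_index A)) / (scal A).index) := by
  classical
  have hD := scal_index A
  rw [rk_RegP C A hA]
  have hz : ∀ X : Rp F 𝔊, C.rk X = 0 → Holds P C X := fun X h =>
    ⟨h, fun M _ _ _ f => (tmz_iff P f).2 h⟩
  have hn1 : 1 ≤ Fintype.card κ := Fintype.card_pos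
  have hper : ∀ i, C.rk (CC A hA hD (i + Nat.card (sc A))) = C.rk (CC A hA hD i) := fun i =>
    rk_CC_mod C A hA _ _ (Nat.add_mod_right _ _)
  have hsum : ∑ i ∈ Finset.range (Nat.card (sc A)), C.rk (CC A hA hD i) =
      C.rk (Reg A hA (ker_index A)) := by
    rw [rk_Reg C A hA, Fin.sum_univ_eq_sum_range (fun i => C.rk (CC A hA hD i))]
  -- the number θ
  obtain ⟨π, σ, hπ⟩ := exists_summand A hA hD
  have hw := kerR_dim A hA hD π σ hπ
  have hDle : (scal A).index ≤ Fintype.card κ ^ (scal A).index := by omega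
  have hnR : (1 : ℝ) ≤ (Fintype.card κ : ℝ) := by exact_mod_cast hn1
  have hnD : (0 : ℝ) < (Fintype.card κ : ℝ) ^ (scal A).index := by positivity
  have hD1 : (1 : ℝ) ≤ ((scal A).index : ℝ) := by
    exact_mod_cast Nat.one_le_iff_ne_zero.2 hD
  obtain ⟨θ, hθ⟩ : ∃ θ : ℝ, θ = 1 - (scal A).index / (Fintype.card κ : ℝ) ^ (scal A).index :=
    ⟨_, rfl⟩
  have hθ0 : 0 ≤ θ := by
    rw [hθ, sub_nonneg, div_le_one hnD]
    exact_mod_cast hDle
  have hθ1 : θ < 1 := by
    rw [hθ]
    have : 0 < ((scal A).index : ℝ) / (Fintype.card κ : ℝ) ^ (scal A).index := by positivity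
    linarith
  have hbd : ∀ (j : ℕ) (X : Rp F 𝔊), Cl A j X → ∀ m : ℕ,
      |((scal A).index : ℝ) * C.rk (It (std A hA) m X) -
            finrank F X.N * (Fintype.card κ : ℝ) ^ m * C.rk (CC A hA hD (m + j))| ≤
          (scal A).index * (finrank F X.N * (Fintype.card κ : ℝ) ^ m *
            C.rk (CC A hA hD (m + j))) * θ ^ (m / (scal A).index) := by
    intro j X hX m
    obtain ⟨h1, h2⟩ := bounds_all C A hA hD j X hX m
    have h3 : ((Fintype.card κ ^ (m % (scal A).index) *
        (Fintype.card κ ^ (scal A).index - (scal A).index) ^ (m / (scal A).index) : ℕ) : ℝ) =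
        (Fintype.card κ : ℝ) ^ m * θ ^ (m / (scal A).index) := by
      have h4 : θ = ((Fintype.card κ : ℝ) ^ (scal A).index - (scal A).index) /
          (Fintype.card κ : ℝ) ^ (scal A).index := by
        rw [hθ, sub_div, div_self hnD.ne']
      have h5 : (Fintype.card κ : ℝ) ^ m = (Fintype.card κ : ℝ) ^ (m % (scal A).index) *
          ((Fintype.card κ : ℝ) ^ (scal A).index) ^ (m / (scal A).index) := by
        rw [← pow_mul, ← pow_add]
        congr 1
        rw [add_comm]
        exact (Nat.div_add_mod m (scal A).index).symm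
      rw [Nat.cast_mul, Nat.cast_pow, Nat.cast_pow, Nat.cast_sub hDle, Nat.cast_pow, h4, h5,
        div_pow, mul_assoc, mul_div_cancel₀]
      exact (pow_pos hnD _).ne'
    have h1' : ((finrank F X.N * Fintype.card κ ^ m * C.rk (CC A hA hD (m + j)) : ℕ) : ℝ) ≤
        (((scal A).index * C.rk (It (std A hA) m X) +
        (scal A).index * (finrank F X.N * (Fintype.card κ ^ (m % (scal A).index) *
          (Fintype.card κ ^ (scal A).index - (scal A).index) ^ (m / (scal A).index)) *
            C.rk (CC A hA hD (m + j))) : ℕ) : ℝ) := Nat.cast_le.2 h1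
    have h2' : (((scal A).index * C.rk (It (std A hA) m X) : ℕ) : ℝ) ≤
        ((finrank F X.N * Fintype.card κ ^ m * C.rk (CC A hA hD (m + j)) +
        (scal A).index * (finrank F X.N * (Fintype.card κ ^ (m % (scal A).index) *
          (Fintype.card κ ^ (scal A).index - (scal A).index) ^ (m / (scal A).index)) *
            C.rk (CC A hA hD (m + j))) : ℕ) : ℝ) := Nat.cast_le.2 h2
    generalize hG : (Fintype.card κ ^ (m % (scal A).index) *
          (Fintype.card κ ^ (scal A).index - (scal A).index) ^ (m / (scal A).index) : ℕ) = G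
        at h1' h2' h3
    push_cast at h1' h2'
    rw [h3] at h1' h2'
    rw [abs_le]
    constructor
    · nlinarith [h1']
    · nlinarith [h2']
  refine ⟨fun i => C.rk (CC A hA hD i), hper, hsum, fun i => ⟨fun h Y hY => hz Y ?_, fun h => ?_⟩,
    fun j X hX => ⟨fun m => ?_, ?_⟩⟩
  · exact built_zero C A hA hD i h Y hY
  · exact (h _ (CC_built A hA hD (ker_index A) i)).1
  · have h0 := hbd j X hX m
    rw [hθ] at h0
    exact h0
  · unfold SumTends
    have hle : ∀ i, (C.rk (CC A hA hD i) : ℝ) ≤ C.rk (Reg A hA (ker_index A)) := by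
      intro i
      have h1 := sum_per (Nat.card (sc A)) (fun i => C.rk (CC A hA hD i)) hper i
      have h2 : 0 < Nat.card (sc A) := by
        have := Finite.of_injective (fun x : sc A => (x : Fˣ)) Subtype.val_injective
        exact Nat.card_pos
      have h3 : C.rk (CC A hA hD (i + 0)) ≤
          ∑ t ∈ Finset.range (Nat.card (sc A)), C.rk (CC A hA hD (i + t)) :=
        Finset.single_le_sum (f := fun t => C.rk (CC A hA hD (i + t))) (fun _ _ => Nat.zero_le _)
          (Finset.mem_range.2 h2)
      rw [h1, hsum] at h3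
      exact_mod_cast h3
    have hlim : Tendsto (fun m : ℕ => (Nat.card (sc A) : ℝ) *
        (finrank F X.N * C.rk (Reg A hA (ker_index A)) * θ ^ (m / (scal A).index))) atTop
        (𝓝 0) := by
      have h1 : Tendsto (fun m : ℕ => θ ^ (m / (scal A).index)) atTop (𝓝 0) :=
        (tendsto_pow_atTop_nhds_zero_of_lt_one hθ0 hθ1).comp
          (Nat.tendsto_div_const_atTop hD)
      have h2 := (h1.const_mul
        ((finrank F X.N : ℝ) * C.rk (Reg A hA (ker_index A)))).const_mul (Nat.card (sc A) : ℝ)
      rw [mul_zero, mul_zero] at h2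
      exact h2
    rw [tendsto_iff_dist_tendsto_zero]
    refine squeeze_zero (fun _ => dist_nonneg) (fun m => ?_) hlim
    rw [Real.dist_eq]
    have h1 : (finrank F X.N * C.rk (Reg A hA (ker_index A)) / (scal A).index : ℝ) =
        ∑ t ∈ Finset.range (Nat.card (sc A)),
          (finrank F X.N : ℝ) * C.rk (CC A hA hD (m + t + j)) / (scal A).index := by
      have h2 := sum_per (Nat.card (sc A)) (fun i => C.rk (CC A hA hD i)) hper (m + j)
      have h3 : ∑ t ∈ Finset.range (Nat.card (sc A)), C.rk (CC A hA hD (m + t + j)) =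
          C.rk (Reg A hA (ker_index A)) := by
        rw [← hsum, ← h2]
        exact Finset.sum_congr rfl fun t _ => by
          have : m + t + j = m + j + t := by ring
          rw [this]
      rw [← Finset.sum_div, ← Finset.mul_sum, ← h3, Nat.cast_sum]
    rw [h1, ← Finset.sum_sub_distrib]
    refine (Finset.abs_sum_le_sum_abs _ _).trans ?_
    have h4 : ∀ t ∈ Finset.range (Nat.card (sc A)),
        |(C.rk (It (std A hA) (m + t) X) : ℝ) / (Fintype.card κ : ℝ) ^ (m + t) -
          (finrank F X.N : ℝ) * C.rk (CC A hA hD (m + t + j)) / (scal A).index| ≤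
        finrank F X.N * C.rk (Reg A hA (ker_index A)) * θ ^ (m / (scal A).index) := by
      intro t _
      have h5 := hbd j X hX (m + t)
      have hp : (0 : ℝ) < (Fintype.card κ : ℝ) ^ (m + t) := by positivity
      have hD0 : (0 : ℝ) < (scal A).index := by linarith
      have h6 : (C.rk (It (std A hA) (m + t) X) : ℝ) / (Fintype.card κ : ℝ) ^ (m + t) -
          (finrank F X.N : ℝ) * C.rk (CC A hA hD (m + t + j)) / (scal A).index =
          (((scal A).index : ℝ) * C.rk (It (std A hA) (m + t) X) -
            finrank F X.N * (Fintype.card κ : ℝ) ^ (m + t) * C.rk (CC A hA hD (m + t + j))) /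
            ((scal A).index * (Fintype.card κ : ℝ) ^ (m + t)) := by
        field_simp
      rw [h6, abs_div, abs_of_pos (mul_pos hD0 hp), div_le_iff₀ (mul_pos hD0 hp)]
      refine h5.trans ?_
      have h7 : θ ^ ((m + t) / (scal A).index) ≤ θ ^ (m / (scal A).index) :=
        pow_le_pow_of_le_one hθ0 hθ1.le (Nat.div_le_div_right (Nat.le_add_right m t))
      have h8 := hle (m + t + j)
      have h9 : (C.rk (CC A hA hD (m + t + j)) : ℝ) * θ ^ ((m + t) / (scal A).index) ≤
          C.rk (Reg A hA (ker_index A)) * θ ^ (m / (scal A).index) :=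
        mul_le_mul h8 h7 (pow_nonneg hθ0 _) (Nat.cast_nonneg _)
      have h10 : (0 : ℝ) ≤ (scal A).index * (finrank F X.N * (Fintype.card κ : ℝ) ^ (m + t)) := by
        positivity
      calc ((scal A).index : ℝ) * (finrank F X.N * (Fintype.card κ : ℝ) ^ (m + t) *
            C.rk (CC A hA hD (m + t + j))) * θ ^ ((m + t) / (scal A).index)
          = (scal A).index * (finrank F X.N * (Fintype.card κ : ℝ) ^ (m + t)) *
            (C.rk (CC A hA hD (m + t + j)) * θ ^ ((m + t) / (scal A).index)) := by ring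
        _ ≤ (scal A).index * (finrank F X.N * (Fintype.card κ : ℝ) ^ (m + t)) *
            (C.rk (Reg A hA (ker_index A)) * θ ^ (m / (scal A).index)) :=
          mul_le_mul_of_nonneg_left h9 h10
        _ = _ := by ring
    refine (Finset.sum_le_sum h4).trans (le_of_eq ?_)
    rw [Finset.sum_const, Finset.card_range, nsmul_eq_mul]

end Pool.Agent.K6.H45.MU.AsyResult
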