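import Pool.Agent.K6.H45.MU.Size

/-!
Tensor powers and the `μ`-invariant (MP_519cc8_nt): homogeneous functions.
-/

set_option autoImplicit false

open Module

namespace Pool.Agent.K6.H45.MU

variable {F : Type} [Field F] {𝔊 : Type} [Group 𝔊] [TopologicalSpace 𝔊] [IsTopologicalGroup 𝔊]
variable {κ : Type} [Fintype κ] [DecidableEq κ]

theorem mk_eq_iff (A : 𝔊 →* Matrix κ κ F) (a b : 𝔊) :
    (QuotientGroup.mk a : 𝔊 ⧸ scal A) = QuotientGroup.mk b ↔ ∃ c : F, A b = c • A a := by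
  rw [QuotientGroup.eq]
  constructor
  · rintro ⟨c, hc⟩
    refine ⟨c, ?_⟩
    have h1 : A b = A a * A (a⁻¹ * b) := by rw [← map_mul, mul_inv_cancel_left]
    rw [h1, hc, mul_smul_comm, mul_one]
  · rintro ⟨c, hc⟩
    refine ⟨c, ?_⟩
    rw [map_mul, hc, mul_smul_comm, ← map_mul, inv_mul_cancel, map_one]

theorem smul_one_inj [Nonempty κ] {c d : F} (h : c • (1 : Matrix κ κ F) = d • 1) : c = d := by
  obtain ⟨i⟩ := ‹Nonempty κ›
  have h1 := congrFun (congrFun h i) i
  simpa using h1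

theorem A_ne_zero [Nonempty κ] (A : 𝔊 →* Matrix κ κ F) (g : 𝔊) : A g ≠ 0 := by
  intro h
  have h1 : A g * A g⁻¹ = 1 := by rw [← map_mul, mul_inv_cancel, map_one]
  rw [h, zero_mul] at h1
  have h2 : (0 : F) • (1 : Matrix κ κ F) = (1 : F) • 1 := by rw [zero_smul, one_smul, h1]
  exact zero_ne_one (smul_one_inj h2)

/-- the functions on `𝔊`, homogeneous of degree `m` with respect to `A` -/
def hom (A : 𝔊 →* Matrix κ κ F) (m : ℕ) : Submodule F (𝔊 → F) where
  carrier := {φ | ∀ (g g' : 𝔊) (c : F), A g' = c • A g → φ g' = c ^ m * φ g}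
  zero_mem' := by
    intro g g' c _
    show (0 : F) = c ^ m * 0
    rw [mul_zero]
  add_mem' := by
    intro φ ψ hφ hψ g g' c h
    show φ g' + ψ g' = c ^ m * (φ g + ψ g)
    rw [hφ g g' c h, hψ g g' c h, mul_add]
  smul_mem' := by
    intro d φ hφ g g' c h
    show d * φ g' = c ^ m * (d * φ g)
    rw [hφ g g' c h]
    ring

/-- the right translations -/
def trans (A : 𝔊 →* Matrix κ κ F) (m : ℕ) (h : 𝔊) : hom A m →ₗ[F] hom A m where
  toFun φ := ⟨fun g => φ.1 (g * h), fun g g' c hc => φ.2 _ _ c (by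
    rw [map_mul, hc, map_mul, smul_mul_assoc])⟩
  map_add' _ _ := rfl
  map_smul' _ _ := rfl

theorem hom_finite (A : 𝔊 →* Matrix κ κ F) (hD : (scal A).index ≠ 0) (m : ℕ) :
    Module.Finite F (hom A m) := by
  haveI := Subgroup.fintypeOfIndexNeZero hD
  let e : hom A m →ₗ[F] (𝔊 ⧸ scal A → F) :=
    { toFun := fun φ q => φ.1 q.out
      map_add' := fun _ _ => rfl
      map_smul' := fun _ _ => rfl }
  refine Module.Finite.of_injective e ?_
  intro φ ψ h
  apply Subtype.ext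
  funext g
  have h1 : (QuotientGroup.mk (QuotientGroup.mk g : 𝔊 ⧸ scal A).out : 𝔊 ⧸ scal A) =
      QuotientGroup.mk g := QuotientGroup.out_eq' _
  obtain ⟨c, hc⟩ := (mk_eq_iff A _ _).1 h1
  rw [φ.2 _ _ c hc, ψ.2 _ _ c hc]
  congr 1
  exact congrFun h (QuotientGroup.mk g)

/-- the representation on the homogeneous functions -/
def CC (A : 𝔊 →* Matrix κ κ F) (hA : IsOpen {g | A g = 1}) (hD : (scal A).index ≠ 0) (m : ℕ) :
    Rp F 𝔊 where
  N := hom A m
  fin := hom_finite A hD m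
  ρ :=
    { toFun := trans A m
      map_one' := by
        ext φ g
        show φ.1 (g * 1) = φ.1 g
        rw [mul_one]
      map_mul' := fun h h' => by
        ext φ g
        show φ.1 (g * (h * h')) = φ.1 (g * h * h')
        rw [mul_assoc] }
  cont := by
    refine open_of_ker hA _ fun g hg => ?_
    show trans A m g = 1
    ext φ g'
    show φ.1 (g' * g) = φ.1 g'
    rw [φ.2 g' (g' * g) 1 (by rw [map_mul, hg, mul_one, one_smul]), one_pow, one_mul]

/-- the homogeneous delta function at `1` -/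
noncomputable def delta [Nonempty κ] (A : 𝔊 →* Matrix κ κ F) (m : ℕ) : hom A m := by
  classical
  exact ⟨fun g => if h : ∃ c : F, A g = c • (1 : Matrix κ κ F) then h.choose ^ m else 0, by
    intro g g' c hc
    have hc0 : c ≠ 0 := by
      rintro rfl
      rw [zero_smul] at hc
      exact A_ne_zero A g' hc
    show (if h : ∃ c : F, A g' = c • (1 : Matrix κ κ F) then h.choose ^ m else 0) =
      c ^ m * (if h : ∃ c : F, A g = c • (1 : Matrix κ κ F) then h.choose ^ m else 0)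
    by_cases h : ∃ d : F, A g = d • (1 : Matrix κ κ F)
    · have h' : ∃ d : F, A g' = d • (1 : Matrix κ κ F) := by
        obtain ⟨d, hd⟩ := h
        exact ⟨c * d, by rw [hc, hd, smul_smul]⟩
      rw [dif_pos h, dif_pos h']
      have h1 := h.choose_spec
      have h2 := h'.choose_spec
      have h3 : h'.choose = c * h.choose := by
        apply smul_one_inj (κ := κ)
        rw [← h2, hc, ← smul_smul, ← h1]
      rw [h3, mul_pow]
    · have h' : ¬ ∃ d : F, A g' = d • (1 : Matrix κ κ F) := by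
        rintro ⟨d, hd⟩
        apply h
        refine ⟨c⁻¹ * d, ?_⟩
        rw [← smul_smul, ← hd, hc, smul_smul, inv_mul_cancel₀ hc0, one_smul]
      rw [dif_neg h, dif_neg h', mul_zero]⟩

theorem delta_pos [Nonempty κ] (A : 𝔊 →* Matrix κ κ F) (m : ℕ) {g : 𝔊} {c : F}
    (h : A g = c • (1 : Matrix κ κ F)) : (delta A m).1 g = c ^ m := by
  classical
  have h' : ∃ d : F, A g = d • (1 : Matrix κ κ F) := ⟨c, h⟩
  have h1 : (delta A m).1 g = h'.choose ^ m := dif_pos h'
  have h2 : h'.choose = c := by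
    apply smul_one_inj (κ := κ)
    rw [← h'.choose_spec, h]
  rw [h1, h2]

theorem delta_neg [Nonempty κ] (A : 𝔊 →* Matrix κ κ F) (m : ℕ) {g : 𝔊}
    (h : ¬ ∃ c : F, A g = c • (1 : Matrix κ κ F)) : (delta A m).1 g = 0 := by
  classical
  exact dif_neg h

theorem delta_one [Nonempty κ] (A : 𝔊 →* Matrix κ κ F) (m : ℕ) : (delta A m).1 1 = 1 := by
  rw [delta_pos A m (c := 1) (by rw [map_one, one_smul]), one_pow]

/-- a linear function, `1` at the unit matrix and `0` at a given matrix, not proportional to it -/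
theorem exists_lin (M : Matrix κ κ F) (h : (1 : Matrix κ κ F) ∉ Submodule.span F {M}) :
    ∃ f : Matrix κ κ F →ₗ[F] F, f 1 = 1 ∧ f M = 0 := by
  obtain ⟨f, hf1, hf2⟩ := Submodule.exists_le_ker_of_notMem h
  refine ⟨(f 1)⁻¹ • f, ?_, ?_⟩
  · show (f 1)⁻¹ * f 1 = 1
    exact inv_mul_cancel₀ hf1
  · show (f 1)⁻¹ * f M = 0
    have : f M = 0 := hf2 (Submodule.mem_span_singleton_self M)
    rw [this, mul_zero]

theorem exists_L [Nonempty κ] (A : 𝔊 →* Matrix κ κ F) (q : 𝔊 ⧸ scal A)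
    (hq : q ≠ QuotientGroup.mk 1) :
    ∃ f : Matrix κ κ F →ₗ[F] F, f 1 = 1 ∧ f (A q.out) = 0 := by
  apply exists_lin
  intro h
  rw [Submodule.mem_span_singleton] at h
  obtain ⟨c, hc⟩ := h
  apply hq
  have h1 : (QuotientGroup.mk q.out : 𝔊 ⧸ scal A) = q := QuotientGroup.out_eq' q
  rw [← h1]
  exact (mk_eq_iff A _ _).2 ⟨c, by rw [map_one, hc]⟩

/-- the sum over the cosets does not depend on the representatives -/
theorem sum_coset (S : Subgroup 𝔊) [Fintype (𝔊 ⧸ S)] {N : Type} [AddCommGroup N] (t : 𝔊 → N)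
    (ht : ∀ a b : 𝔊, (QuotientGroup.mk a : 𝔊 ⧸ S) = QuotientGroup.mk b → t a = t b) (h : 𝔊) :
    ∑ q : 𝔊 ⧸ S, t q.out = ∑ q : 𝔊 ⧸ S, t (h * q.out) := by
  rw [← Equiv.sum_comp (MulAction.toPerm h : Equiv.Perm (𝔊 ⧸ S))]
  refine Finset.sum_congr rfl fun q _ => ht _ _ ?_
  rw [QuotientGroup.out_eq']
  show h • q = _
  conv_lhs => rw [← QuotientGroup.out_eq' q]
  rfl

end Pool.Agent.K6.H45.MU
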