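import Mathlib

/-!
Tensor powers and the `μ`-invariant (MP_519cc8_nt): definitions.

`F` is the residue field, `𝔊` the Galois group, `Ω` the Iwasawa algebra modulo the uniformiser.
-/

set_option autoImplicit false

open Module

namespace Pool.Agent.K6.H45.MU

/-- A continuous representation of `𝔊` on a finite dimensional `F`-vector space (discrete topology):
an open subgroup acts trivially. -/
structure Rp (F : Type) [Field F] (𝔊 : Type) [Group 𝔊] [TopologicalSpace 𝔊] where
  N : Type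
  [acg : AddCommGroup N]
  [mod : Module F N]
  [fin : Module.Finite F N]
  ρ : Representation F 𝔊 N
  cont : IsOpen {g : 𝔊 | ρ g = 1}

attribute [instance] Rp.acg Rp.mod Rp.fin

variable {F : Type} [Field F] {𝔊 : Type} [Group 𝔊] [TopologicalSpace 𝔊]

/-- homomorphisms of representations -/
structure Hom (X Y : Rp F 𝔊) where
  f : X.N →ₗ[F] Y.N
  eq : ∀ g x, f (X.ρ g x) = Y.ρ g (f x)

/-- identity -/
def Hom.id (X : Rp F 𝔊) : Hom X X := ⟨LinearMap.id, fun _ _ => rfl⟩

/-- composition -/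
def Hom.comp {X Y Z : Rp F 𝔊} (g : Hom Y Z) (f : Hom X Y) : Hom X Z :=
  ⟨g.f ∘ₗ f.f, fun h x => by
    rw [LinearMap.comp_apply, LinearMap.comp_apply, f.eq, g.eq]⟩

/-- `0 → X → Y → Z → 0` is exact. -/
def Exact {X Y Z : Rp F 𝔊} (f : Hom X Y) (g : Hom Y Z) : Prop :=
  Function.Injective f.f ∧ Function.Surjective g.f ∧ ∀ y, g.f y = 0 ↔ ∃ x, f.f x = y

/-- A right exact functor from the representations of `𝔊` to the finitely generated `Ω`-modules.
Example: `N ↦ H²_{Σ,Iw}(O_{L,S}, N)`, `𝔊 = G_{K,S}`, `Ω = F[[Γ]]`. -/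
structure Coh (F : Type) [Field F] (𝔊 : Type) [Group 𝔊] [TopologicalSpace 𝔊] (Ω : Type)
    [CommRing Ω] where
  H : Rp F 𝔊 → Type
  [grp : ∀ X, AddCommGroup (H X)]
  [mod : ∀ X, Module Ω (H X)]
  fin : ∀ X, Module.Finite Ω (H X)
  map : ∀ {X Y : Rp F 𝔊}, Hom X Y → (H X →ₗ[Ω] H Y)
  map_id : ∀ X, map (Hom.id X) = LinearMap.id
  map_comp : ∀ {X Y Z : Rp F 𝔊} (g : Hom Y Z) (f : Hom X Y), map (g.comp f) = map g ∘ₗ map f
  surj : ∀ {X Y : Rp F 𝔊} (f : Hom X Y), Function.Surjective f.f → Function.Surjective (map f)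
  exact : ∀ {X Y Z : Rp F 𝔊} (f : Hom X Y) (g : Hom Y Z), Exact f g →
    ∀ y, map g y = 0 ↔ ∃ x, map f x = y

attribute [instance] Coh.grp Coh.mod

/-- the rank over `Ω` of the value of the functor -/
noncomputable def Coh.rk {Ω : Type} [CommRing Ω] (C : Coh F 𝔊 Ω) (X : Rp F 𝔊) : ℕ :=
  finrank Ω (C.H X)

variable {κ : Type} [Fintype κ] [DecidableEq κ]

/-- the tensor power, indexed by `ι`, of a matrix -/
def kr (ι : Type) [Fintype ι] (a : Matrix κ κ F) : Matrix (ι → κ) (ι → κ) F :=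
  fun α β => ∏ i, a (α i) (β i)

theorem kr_one (ι : Type) [Fintype ι] [DecidableEq ι] : kr ι (1 : Matrix κ κ F) = 1 := by
  funext α β
  unfold kr
  rw [Matrix.one_apply]
  split_ifs with h
  · subst h
    exact Finset.prod_eq_one fun i _ => Matrix.one_apply_eq _
  · obtain ⟨i, hi⟩ := Function.ne_iff.1 h
    exact Finset.prod_eq_zero (Finset.mem_univ i) (Matrix.one_apply_ne hi)

theorem kr_mul (ι : Type) [Fintype ι] [DecidableEq ι] (a b : Matrix κ κ F) :
    kr ι (a * b) = kr ι a * kr ι b := by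
  funext α β
  unfold kr
  rw [Matrix.mul_apply]
  simp only [Matrix.mul_apply, ← Finset.prod_mul_distrib]
  rw [Finset.prod_univ_sum]
  simp

theorem kr_smul (ι : Type) [Fintype ι] (c : F) (a : Matrix κ κ F) :
    kr ι (c • a) = c ^ Fintype.card ι • kr ι a := by
  funext α β
  unfold kr
  rw [Matrix.smul_apply, smul_eq_mul]
  simp only [Matrix.smul_apply, smul_eq_mul, Finset.prod_mul_distrib]
  rw [Finset.prod_const, Finset.card_univ]

variable [IsTopologicalGroup 𝔊]

/-- A homomorphism which is trivial where `A` is trivial has an open kernel. -/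
theorem open_of_ker {M M' : Type} [Monoid M] [Monoid M'] {A : 𝔊 →* M} (hA : IsOpen {g | A g = 1})
    (B : 𝔊 →* M') (h : ∀ g, A g = 1 → B g = 1) : IsOpen {g | B g = 1} := by
  have h1 : IsOpen ((MonoidHom.ker A : Subgroup 𝔊) : Set 𝔊) := hA
  have h2 : MonoidHom.ker A ≤ MonoidHom.ker B := fun g hg => h g hg
  exact Subgroup.isOpen_mono h2 h1

/-- `T^{⊗ ι}` for `T = F^κ` with the action by the matrices `A g` -/
def tp (A : 𝔊 →* Matrix κ κ F) (hA : IsOpen {g | A g = 1}) (ι : Type) [Fintype ι]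
    [DecidableEq ι] : Rp F 𝔊 where
  N := (ι → κ) → F
  ρ :=
    { toFun := fun g => Matrix.toLin' (kr ι (A g))
      map_one' := by rw [map_one, kr_one, Matrix.toLin'_one]; rfl
      map_mul' := fun g h => by rw [map_mul, kr_mul, Matrix.toLin'_mul]; rfl }
  cont := by
    refine open_of_ker hA _ fun g hg => ?_
    show Matrix.toLin' (kr ι (A g)) = 1
    rw [hg, kr_one, Matrix.toLin'_one]
    rfl

/-- the elements which act as scalars -/
def scal (A : 𝔊 →* Matrix κ κ F) : Subgroup 𝔊 where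
  carrier := {g | ∃ c : F, A g = c • (1 : Matrix κ κ F)}
  one_mem' := ⟨1, by rw [map_one, one_smul]⟩
  mul_mem' := by
    rintro a b ⟨c, hc⟩ ⟨d, hd⟩
    exact ⟨c * d, by rw [map_mul, hc, hd, smul_mul_smul_comm, mul_one]⟩
  inv_mem' := by
    rintro a ⟨c, hc⟩
    have h1 : A a * A a⁻¹ = 1 := by rw [← map_mul, mul_inv_cancel, map_one]
    rw [hc, smul_mul_assoc, one_mul] at h1
    by_cases hc0 : c = 0
    · rw [hc0, zero_smul] at h1
      refine ⟨1, ?_⟩
      have h2 : ∀ M : Matrix κ κ F, M = 0 := fun M => by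
        rw [← one_mul M, ← h1, zero_mul]
      rw [h2 (A a⁻¹), h2 ((1 : F) • (1 : Matrix κ κ F))]
    · refine ⟨c⁻¹, ?_⟩
      rw [← h1, smul_smul, inv_mul_cancel₀ hc0, one_smul]

/-- The representations composed, by successive extensions, of representations on which the
elements acting as the scalar `c` on `T` act as the scalar `c ^ m` (the kernel of `T` trivially). -/
inductive Built (A : 𝔊 →* Matrix κ κ F) (m : ℕ) : Rp F 𝔊 → Prop
  | base (X : Rp F 𝔊) (h : ∀ (g : 𝔊) (c : F), A g = c • (1 : Matrix κ κ F) →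
      X.ρ g = c ^ m • (1 : X.N →ₗ[F] X.N)) : Built A m X
  | ext {X Y Z : Rp F 𝔊} (f : Hom X Y) (g : Hom Y Z) (h : Exact f g) (hX : Built A m X)
      (hZ : Built A m Z) : Built A m Y

/-- The representations obtained by successive extensions from those on which the kernel of `A`
acts trivially. -/
inductive Over (A : 𝔊 →* Matrix κ κ F) : Rp F 𝔊 → Prop
  | base (X : Rp F 𝔊) (h : ∀ g : 𝔊, A g = 1 → X.ρ g = 1) : Over A X
  | ext {X Y Z : Rp F 𝔊} (f : Hom X Y) (g : Hom Y Z) (h : Exact f g) (hX : Over A X)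
      (hZ : Over A Z) : Over A Y

/-- the scalars in the image of `A` -/
def sc (A : 𝔊 →* Matrix κ κ F) : Subgroup Fˣ where
  carrier := {u | ∃ g, A g = (u : F) • (1 : Matrix κ κ F)}
  one_mem' := ⟨1, by rw [map_one, Units.val_one, one_smul]⟩
  mul_mem' := by
    rintro a b ⟨g, hg⟩ ⟨h, hh⟩
    exact ⟨g * h, by rw [map_mul, hg, hh, smul_mul_smul_comm, mul_one, Units.val_mul]⟩
  inv_mem' := by
    rintro a ⟨g, hg⟩
    refine ⟨g⁻¹, ?_⟩
    have h1 : A g * A g⁻¹ = 1 := by rw [← map_mul, mul_inv_cancel, map_one]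
    rw [hg, smul_mul_assoc, one_mul] at h1
    rw [← h1, smul_smul, ← Units.val_mul, inv_mul_cancel, Units.val_one, one_smul]

/-- Some element outside of the prime ideal `P` of `Λ` annihilates `M`. For the Iwasawa algebra
`Λ = R[[Γ]]`, `P = πΛ` and `M` finitely generated: `M` is torsion with `μ(M) = 0`. -/
def TorsionMuZero {Λ : Type} [CommRing Λ] (P : Ideal Λ) (M : Type) [AddCommGroup M] [Module Λ M] :
    Prop :=
  ∃ a : Λ, a ∉ P ∧ ∀ x : M, a • x = 0

end Pool.Agent.K6.H45.MU
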