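import Pool.Agent.K6.H45.MU.Over

/-!
Symmetric powers and the `μ`-invariant (MP_519cc8_nt): induction from a stabiliser.
-/

set_option autoImplicit false

open Module

namespace Pool.Agent.K6.H45.MU

variable {F : Type} [Field F] {𝔊 : Type} [Group 𝔊] [TopologicalSpace 𝔊] [IsTopologicalGroup 𝔊]
variable {κ : Type} [Fintype κ] [DecidableEq κ]

/-- the functions of the induced representation -/
def indN (S : Subgroup 𝔊) {Y : Type} [AddCommGroup Y] [Module F Y] (σ : Representation F S Y) :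
    Submodule F (𝔊 → Y) where
  carrier := {φ | ∀ (s : S) (g : 𝔊), φ (s * g) = σ s (φ g)}
  zero_mem' := by
    intro s g
    show (0 : Y) = σ s 0
    rw [map_zero]
  add_mem' := by
    intro φ ψ hφ hψ s g
    show φ (s * g) + ψ (s * g) = σ s (φ g + ψ g)
    rw [hφ s g, hψ s g, map_add]
  smul_mem' := by
    intro c φ hφ s g
    show c • φ (s * g) = σ s (c • φ g)
    rw [hφ s g, map_smul]

/-- the right translations -/
def indT (S : Subgroup 𝔊) {Y : Type} [AddCommGroup Y] [Module F Y] (σ : Representation F S Y)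
    (h : 𝔊) : indN S σ →ₗ[F] indN S σ where
  toFun φ := ⟨fun g => φ.1 (g * h), fun s g => by
    show φ.1 (s * g * h) = σ s (φ.1 (g * h))
    rw [mul_assoc]
    exact φ.2 s (g * h)⟩
  map_add' _ _ := rfl
  map_smul' _ _ := rfl

theorem indN_finite (S : Subgroup 𝔊) (hS : S.index ≠ 0) {Y : Type} [AddCommGroup Y] [Module F Y]
    [Module.Finite F Y] (σ : Representation F S Y) : Module.Finite F (indN S σ) := by
  have := Subgroup.fintypeOfIndexNeZero hS
  let e : indN S σ →ₗ[F] (𝔊 ⧸ S → Y) :=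
    { toFun := fun φ q => φ.1 (q.out)⁻¹
      map_add' := fun _ _ => rfl
      map_smul' := fun _ _ => rfl }
  refine Module.Finite.of_injective e ?_
  intro φ ψ h
  apply Subtype.ext
  funext g
  have h1 : (QuotientGroup.mk (QuotientGroup.mk g⁻¹ : 𝔊 ⧸ S).out : 𝔊 ⧸ S) =
      QuotientGroup.mk g⁻¹ := QuotientGroup.out_eq' _
  have h2 : g * (QuotientGroup.mk g⁻¹ : 𝔊 ⧸ S).out ∈ S := by
    have h3 := QuotientGroup.eq.1 h1.symm
    rwa [inv_inv] at h3
  have h4 : ∀ χ : indN S σ, χ.1 g = σ ⟨_, h2⟩ (χ.1 ((QuotientGroup.mk g⁻¹ : 𝔊 ⧸ S).out)⁻¹) := by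
    intro χ
    rw [← χ.2 ⟨_, h2⟩]
    exact congrArg χ.1 (mul_inv_cancel_right _ _).symm
  rw [h4 φ, h4 ψ]
  congr 1
  exact congrFun h (QuotientGroup.mk g⁻¹)

/-- the induced representation -/
def Ind (A : 𝔊 →* Matrix κ κ F) (hA : IsOpen {g | A g = 1}) (S : Subgroup 𝔊) (hS : S.index ≠ 0)
    (hAS : MonoidHom.ker A ≤ S) {Y : Type} [AddCommGroup Y] [Module F Y] [Module.Finite F Y]
    (σ : Representation F S Y) (hσ : ∀ s : S, A s = 1 → σ s = 1) : Rp F 𝔊 where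
  N := indN S σ
  fin := indN_finite S hS σ
  ρ :=
    { toFun := indT S σ
      map_one' := by
        ext φ g
        show φ.1 (g * 1) = φ.1 g
        rw [mul_one]
      map_mul' := fun h h' => by
        ext φ g
        show φ.1 (g * (h * h')) = φ.1 (g * h * h')
        rw [mul_assoc] }
  cont := by
    refine open_of_ker hA _ fun h hh => ?_
    show indT S σ h = 1
    ext φ g
    show φ.1 (g * h) = φ.1 g
    have h1 : A (g * h * g⁻¹) = 1 := by
      rw [map_mul, map_mul, hh, mul_one, ← map_mul, mul_inv_cancel, map_one]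
    have h2 : g * h * g⁻¹ ∈ S := hAS h1
    have h3 := φ.2 ⟨_, h2⟩ g
    rw [hσ ⟨_, h2⟩ h1] at h3
    have h4 : g * h = (g * h * g⁻¹) * g := by group
    rw [h4]
    exact h3

section
variable (A : 𝔊 →* Matrix κ κ F) (hA : IsOpen {g | A g = 1}) (S : Subgroup 𝔊)
  (hS : S.index ≠ 0) (hAS : MonoidHom.ker A ≤ S)

/-- the functoriality of the induction -/
def indHom {Y Z : Type} [AddCommGroup Y] [Module F Y] [Module.Finite F Y] [AddCommGroup Z]
    [Module F Z] [Module.Finite F Z] (σ : Representation F S Y) (τ : Representation F S Z)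
    (hσ : ∀ s : S, A s = 1 → σ s = 1) (hτ : ∀ s : S, A s = 1 → τ s = 1) (f : Y →ₗ[F] Z)
    (hf : ∀ s y, f (σ s y) = τ s (f y)) :
    Hom (Ind A hA S hS hAS σ hσ) (Ind A hA S hS hAS τ hτ) where
  f :=
    { toFun := fun φ => ⟨fun g => f (φ.1 g), fun s g => by
        show f (φ.1 (s * g)) = τ s (f (φ.1 g))
        rw [φ.2 s g, hf]⟩
      map_add' := by
        intro φ ψ
        apply Subtype.ext
        funext g
        exact map_add f _ _
      map_smul' := by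
        intro c φ
        apply Subtype.ext
        funext g
        exact map_smul f _ _ }
  eq := fun h φ => rfl

theorem indHom_surj {Y Z : Type} [AddCommGroup Y] [Module F Y] [AddCommGroup Z]
    [Module F Z] (σ : Representation F S Y) (τ : Representation F S Z)
    (f : Y →ₗ[F] Z) (hf : ∀ s y, f (σ s y) = τ s (f y)) (hs : Function.Surjective f)
    (ψ : indN S τ) : ∃ φ : indN S σ, ∀ g, f (φ.1 g) = ψ.1 g := by
  have hin : ∀ g : 𝔊, g * (QuotientGroup.mk g⁻¹ : 𝔊 ⧸ S).out ∈ S := by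
    intro g
    have h1 : (QuotientGroup.mk (QuotientGroup.mk g⁻¹ : 𝔊 ⧸ S).out : 𝔊 ⧸ S) =
        QuotientGroup.mk g⁻¹ := QuotientGroup.out_eq' _
    have h3 := QuotientGroup.eq.1 h1.symm
    rwa [inv_inv] at h3
  choose l hl using fun q : 𝔊 ⧸ S => hs (ψ.1 (q.out)⁻¹)
  refine ⟨⟨fun g => σ ⟨_, hin g⟩ (l (QuotientGroup.mk g⁻¹)), ?_⟩, ?_⟩
  · intro s g
    have h1 : (QuotientGroup.mk ((s : 𝔊) * g)⁻¹ : 𝔊 ⧸ S) = QuotientGroup.mk g⁻¹ := by
      rw [QuotientGroup.eq]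
      have : ((s : 𝔊) * g)⁻¹⁻¹ * g⁻¹ = s := by group
      rw [this]
      exact s.2
    show σ ⟨_, hin (s * g)⟩ (l (QuotientGroup.mk ((s : 𝔊) * g)⁻¹)) =
      σ s (σ ⟨_, hin g⟩ (l (QuotientGroup.mk g⁻¹)))
    have h2 : (⟨_, hin (s * g)⟩ : S) = s * ⟨_, hin g⟩ := by
      apply Subtype.ext
      show (s : 𝔊) * g * (QuotientGroup.mk ((s : 𝔊) * g)⁻¹ : 𝔊 ⧸ S).out =
        s * (g * (QuotientGroup.mk g⁻¹ : 𝔊 ⧸ S).out)
      rw [h1, mul_assoc]
    have h3 : l (QuotientGroup.mk ((s : 𝔊) * g)⁻¹) = l (QuotientGroup.mk g⁻¹) := by rw [h1]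
    rw [h2, h3, map_mul]
    rfl
  · intro g
    show f (σ ⟨_, hin g⟩ (l (QuotientGroup.mk g⁻¹))) = ψ.1 g
    rw [hf, hl, ← ψ.2]
    exact congrArg ψ.1 (mul_inv_cancel_right _ _)

/-- the counit -/
noncomputable def counit [Fintype (𝔊 ⧸ S)] (X : Rp F 𝔊) (hX : ∀ g : 𝔊, A g = 1 → X.ρ g = 1) :
    Hom (Ind A hA S hS hAS (X.ρ.comp S.subtype) (fun s hs => hX s hs)) X where
  f :=
    { toFun := fun φ => ∑ q : 𝔊 ⧸ S, X.ρ q.out (φ.1 (q.out)⁻¹)
      map_add' := by
        intro φ ψ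
        rw [← Finset.sum_add_distrib]
        exact Finset.sum_congr rfl fun q _ => map_add _ _ _
      map_smul' := by
        intro c φ
        rw [RingHom.id_apply, Finset.smul_sum]
        exact Finset.sum_congr rfl fun q _ => map_smul _ _ _ }
  eq := by
    intro h φ
    show ∑ q : 𝔊 ⧸ S, X.ρ q.out (φ.1 ((q.out)⁻¹ * h)) =
      X.ρ h (∑ q : 𝔊 ⧸ S, X.ρ q.out (φ.1 (q.out)⁻¹))
    rw [map_sum]
    have key := sum_coset S (fun a => X.ρ a (φ.1 (a⁻¹ * h))) (by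
      intro a a' haa
      rw [QuotientGroup.eq] at haa
      have h1 := φ.2 ⟨_, haa⟩ (a'⁻¹ * h)
      have h2 : a⁻¹ * h = (a⁻¹ * a') * (a'⁻¹ * h) := by group
      show X.ρ a (φ.1 (a⁻¹ * h)) = X.ρ a' (φ.1 (a'⁻¹ * h))
      have h3 : φ.1 (a⁻¹ * h) = X.ρ (a⁻¹ * a') (φ.1 (a'⁻¹ * h)) := by
        rw [h2]
        exact h1
      rw [h3, ← Module.End.mul_apply, ← map_mul, mul_inv_cancel_left]) h
    refine key.trans (Finset.sum_congr rfl fun q _ => ?_)
    have h5 : (h * q.out)⁻¹ * h = (q.out)⁻¹ := by group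
    show X.ρ (h * q.out) (φ.1 ((h * q.out)⁻¹ * h)) = X.ρ h (X.ρ q.out (φ.1 (q.out)⁻¹))
    rw [h5, map_mul]
    rfl

theorem counit_surj [Fintype (𝔊 ⧸ S)] (X : Rp F 𝔊) (hX : ∀ g : 𝔊, A g = 1 → X.ρ g = 1) :
    Function.Surjective (counit A hA S hS hAS X hX).f := by
  classical
  intro x
  refine ⟨⟨fun g => if g ∈ S then X.ρ g x else 0, ?_⟩, ?_⟩
  · intro s g
    show (if (s : 𝔊) * g ∈ S then X.ρ (s * g) x else 0) = X.ρ s (if g ∈ S then X.ρ g x else 0)
    by_cases hg : g ∈ S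
    · rw [if_pos hg, if_pos (S.mul_mem s.2 hg), map_mul]
      rfl
    · rw [if_neg hg, if_neg, map_zero]
      intro h
      exact hg ((Subgroup.mul_mem_cancel_left S s.2).1 h)
  · show ∑ q : 𝔊 ⧸ S, X.ρ q.out (if (q.out)⁻¹ ∈ S then X.ρ (q.out)⁻¹ x else 0) = x
    rw [Finset.sum_eq_single (QuotientGroup.mk 1 : 𝔊 ⧸ S)]
    · have h3 : (QuotientGroup.mk (QuotientGroup.mk 1 : 𝔊 ⧸ S).out : 𝔊 ⧸ S) =
        QuotientGroup.mk 1 := QuotientGroup.out_eq' _
      have h4 := QuotientGroup.eq.1 h3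
      rw [mul_one] at h4
      rw [if_pos h4, ← Module.End.mul_apply, ← map_mul, mul_inv_cancel, map_one]
      rfl
    · intro q _ hq
      rw [if_neg, map_zero]
      intro h
      apply hq
      rw [← QuotientGroup.out_eq' q, QuotientGroup.eq, mul_one]
      exact h
    · intro h
      exact absurd (Finset.mem_univ _) h

end

end Pool.Agent.K6.H45.MU
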