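import Pool.Agent.K6.H45.MU.Defs

/-!
Products of symmetric powers and the `μ`-invariant (MP_519cc8_nt): definitions.
-/

set_option autoImplicit false

open Module

namespace Pool.Agent.K6.H45.MU

/-- A substitution which respects the weights of the variables respects the weights. -/
theorem aeval_wh {F σ τ M : Type} [Field F] [AddCommMonoid M] (u : σ → M) (w : τ → M)
    (g : σ → MvPolynomial τ F) (hg : ∀ x, MvPolynomial.IsWeightedHomogeneous w (g x) (u x))
    (f : MvPolynomial σ F) (m : M) (hf : MvPolynomial.IsWeightedHomogeneous u f m) :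
    MvPolynomial.IsWeightedHomogeneous w (MvPolynomial.aeval g f) m := by
  rw [MvPolynomial.aeval_def, MvPolynomial.eval₂_eq]
  apply MvPolynomial.IsWeightedHomogeneous.sum
  intro d hd
  have h1 : MvPolynomial.coeff d f ≠ 0 := MvPolynomial.mem_support_iff.1 hd
  have h2 := hf h1
  rw [MvPolynomial.algebraMap_eq, ← h2]
  apply MvPolynomial.IsWeightedHomogeneous.C_mul
  rw [Finsupp.weight_apply]
  apply MvPolynomial.IsWeightedHomogeneous.prod
  intro x _
  exact (hg x).pow _

/-- the weights of the variables `X (k, j)`: the `k`-th unit vector -/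
def wt (ρ κ : Type) [DecidableEq ρ] : ρ × κ → ρ → ℕ := fun x => Pi.single x.1 1

/-- The polynomials in the variables `X (k, j)` which are, for every `k`, homogeneous of degree
`i k` in the variables `X (k, ·)`. -/
def multi (F ρ κ : Type) [Field F] [DecidableEq ρ] (i : ρ → ℕ) :
    Submodule F (MvPolynomial (ρ × κ) F) :=
  MvPolynomial.weightedHomogeneousSubmodule F (wt ρ κ) i

theorem multi_finite (F ρ κ : Type) [Field F] [Fintype ρ] [DecidableEq ρ] [Fintype κ]
    (i : ρ → ℕ) : Module.Finite F (multi F ρ κ i) := by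
  have h1 : multi F ρ κ i ≤ MvPolynomial.homogeneousSubmodule (ρ × κ) F (∑ k, i k) := by
    intro f hf
    rw [MvPolynomial.mem_homogeneousSubmodule]
    intro d hd
    have h2 : Finsupp.weight (wt ρ κ) d = i := hf hd
    rw [← h2, Finsupp.weight_apply, Finsupp.weight_apply]
    simp only [Finsupp.sum, Finset.sum_apply]
    rw [Finset.sum_comm]
    refine Finset.sum_congr rfl fun x _ => ?_
    simp only [Pi.smul_apply, wt, Pi.one_apply, smul_eq_mul, mul_one]
    rw [← Finset.mul_sum, Finset.sum_pi_single', if_pos (Finset.mem_univ _), mul_one]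
  have h3 : Module.Finite F (MvPolynomial.homogeneousSubmodule (ρ × κ) F (∑ k, i k)) :=
    Module.Finite.iff_fg.2 (MvPolynomial.homogeneousSubmodule_fg _ _ _)
  exact Submodule.finiteDimensional_of_le h1

variable {F : Type} [Field F] {κ : Type} [Fintype κ] [DecidableEq κ] {ρ : Type} [Fintype ρ]
  [DecidableEq ρ]

/-- the substitution `X ↦ X a` for a matrix `X` of variables -/
noncomputable def substM (ρ : Type) (a : Matrix κ κ F) :
    MvPolynomial (ρ × κ) F →ₐ[F] MvPolynomial (ρ × κ) F :=
  MvPolynomial.aeval fun x => ∑ l, MvPolynomial.C (a l x.2) * MvPolynomial.X (x.1, l)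

theorem substM_one : substM ρ (1 : Matrix κ κ F) = AlgHom.id F _ := by
  apply MvPolynomial.algHom_ext
  intro x
  unfold substM
  rw [MvPolynomial.aeval_X, AlgHom.id_apply, Finset.sum_eq_single x.2]
  · rw [Matrix.one_apply_eq, MvPolynomial.C_1, one_mul]
  · intro k _ hk
    rw [Matrix.one_apply_ne hk, MvPolynomial.C_0, zero_mul]
  · intro h
    exact absurd (Finset.mem_univ _) h

theorem substM_mul (a b : Matrix κ κ F) : substM ρ (a * b) = (substM ρ a).comp (substM ρ b) := by
  apply MvPolynomial.algHom_ext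
  intro x
  unfold substM
  rw [AlgHom.comp_apply, MvPolynomial.aeval_X, MvPolynomial.aeval_X, map_sum]
  simp only [map_mul, MvPolynomial.aeval_X, MvPolynomial.aeval_C, Matrix.mul_apply, map_sum,
    Finset.sum_mul, Finset.mul_sum, MvPolynomial.algebraMap_eq]
  rw [Finset.sum_comm]
  refine Finset.sum_congr rfl fun k _ => Finset.sum_congr rfl fun l _ => ?_
  ring

theorem substM_multi (a : Matrix κ κ F) (i : ρ → ℕ) (f : MvPolynomial (ρ × κ) F)
    (hf : f ∈ multi F ρ κ i) : substM ρ a f ∈ multi F ρ κ i := by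
  refine aeval_wh (wt ρ κ) (wt ρ κ) _ (fun x => ?_) f i hf
  apply MvPolynomial.IsWeightedHomogeneous.sum
  intro l _
  exact (MvPolynomial.isWeightedHomogeneous_X F (wt ρ κ) (x.1, l)).C_mul _

variable {𝔊 : Type} [Group 𝔊] [TopologicalSpace 𝔊] [IsTopologicalGroup 𝔊]

/-- `⊗_k Sym^{i k} T` for `T = F^κ` with the action by the matrices `A g`: the polynomials in the
`ρ × κ`-matrix `X` of variables, homogeneous of degree `i k` in the `k`-th row, with the action by
the substitutions `X ↦ X (A g)` -/
noncomputable def Mx (A : 𝔊 →* Matrix κ κ F) (hA : IsOpen {g | A g = 1}) (i : ρ → ℕ) : Rp F 𝔊 where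
  N := multi F ρ κ i
  fin := multi_finite F ρ κ i
  ρ :=
    { toFun := fun g => (substM ρ (A g)).toLinearMap.restrict (substM_multi (A g) i)
      map_one' := by
        refine LinearMap.ext fun f => Subtype.ext ?_
        show substM ρ (A 1) f.1 = f.1
        rw [map_one, substM_one]
        rfl
      map_mul' := fun g h => by
        refine LinearMap.ext fun f => Subtype.ext ?_
        show substM ρ (A (g * h)) f.1 = substM ρ (A g) (substM ρ (A h) f.1)
        rw [map_mul, substM_mul]
        rfl }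
  cont := by
    refine open_of_ker hA _ fun g hg => ?_
    refine LinearMap.ext fun f => Subtype.ext ?_
    show substM ρ (A g) f.1 = f.1
    rw [hg, substM_one]
    rfl

/-- The representations obtained by successive extensions from the representations `X`, trivial on
the kernel of `A`, such that the vectors fixed by the stabiliser of the (row) vectors `W k`
generate `X`, or this stabiliser acts on `X` through elements of `p`-power order. -/
inductive NearW (A : 𝔊 →* Matrix κ κ F) (p : ℕ) (W : ρ → κ → F) : Rp F 𝔊 → Prop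
  | gen (X : Rp F 𝔊) (h : ∀ g : 𝔊, A g = 1 → X.ρ g = 1)
      (hX : ∀ V : Submodule F X.N,
        (∀ x : X.N, (∀ s : 𝔊, (∀ k, Matrix.vecMul (W k) (A s) = W k) → X.ρ s x = x) →
          ∀ g : 𝔊, X.ρ g x ∈ V) → V = ⊤) : NearW A p W X
  | unip (X : Rp F 𝔊) (h : ∀ g : 𝔊, A g = 1 → X.ρ g = 1)
      (hX : ∀ s : 𝔊, (∀ k, Matrix.vecMul (W k) (A s) = W k) → ∃ m : ℕ, X.ρ s ^ p ^ m = 1) :
      NearW A p W X
  | ext {X Y Z : Rp F 𝔊} (f : Hom X Y) (g : Hom Y Z) (h : Exact f g) (hX : NearW A p W X)
      (hZ : NearW A p W Z) : NearW A p W Y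

/-- The conjecture holds for the reduction `X`: the value at `X` has rank zero, and every finitely
generated `Λ`-module with the reduction `C.H X` is torsion with `μ = 0`. -/
def HoldsAtX {Λ : Type} [CommRing Λ] (P : Ideal Λ) (C : Coh F 𝔊 (Λ ⧸ P)) (X : Rp F 𝔊) : Prop :=
  C.rk X = 0 ∧ ∀ (M : Type) [AddCommGroup M] [Module Λ M] [Module.Finite Λ M],
    ((M ⧸ (P • ⊤ : Submodule Λ M)) ≃ₗ[Λ ⧸ P] C.H X) → TorsionMuZero P M

/-- The conjecture fails for the reduction `X`: no finitely generated `Λ`-module with the reduction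
`C.H X` is torsion with `μ = 0`. -/
def FailsAtX {Λ : Type} [CommRing Λ] (P : Ideal Λ) (C : Coh F 𝔊 (Λ ⧸ P)) (X : Rp F 𝔊) : Prop :=
  C.rk X ≠ 0 ∧ ∀ (M : Type) [AddCommGroup M] [Module Λ M] [Module.Finite Λ M],
    ((M ⧸ (P • ⊤ : Submodule Λ M)) ≃ₗ[Λ ⧸ P] C.H X) → ¬ TorsionMuZero P M

end Pool.Agent.K6.H45.MU
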