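import Pool.Agent.K6.H45.MU.SymMain

/-!
Symmetric powers and the `μ`-invariant (MP_519cc8_nt): the special linear group of degree two.
-/

set_option autoImplicit false

open Module

namespace Pool.Agent.K6.H45.MU

variable {F : Type} [Field F] {κ : Type} [Fintype κ] [DecidableEq κ]

theorem sl2_unip (p : ℕ) [Fact p.Prime] [CharP F p] (hκ : Fintype.card κ = 2)
    (M : Matrix κ κ F) (hM : M.det = 1) (v : κ → F) (hv : v ≠ 0) (h : Matrix.vecMul v M = v) :
    M ^ p = 1 := by
  have hne : Nonempty κ := by rw [← Fintype.card_pos_iff]; omega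
  have h1 : (1 - M).det = 0 := by
    rw [← Matrix.exists_vecMul_eq_zero_iff]
    exact ⟨v, hv, by rw [Matrix.vecMul_sub, Matrix.vecMul_one, h, sub_self]⟩
  have h2 : M.charpoly.eval 1 = 0 := by
    rw [Matrix.eval_charpoly, map_one]
    exact h1
  have h3 := Matrix.charpoly_of_card_eq_two M hκ
  rw [hM] at h3
  have htr : M.trace = 2 := by
    rw [h3] at h2
    simp at h2
    linear_combination -h2
  have h4 := Matrix.aeval_self_charpoly M
  rw [h3, htr] at h4
  have h5 : (M - 1) ^ 2 = 0 := by
    rw [← h4]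
    simp only [map_add, map_sub, map_mul, map_pow, Polynomial.aeval_X, Polynomial.aeval_C, map_one]
    have : (algebraMap F (Matrix κ κ F)) 2 = 2 := map_ofNat _ 2
    rw [this]
    noncomm_ring
  have h6 : M ^ p = ((M - 1) + 1) ^ p := by rw [sub_add_cancel]
  rw [h6, add_pow_char_of_commute (p := p) (Commute.one_right (M - 1)), one_pow]
  have h7 : (M - 1) ^ p = 0 := by
    have h8 := (Fact.out : p.Prime).two_le
    rw [← Nat.add_sub_cancel' h8, pow_add, h5, zero_mul]
  rw [h7, zero_add]

variable {𝔊 : Type} [Group 𝔊] [TopologicalSpace 𝔊] [IsTopologicalGroup 𝔊]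

theorem over_near (p : ℕ) [Fact p.Prime] [CharP F p] (hκ : Fintype.card κ = 2)
    (A : 𝔊 →* Matrix κ κ F) (hdet : ∀ g, (A g).det = 1) (v : κ → F) (hv : v ≠ 0) (X : Rp F 𝔊)
    (hX : Over A X) : Near A p v X := by
  induction hX with
  | base X h =>
    refine Near.unip X h fun s hs => ⟨1, ?_⟩
    rw [← map_pow]
    apply h
    rw [map_pow, pow_one]
    exact sl2_unip p hκ (A s) (hdet s) v hv hs
  | ext f g h _ _ ih1 ih2 => exact Near.ext f g h ih1 ih2

end Pool.Agent.K6.H45.MU
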