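import Pool.Agent.K6.H45.MU.MixPoly
import Pool.Agent.K6.H45.MU.Sl2

/-!
Products of symmetric powers and the `μ`-invariant (MP_519cc8_nt): the dichotomy.
-/

set_option autoImplicit false

open Module

namespace Pool.Agent.K6.H45.MU

variable {F : Type} [Field F] {𝔊 : Type} [Group 𝔊] [TopologicalSpace 𝔊] [IsTopologicalGroup 𝔊]
variable {κ : Type} [Fintype κ] [DecidableEq κ] {ρ : Type} [Fintype ρ] [DecidableEq ρ]

/-- the stabiliser of the rows of a matrix -/
def stabM (A : 𝔊 →* Matrix κ κ F) (W : ρ → κ → F) : Subgroup 𝔊 := ⨅ k, stab A (W k)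

theorem mem_stabM (A : 𝔊 →* Matrix κ κ F) (W : ρ → κ → F) (g : 𝔊) :
    g ∈ stabM A W ↔ ∀ k, Matrix.vecMul (W k) (A g) = W k := by
  unfold stabM
  rw [Subgroup.mem_iInf]
  rfl

theorem ker_le_stabM (A : 𝔊 →* Matrix κ κ F) (W : ρ → κ → F) : MonoidHom.ker A ≤ stabM A W := by
  intro g hg
  rw [mem_stabM]
  exact fun k => ker_le_stab A (W k) hg

theorem stabM_index [Finite F] (A : 𝔊 →* Matrix κ κ F) (W : ρ → κ → F) : (stabM A W).index ≠ 0 :=
  fun h => ker_index A (Nat.eq_zero_of_zero_dvd (h ▸ Subgroup.index_dvd_of_le (ker_le_stabM A W)))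

section
variable {Ω : Type} [CommRing Ω] [IsDomain Ω] (C : Coh F 𝔊 Ω) (A : 𝔊 →* Matrix κ κ F)
  (hA : IsOpen {g | A g = 1})

theorem rk_ind_mix [Fintype F] (W : ρ → κ → F) (hW : ∀ k, W k ≠ 0) (hS : (stabM A W).index ≠ 0)
    (d : (ρ → Fin (Fintype.card F - 1)) → ρ → ℕ)
    (hd : ∀ j k, (Fintype.card κ - 1) * (Fintype.card F - 1) < d j k)
    (hd2 : ∀ j k, d j k % (Fintype.card F - 1) = j k)
    (h0 : ∀ j, C.rk (Mx A hA (d j)) = 0) :
    C.rk (Ind A hA (stabM A W) hS (ker_le_stabM A W) (1 : Representation F (stabM A W) F)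
      (fun _ _ => rfl)) = 0 := by
  classical
  let E := (Fintype.equivFin (ρ → Fin (Fintype.card F - 1))).symm
  have hinv : ∀ (s : stabM A W) (g : 𝔊) (k : ρ),
      Matrix.vecMul (W k) (A (s * g)) = Matrix.vecMul (W k) (A g) := by
    intro s g k
    have hs : Matrix.vecMul (W k) (A s) = W k := (mem_stabM A W s).1 s.2 k
    rw [map_mul, ← Matrix.vecMul_vecMul, hs]
  let ev : 𝔊 → (ρ × κ → F) := fun g x => Matrix.vecMul (W x.1) (A g) x.2
  have hev : ∀ (s : stabM A W) (g : 𝔊), ev (s * g) = ev g := by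
    intro s g
    funext x
    exact congrFun (hinv s g x.1) x.2
  let t : Hom (sm fun a => Mx A hA (d (E a))) (Ind A hA (stabM A W) hS (ker_le_stabM A W)
      (1 : Representation F (stabM A W) F) (fun _ _ => rfl)) :=
    { f :=
        { toFun := fun f => ⟨fun g => ∑ a, MvPolynomial.eval (ev g) (f a).1, by
            intro s g
            show ∑ a, MvPolynomial.eval (ev (s * g)) (f a).1 =
              ∑ a, MvPolynomial.eval (ev g) (f a).1
            rw [hev]⟩
          map_add' := by
            intro f f'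
            apply Subtype.ext
            funext g
            show ∑ a, MvPolynomial.eval (ev g) ((f a).1 + (f' a).1) =
              ∑ a, MvPolynomial.eval (ev g) (f a).1 +
              ∑ a, MvPolynomial.eval (ev g) (f' a).1
            rw [← Finset.sum_add_distrib]
            exact Finset.sum_congr rfl fun a _ => map_add _ _ _
          map_smul' := by
            intro c f
            apply Subtype.ext
            funext g
            show ∑ a, MvPolynomial.eval (ev g) (c • (f a).1) =
              c * ∑ a, MvPolynomial.eval (ev g) (f a).1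
            rw [Finset.mul_sum]
            refine Finset.sum_congr rfl fun a _ => ?_
            rw [MvPolynomial.smul_eq_C_mul, map_mul, MvPolynomial.eval_C] }
      eq := by
        intro h f
        apply Subtype.ext
        funext g
        show ∑ a, MvPolynomial.eval (ev g) (substM ρ (A h) (f a).1) =
          ∑ a, MvPolynomial.eval (ev (g * h)) (f a).1
        refine Finset.sum_congr rfl fun a _ => ?_
        have h1 := eval_substM (A h) (fun k => Matrix.vecMul (W k) (A g)) (f a).1
        have h2 : (fun x : ρ × κ => Matrix.vecMul (Matrix.vecMul (W x.1) (A g)) (A h) x.2) =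
            ev (g * h) := by
          funext x
          show _ = Matrix.vecMul (W x.1) (A (g * h)) x.2
          rw [Matrix.vecMul_vecMul, map_mul]
        rw [← h2]
        exact h1 }
  have ht : Function.Surjective t.f := by
    intro φ
    obtain ⟨f, hf⟩ := interpM d hd hd2 (fun w : ρ → κ → F =>
      if h : ∃ g, (fun k => Matrix.vecMul (W k) (A g)) = w then φ.1 h.choose else 0)
    refine ⟨fun a => f (E a), Subtype.ext (funext fun g => ?_)⟩
    show ∑ a, MvPolynomial.eval (ev g) (f (E a)).1 = φ.1 g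
    rw [Equiv.sum_comp E (fun j => MvPolynomial.eval (ev g) (f j).1)]
    have hw : ∀ k, Matrix.vecMul (W k) (A g) ≠ 0 := by
      intro k h
      apply hW k
      have h1 : Matrix.vecMul (Matrix.vecMul (W k) (A g)) (A g⁻¹) = W k := by
        rw [Matrix.vecMul_vecMul, ← map_mul, mul_inv_cancel, map_one, Matrix.vecMul_one]
      rw [← h1, h, Matrix.zero_vecMul]
    have h5 := hf (fun k => Matrix.vecMul (W k) (A g)) hw
    refine h5.trans ?_
    have hex : ∃ g', (fun k => Matrix.vecMul (W k) (A g')) =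
        (fun k => Matrix.vecMul (W k) (A g)) := ⟨g, rfl⟩
    show (if h : ∃ g', (fun k => Matrix.vecMul (W k) (A g')) =
      (fun k => Matrix.vecMul (W k) (A g)) then φ.1 h.choose else 0) = _
    rw [dif_pos hex]
    have key : ∀ g', (fun k => Matrix.vecMul (W k) (A g')) =
        (fun k => Matrix.vecMul (W k) (A g)) → φ.1 g' = φ.1 g := by
      intro g' hg'
      have h1 : g * g'⁻¹ ∈ stabM A W := by
        rw [mem_stabM]
        intro k
        have hk : Matrix.vecMul (W k) (A g') = Matrix.vecMul (W k) (A g) := congrFun hg' k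
        rw [map_mul, ← Matrix.vecMul_vecMul, ← hk, Matrix.vecMul_vecMul, ← map_mul,
          mul_inv_cancel, map_one, Matrix.vecMul_one]
      have h2 : φ.1 (g * g'⁻¹ * g') = φ.1 g' := φ.2 ⟨_, h1⟩ g'
      rw [inv_mul_cancel_right] at h2
      exact h2.symm
    exact key _ hex.choose_spec
  have h2 := rk_le_of_surj C t ht
  have h3 := rk_sm_zero C (fun a => Mx A hA (d (E a))) (fun a => h0 _)
  omega

theorem nearW_zero [Fintype F] (p : ℕ) [Fact p.Prime] [CharP F p] (W : ρ → κ → F)
    (hW : ∀ k, W k ≠ 0) (d : (ρ → Fin (Fintype.card F - 1)) → ρ → ℕ)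
    (hd : ∀ j k, (Fintype.card κ - 1) * (Fintype.card F - 1) < d j k)
    (hd2 : ∀ j k, d j k % (Fintype.card F - 1) = j k)
    (h0 : ∀ j, C.rk (Mx A hA (d j)) = 0) (X : Rp F 𝔊) (hX : NearW A p W X) : C.rk X = 0 := by
  have hS := stabM_index A W
  have h1 := rk_ind_mix C A hA W hW hS d hd hd2 h0
  induction hX with
  | gen X h hX =>
    refine rk_gen C A hA (stabM A W) hS (ker_le_stabM A W) h1 X h fun V hV => hX V fun x hx => ?_
    exact hV x fun s hs => hx s ((mem_stabM A W s).1 hs)
  | unip X h hX =>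
    have := Subgroup.fintypeOfIndexNeZero hS
    have h2 := rk_le_of_surj C (counit A hA (stabM A W) hS (ker_le_stabM A W) X h)
      (counit_surj A hA (stabM A W) hS (ker_le_stabM A W) X h)
    have h3 := rk_ind_unip C A hA (stabM A W) hS (ker_le_stabM A W) p h1 _
      (X.ρ.comp (stabM A W).subtype) (fun s hs => h s hs)
      (fun s => hX s ((mem_stabM A W s).1 s.2)) rfl
    omega
  | ext f g h _ _ ih1 ih2 =>
    have h2 := rk_exact_le C f g h
    omega

theorem mix_dichotomy [Fintype F] (p : ℕ) [Fact p.Prime] [CharP F p] (ρ : Type) [Fintype ρ]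
    [DecidableEq ρ] :
    (∀ (W : ρ → κ → F), (∀ k, W k ≠ 0) → ∀ X : Rp F 𝔊, NearW A p W X → C.rk X = 0) ∨
    ∃ j : ρ → ℕ, (∀ k, j k < Fintype.card F - 1) ∧ ∀ i : ρ → ℕ,
      (∀ k, (Fintype.card κ - 1) * (Fintype.card F - 1) < i k ∧
        i k % (Fintype.card F - 1) = j k) → C.rk (Mx A hA i) ≠ 0 := by
  by_cases h : ∀ j : ρ → Fin (Fintype.card F - 1), ∃ i : ρ → ℕ,
      (∀ k, (Fintype.card κ - 1) * (Fintype.card F - 1) < i k ∧
        i k % (Fintype.card F - 1) = j k) ∧ C.rk (Mx A hA i) = 0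
  · left
    choose d hd h0 using h
    intro W hW X hX
    exact nearW_zero C A hA p W hW d (fun j k => (hd j k).1) (fun j k => (hd j k).2) h0 X hX
  · right
    push Not at h
    obtain ⟨j, hj⟩ := h
    exact ⟨fun k => j k, fun k => (j k).2, fun i hi => hj i hi⟩

end

theorem over_nearW (p : ℕ) [Fact p.Prime] [CharP F p] (A : 𝔊 →* Matrix κ κ F) (W : ρ → κ → F)
    (hW : ∀ s, (∀ k, Matrix.vecMul (W k) (A s) = W k) → ∃ m : ℕ, A s ^ p ^ m = 1)
    (X : Rp F 𝔊) (hX : Over A X) : NearW A p W X := by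
  induction hX with
  | base X h =>
    refine NearW.unip X h fun s hs => ?_
    obtain ⟨m, hm⟩ := hW s hs
    refine ⟨m, ?_⟩
    rw [← map_pow]
    apply h
    rw [map_pow]
    exact hm
  | ext f g h _ _ ih1 ih2 => exact NearW.ext f g h ih1 ih2

/-- If there are at least `n` factors, or `n = 2` and the determinant is one, then every
representation of the image is reached. -/
theorem exists_W [Nonempty κ] [Nonempty ρ] (p : ℕ) [Fact p.Prime] [CharP F p]
    (A : 𝔊 →* Matrix κ κ F) (h : Fintype.card κ ≤ Fintype.card ρ ∨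
      (Fintype.card κ = 2 ∧ ∀ g, (A g).det = 1)) :
    ∃ W : ρ → κ → F, (∀ k, W k ≠ 0) ∧
      ∀ s, (∀ k, Matrix.vecMul (W k) (A s) = W k) → ∃ m : ℕ, A s ^ p ^ m = 1 := by
  have hne : ∀ k : κ, (Pi.single k 1 : κ → F) ≠ 0 := by
    intro k h0
    have h1 := congrFun h0 k
    rw [Pi.single_eq_same] at h1
    exact one_ne_zero h1
  rcases h with h | ⟨h2, hdet⟩
  · obtain ⟨e⟩ := Function.Embedding.nonempty_of_card_le h
    refine ⟨fun k => Pi.single (Function.invFun e k) 1, fun k => hne _, fun s hs => ⟨0, ?_⟩⟩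
    rw [pow_zero, pow_one]
    funext a b
    obtain ⟨k, hk⟩ := Function.invFun_surjective e.injective a
    have h1 : Matrix.vecMul (Pi.single (Function.invFun e k) 1) (A s) b =
        (Pi.single (Function.invFun e k) 1 : κ → F) b := congrFun (hs k) b
    rw [hk, Matrix.single_one_vecMul] at h1
    change A s a b = (Pi.single a 1 : κ → F) b at h1
    rw [h1, Matrix.one_apply, Pi.single_apply]
    simp only [eq_comm]
  · obtain ⟨a⟩ := ‹Nonempty κ›
    obtain ⟨k⟩ := ‹Nonempty ρ›
    refine ⟨fun _ => Pi.single a 1, fun _ => hne a, fun s hs => ⟨1, ?_⟩⟩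
    rw [pow_one]
    exact sl2_unip p h2 (A s) (hdet s) _ (hne a) (hs k)

end Pool.Agent.K6.H45.MU
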