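import Pool.Agent.K6.H45.MU.SymPoly

/-!
Symmetric powers and the `μ`-invariant (MP_519cc8_nt): the dichotomy.
-/

set_option autoImplicit false

open Module

namespace Pool.Agent.K6.H45.MU

variable {F : Type} [Field F] {𝔊 : Type} [Group 𝔊] [TopologicalSpace 𝔊] [IsTopologicalGroup 𝔊]
variable {κ : Type} [Fintype κ] [DecidableEq κ]

/-- the stabiliser of a row vector -/
def stab (A : 𝔊 →* Matrix κ κ F) (v : κ → F) : Subgroup 𝔊 where
  carrier := {g | Matrix.vecMul v (A g) = v}
  one_mem' := by
    show Matrix.vecMul v (A 1) = v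
    rw [map_one, Matrix.vecMul_one]
  mul_mem' := by
    intro g h hg hh
    show Matrix.vecMul v (A (g * h)) = v
    have hg' : Matrix.vecMul v (A g) = v := hg
    have hh' : Matrix.vecMul v (A h) = v := hh
    rw [map_mul, ← Matrix.vecMul_vecMul, hg', hh']
  inv_mem' := by
    intro g hg
    show Matrix.vecMul v (A g⁻¹) = v
    have hg' : Matrix.vecMul v (A g) = v := hg
    conv_lhs => rw [← hg']
    rw [Matrix.vecMul_vecMul, ← map_mul, mul_inv_cancel, map_one, Matrix.vecMul_one]

theorem ker_le_stab (A : 𝔊 →* Matrix κ κ F) (v : κ → F) : MonoidHom.ker A ≤ stab A v := by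
  intro g hg
  have hg' : A g = 1 := hg
  show Matrix.vecMul v (A g) = v
  rw [hg', Matrix.vecMul_one]

theorem stab_index [Finite F] (A : 𝔊 →* Matrix κ κ F) (v : κ → F) : (stab A v).index ≠ 0 :=
  fun h => ker_index A (Nat.eq_zero_of_zero_dvd (h ▸ Subgroup.index_dvd_of_le (ker_le_stab A v)))

/-- a linear `p`-group over a finite field of characteristic `p` fixes a nonzero vector -/
theorem exists_fixed [Finite F] (p : ℕ) [Fact p.Prime] [CharP F p] {S : Type} [Group S] {Y : Type}
    [AddCommGroup Y] [Module F Y] [Module.Finite F Y] [Nontrivial Y] (σ : Representation F S Y)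
    (hσ : ∀ s, ∃ k : ℕ, σ s ^ p ^ k = 1) : ∃ y : Y, y ≠ 0 ∧ ∀ s, σ s y = y := by
  have := Fintype.ofFinite F
  letI : MulAction S Y :=
    { smul := fun s y => σ s y
      one_smul := fun y => by
        show σ 1 y = y
        rw [map_one]
        rfl
      mul_smul := fun s t y => by
        show σ (s * t) y = σ s (σ t y)
        rw [map_mul]
        rfl }
  let θ : S →* Equiv.Perm Y := MulAction.toPermHom S Y
  have hθ : ∀ s y, θ s y = σ s y := fun _ _ => rfl
  have hG : IsPGroup p θ.range := by
    rintro ⟨_, s, rfl⟩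
    obtain ⟨k, hk⟩ := hσ s
    refine ⟨k, Subtype.ext ?_⟩
    show θ s ^ p ^ k = 1
    rw [← map_pow]
    ext y
    rw [hθ, map_pow, hk]
    rfl
  have : Finite Y := Module.finite_of_finite F
  have hcard : p ∣ Nat.card Y := by
    have h1 : Nat.card Y = Nat.card F ^ finrank F Y := Module.natCard_eq_pow_finrank
    have h2 : p ∣ Nat.card F := by
      rw [← CharP.cast_eq_zero_iff F p, Nat.card_eq_fintype_card, FiniteField.cast_card_eq_zero]
    rw [h1]
    exact dvd_pow h2 (Module.finrank_pos (R := F) (M := Y)).ne'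
  obtain ⟨b, hb, hb0⟩ := hG.exists_fixed_point_of_prime_dvd_card_of_fixed_point Y hcard
    (a := (0 : Y)) (by
      rintro ⟨_, s, rfl⟩
      show σ s 0 = 0
      rw [map_zero])
  refine ⟨b, hb0.symm, fun s => ?_⟩
  exact hb ⟨θ s, s, rfl⟩

section
variable {Ω : Type} [CommRing Ω] [IsDomain Ω] (C : Coh F 𝔊 Ω) (A : 𝔊 →* Matrix κ κ F)
  (hA : IsOpen {g | A g = 1})

section
variable (S : Subgroup 𝔊) (hS : S.index ≠ 0) (hAS : MonoidHom.ker A ≤ S)

theorem rk_ind_unip [Finite F] (p : ℕ) [Fact p.Prime] [CharP F p]
    (h1 : C.rk (Ind A hA S hS hAS (1 : Representation F S F) (fun _ _ => rfl)) = 0) (d : ℕ) :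
    ∀ {Y : Type} [AddCommGroup Y] [Module F Y] [Module.Finite F Y] (σ : Representation F S Y)
      (hσ : ∀ s : S, A s = 1 → σ s = 1) (_ : ∀ s, ∃ k : ℕ, σ s ^ p ^ k = 1) (_ : finrank F Y = d),
      C.rk (Ind A hA S hS hAS σ hσ) = 0 := by
  induction d using Nat.strong_induction_on with
  | _ d ih =>
    intro Y _ _ _ σ hσ hp hd
    rcases subsingleton_or_nontrivial Y with hY | hY
    · refine rk_zero C fun z => ?_
      apply Subtype.ext
      funext g
      exact Subsingleton.elim _ _
    · obtain ⟨y, hy0, hy⟩ := exists_fixed p σ hp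
      let L : Submodule F Y := Submodule.span F {y}
      have hL : ∀ s, L ≤ L.comap (σ s) := by
        intro s
        refine (Submodule.span_singleton_le_iff_mem _ _).2 ?_
        show σ s y ∈ L
        rw [hy s]
        exact Submodule.mem_span_singleton_self y
      let τ : Representation F S (Y ⧸ L) :=
        { toFun := fun s => L.mapQ L (σ s) (hL s)
          map_one' := by
            refine LinearMap.ext fun z => ?_
            obtain ⟨z, rfl⟩ := Submodule.mkQ_surjective L z
            show L.mkQ (σ 1 z) = L.mkQ z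
            rw [map_one]
            rfl
          map_mul' := fun s t => by
            refine LinearMap.ext fun z => ?_
            obtain ⟨z, rfl⟩ := Submodule.mkQ_surjective L z
            show L.mkQ (σ (s * t) z) = L.mkQ (σ s (σ t z))
            rw [map_mul]
            rfl }
      have hτ0 : ∀ s z, τ s (L.mkQ z) = L.mkQ (σ s z) := fun _ _ => rfl
      have hτ : ∀ s : S, A s = 1 → τ s = 1 := by
        intro s hs
        refine LinearMap.ext fun z => ?_
        obtain ⟨z, rfl⟩ := Submodule.mkQ_surjective L z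
        rw [hτ0, hσ s hs]
        rfl
      have hτp : ∀ s, ∃ k : ℕ, τ s ^ p ^ k = 1 := by
        intro s
        obtain ⟨k, hk⟩ := hp s
        refine ⟨k, ?_⟩
        rw [← map_pow] at hk ⊢
        refine LinearMap.ext fun z => ?_
        obtain ⟨z, rfl⟩ := Submodule.mkQ_surjective L z
        rw [hτ0, hk]
        rfl
      have hlt : finrank F (Y ⧸ L) < d := by
        have h2 := L.finrank_quotient_add_finrank
        have h3 : finrank F L = 1 := finrank_span_singleton hy0
        omega
      have h2 := ih _ hlt τ hτ hτp rfl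
      let f : F →ₗ[F] Y := LinearMap.toSpanSingleton F Y y
      have hf : ∀ (s : S) (c : F), f ((1 : Representation F S F) s c) = σ s (f c) := by
        intro s c
        show c • y = σ s (c • y)
        rw [map_smul, hy s]
      have hex : Exact (indHom A hA S hS hAS (1 : Representation F S F) σ (fun _ _ => rfl) hσ f hf)
          (indHom A hA S hS hAS σ τ hσ hτ L.mkQ (fun s z => rfl)) := by
        refine ⟨?_, ?_, ?_⟩
        · intro φ ψ h
          apply Subtype.ext
          funext g
          have h3 : φ.1 g • y = ψ.1 g • y := congrFun (congrArg Subtype.val h) g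
          exact smul_left_injective F hy0 h3
        · intro ψ
          obtain ⟨φ, hφ⟩ := indHom_surj S σ τ L.mkQ (fun s z => rfl)
            (Submodule.mkQ_surjective L) ψ
          exact ⟨φ, Subtype.ext (funext hφ)⟩
        · intro φ
          constructor
          · intro h
            have h3 : ∀ g, ∃ c : F, c • y = φ.1 g := by
              intro g
              have h4 : L.mkQ (φ.1 g) = 0 := congrFun (congrArg Subtype.val h) g
              rw [Submodule.mkQ_apply, Submodule.Quotient.mk_eq_zero] at h4
              exact Submodule.mem_span_singleton.1 h4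
            choose c hc using h3
            refine ⟨⟨c, fun s g => ?_⟩, Subtype.ext (funext hc)⟩
            show c (s * g) = c g
            apply smul_left_injective F hy0
            show c (s * g) • y = c g • y
            rw [hc, hc, φ.2 s g, ← hc g, map_smul, hy s]
          · rintro ⟨ψ, rfl⟩
            apply Subtype.ext
            funext g
            show L.mkQ (ψ.1 g • y) = 0
            rw [Submodule.mkQ_apply, Submodule.Quotient.mk_eq_zero]
            exact Submodule.smul_mem _ _ (Submodule.mem_span_singleton_self y)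
      have h3 := rk_exact_le C _ _ hex
      omega

theorem rk_gen [Finite F]
    (h1 : C.rk (Ind A hA S hS hAS (1 : Representation F S F) (fun _ _ => rfl)) = 0)
    (X : Rp F 𝔊) (h : ∀ g : 𝔊, A g = 1 → X.ρ g = 1)
    (hX : ∀ W : Submodule F X.N, (∀ x : X.N, (∀ s ∈ S, X.ρ s x = x) →
        ∀ g : 𝔊, X.ρ g x ∈ W) → W = ⊤) : C.rk X = 0 := by
  classical
  have := Subgroup.fintypeOfIndexNeZero hS
  have : Finite X.N := Module.finite_of_finite F
  have := Fintype.ofFinite {x : X.N // ∀ s ∈ S, X.ρ s x = x}
  let u : ∀ x : {x : X.N // ∀ s ∈ S, X.ρ s x = x},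
      Hom (Ind A hA S hS hAS (1 : Representation F S F) (fun _ _ => rfl)) X := fun x =>
    (counit A hA S hS hAS X h).comp (indHom A hA S hS hAS (1 : Representation F S F)
      (X.ρ.comp S.subtype) (fun _ _ => rfl) (fun s hs => h s hs)
      (LinearMap.toSpanSingleton F X.N x.1) (fun s c => by
        show c • x.1 = X.ρ s (c • x.1)
        rw [map_smul, x.2 s s.2]))
  let t : Hom (pw (Ind A hA S hS hAS (1 : Representation F S F) (fun _ _ => rfl))
      {x : X.N // ∀ s ∈ S, X.ρ s x = x}) X :=
    { f :=
        { toFun := fun Φ => ∑ x, (u x).f (Φ x)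
          map_add' := by
            intro Φ Ψ
            rw [← Finset.sum_add_distrib]
            exact Finset.sum_congr rfl fun x _ => map_add _ _ _
          map_smul' := by
            intro c Φ
            rw [RingHom.id_apply, Finset.smul_sum]
            exact Finset.sum_congr rfl fun x _ => (u x).f.map_smul c (Φ x) }
      eq := by
        intro g Φ
        show ∑ x, (u x).f ((Ind A hA S hS hAS (1 : Representation F S F) (fun _ _ => rfl)).ρ g
          (Φ x)) = X.ρ g (∑ x, (u x).f (Φ x))
        rw [map_sum]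
        exact Finset.sum_congr rfl fun x _ => (u x).eq g (Φ x) }
  have ht : Function.Surjective t.f := by
    rw [← LinearMap.range_eq_top]
    apply hX
    intro x hx g
    let δ : indN S (1 : Representation F S F) := ⟨fun g => if g ∈ S then 1 else 0, by
      intro s g
      show (if (s : 𝔊) * g ∈ S then (1 : F) else 0) = if g ∈ S then 1 else 0
      rw [Subgroup.mul_mem_cancel_left S s.2]⟩
    have h2 : (u ⟨x, hx⟩).f δ = x := by
      show ∑ q : 𝔊 ⧸ S, X.ρ q.out ((if (q.out)⁻¹ ∈ S then (1 : F) else 0) • x) = x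
      rw [Finset.sum_eq_single (QuotientGroup.mk 1 : 𝔊 ⧸ S)]
      · have h3 : (QuotientGroup.mk (QuotientGroup.mk 1 : 𝔊 ⧸ S).out : 𝔊 ⧸ S) =
          QuotientGroup.mk 1 := QuotientGroup.out_eq' _
        have h4 := QuotientGroup.eq.1 h3
        rw [mul_one] at h4
        rw [if_pos h4, one_smul]
        exact hx _ ((Subgroup.inv_mem_iff S).1 h4)
      · intro q _ hq
        rw [if_neg, zero_smul, map_zero]
        intro h
        apply hq
        rw [← QuotientGroup.out_eq' q, QuotientGroup.eq, mul_one]
        exact h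
      · intro h
        exact absurd (Finset.mem_univ _) h
    rw [LinearMap.mem_range]
    refine ⟨(pw (Ind A hA S hS hAS (1 : Representation F S F) (fun _ _ => rfl))
      {x : X.N // ∀ s ∈ S, X.ρ s x = x}).ρ g (Pi.single ⟨x, hx⟩ δ), ?_⟩
    rw [t.eq]
    congr 1
    show ∑ y, (u y).f ((Pi.single ⟨x, hx⟩ δ : {x : X.N // ∀ s ∈ S, X.ρ s x = x} →
      indN S (1 : Representation F S F)) y) = x
    rw [Finset.sum_eq_single (⟨x, hx⟩ : {x : X.N // ∀ s ∈ S, X.ρ s x = x})]
    · rw [Pi.single_eq_same]
      exact h2
    · intro y _ hy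
      rw [Pi.single_eq_of_ne hy]
      exact map_zero _
    · intro h
      exact absurd (Finset.mem_univ _) h
  have h2 := rk_le_of_surj C t ht
  rw [rk_pw, h1, mul_zero] at h2
  omega

end

theorem rk_ind_sym [Fintype F] (v : κ → F) (hv : v ≠ 0) (hS : (stab A v).index ≠ 0)
    (d : Fin (Fintype.card F - 1) → ℕ)
    (hd : ∀ j, (Fintype.card κ - 1) * (Fintype.card F - 1) < d j)
    (hd2 : ∀ j, d j % (Fintype.card F - 1) = j)
    (h0 : ∀ j, C.rk (Sy A hA (d j)) = 0) :
    C.rk (Ind A hA (stab A v) hS (ker_le_stab A v) (1 : Representation F (stab A v) F)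
      (fun _ _ => rfl)) = 0 := by
  classical
  have hinv : ∀ (s : stab A v) (g : 𝔊), Matrix.vecMul v (A (s * g)) = Matrix.vecMul v (A g) := by
    intro s g
    have hs : Matrix.vecMul v (A s) = v := s.2
    rw [map_mul, ← Matrix.vecMul_vecMul, hs]
  let t : Hom (sm fun j => Sy A hA (d j)) (Ind A hA (stab A v) hS (ker_le_stab A v)
      (1 : Representation F (stab A v) F) (fun _ _ => rfl)) :=
    { f :=
        { toFun := fun f => ⟨fun g => ∑ j, MvPolynomial.eval (Matrix.vecMul v (A g)) (f j).1, by
            intro s g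
            show ∑ j, MvPolynomial.eval (Matrix.vecMul v (A (s * g))) (f j).1 =
              ∑ j, MvPolynomial.eval (Matrix.vecMul v (A g)) (f j).1
            rw [hinv]⟩
          map_add' := by
            intro f f'
            apply Subtype.ext
            funext g
            show ∑ j, MvPolynomial.eval (Matrix.vecMul v (A g)) ((f j).1 + (f' j).1) =
              ∑ j, MvPolynomial.eval (Matrix.vecMul v (A g)) (f j).1 +
              ∑ j, MvPolynomial.eval (Matrix.vecMul v (A g)) (f' j).1
            rw [← Finset.sum_add_distrib]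
            exact Finset.sum_congr rfl fun j _ => map_add _ _ _
          map_smul' := by
            intro c f
            apply Subtype.ext
            funext g
            show ∑ j, MvPolynomial.eval (Matrix.vecMul v (A g)) (c • (f j).1) =
              c * ∑ j, MvPolynomial.eval (Matrix.vecMul v (A g)) (f j).1
            rw [Finset.mul_sum]
            refine Finset.sum_congr rfl fun j _ => ?_
            rw [MvPolynomial.smul_eq_C_mul, map_mul, MvPolynomial.eval_C] }
      eq := by
        intro h f
        apply Subtype.ext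
        funext g
        show ∑ j, MvPolynomial.eval (Matrix.vecMul v (A g)) (subst (A h) (f j).1) =
          ∑ j, MvPolynomial.eval (Matrix.vecMul v (A (g * h))) (f j).1
        refine Finset.sum_congr rfl fun j _ => ?_
        rw [eval_subst, Matrix.vecMul_vecMul, map_mul] }
  have ht : Function.Surjective t.f := by
    intro φ
    obtain ⟨f, hf⟩ := interp d hd hd2 (fun w =>
      if h : ∃ g, Matrix.vecMul v (A g) = w then φ.1 h.choose else 0)
    refine ⟨f, Subtype.ext (funext fun g => ?_)⟩
    show ∑ j, MvPolynomial.eval (Matrix.vecMul v (A g)) (f j).1 = φ.1 g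
    have hw : Matrix.vecMul v (A g) ≠ 0 := by
      intro h
      apply hv
      have h1 : Matrix.vecMul (Matrix.vecMul v (A g)) (A g⁻¹) = v := by
        rw [Matrix.vecMul_vecMul, ← map_mul, mul_inv_cancel, map_one, Matrix.vecMul_one]
      rw [← h1, h, Matrix.zero_vecMul]
    rw [hf _ hw]
    have hex : ∃ g', Matrix.vecMul v (A g') = Matrix.vecMul v (A g) := ⟨g, rfl⟩
    show (if h : ∃ g', Matrix.vecMul v (A g') = Matrix.vecMul v (A g) then φ.1 h.choose else 0) = _
    rw [dif_pos hex]
    have key : ∀ g', Matrix.vecMul v (A g') = Matrix.vecMul v (A g) → φ.1 g' = φ.1 g := by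
      intro g' hg'
      have h1 : g * g'⁻¹ ∈ stab A v := by
        show Matrix.vecMul v (A (g * g'⁻¹)) = v
        rw [map_mul, ← Matrix.vecMul_vecMul, ← hg', Matrix.vecMul_vecMul, ← map_mul,
          mul_inv_cancel, map_one, Matrix.vecMul_one]
      have h2 : φ.1 (g * g'⁻¹ * g') = φ.1 g' := φ.2 ⟨_, h1⟩ g'
      rw [inv_mul_cancel_right] at h2
      exact h2.symm
    exact key _ hex.choose_spec
  have h2 := rk_le_of_surj C t ht
  have h3 := rk_sm_zero C (fun j => Sy A hA (d j)) h0
  omega

theorem near_zero [Fintype F] (p : ℕ) [Fact p.Prime] [CharP F p] (v : κ → F) (hv : v ≠ 0)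
    (d : Fin (Fintype.card F - 1) → ℕ)
    (hd : ∀ j, (Fintype.card κ - 1) * (Fintype.card F - 1) < d j)
    (hd2 : ∀ j, d j % (Fintype.card F - 1) = j)
    (h0 : ∀ j, C.rk (Sy A hA (d j)) = 0) (X : Rp F 𝔊) (hX : Near A p v X) : C.rk X = 0 := by
  have hS := stab_index A v
  have h1 := rk_ind_sym C A hA v hv hS d hd hd2 h0
  induction hX with
  | gen X h hX => exact rk_gen C A hA (stab A v) hS (ker_le_stab A v) h1 X h hX
  | unip X h hX =>
    have := Subgroup.fintypeOfIndexNeZero hS
    have h2 := rk_le_of_surj C (counit A hA (stab A v) hS (ker_le_stab A v) X h)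
      (counit_surj A hA (stab A v) hS (ker_le_stab A v) X h)
    have h3 := rk_ind_unip C A hA (stab A v) hS (ker_le_stab A v) p h1 _
      (X.ρ.comp (stab A v).subtype) (fun s hs => h s hs) (fun s => hX s s.2) rfl
    omega
  | ext f g h _ _ ih1 ih2 =>
    have h2 := rk_exact_le C f g h
    omega

theorem sym_dichotomy [Fintype F] (p : ℕ) [Fact p.Prime] [CharP F p] :
    (∀ (v : κ → F), v ≠ 0 → ∀ X : Rp F 𝔊, Near A p v X → C.rk X = 0) ∨
    ∃ j < Fintype.card F - 1, ∀ i, (Fintype.card κ - 1) * (Fintype.card F - 1) < i →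
      i % (Fintype.card F - 1) = j → C.rk (Sy A hA i) ≠ 0 := by
  by_cases h : ∀ j : Fin (Fintype.card F - 1), ∃ i, (Fintype.card κ - 1) * (Fintype.card F - 1) < i ∧
      i % (Fintype.card F - 1) = j ∧ C.rk (Sy A hA i) = 0
  · left
    choose d hd hd2 h0 using h
    intro v hv X hX
    exact near_zero C A hA p v hv d hd hd2 h0 X hX
  · right
    push Not at h
    obtain ⟨j, hj⟩ := h
    exact ⟨j, j.2, fun i hi hij => hj i hi hij⟩

end

end Pool.Agent.K6.H45.MU
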