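import Pool.Agent.K6.H45.MU.MixDefs
import Pool.Agent.K6.H45.MU.SymMain

/-!
Products of symmetric powers and the `μ`-invariant (MP_519cc8_nt): interpolation.
-/

set_option autoImplicit false

open Module

namespace Pool.Agent.K6.H45.MU

variable {F : Type} [Field F] {κ : Type} [Fintype κ] [DecidableEq κ] {ρ : Type} [Fintype ρ]
  [DecidableEq ρ]

theorem eval_substM (a : Matrix κ κ F) (w : ρ → κ → F) (f : MvPolynomial (ρ × κ) F) :
    MvPolynomial.eval (fun x : ρ × κ => w x.1 x.2) (substM ρ a f) =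
      MvPolynomial.eval (fun x : ρ × κ => Matrix.vecMul (w x.1) a x.2) f := by
  unfold substM
  induction f using MvPolynomial.induction_on with
  | C c =>
    rw [MvPolynomial.aeval_C, MvPolynomial.algebraMap_eq, MvPolynomial.eval_C, MvPolynomial.eval_C]
  | add f g hf hg => rw [map_add, map_add, map_add, hf, hg]
  | mul_X f j hf =>
    rw [map_mul, map_mul, map_mul, hf, MvPolynomial.aeval_X, MvPolynomial.eval_X, map_sum]
    congr 1
    show _ = ∑ k, w j.1 k * a k j.2
    refine Finset.sum_congr rfl fun k _ => ?_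
    rw [map_mul, MvPolynomial.eval_C, MvPolynomial.eval_X, mul_comm]

/-- a homogeneous polynomial in the `k`-th row -/
theorem rename_multi (k : ρ) (f : MvPolynomial κ F) (i : ℕ)
    (hf : f ∈ MvPolynomial.homogeneousSubmodule κ F i) :
    MvPolynomial.IsWeightedHomogeneous (wt ρ κ) (MvPolynomial.rename (Prod.mk k) f)
      (Pi.single k i : ρ → ℕ) := by
  have h1 : MvPolynomial.rename (Prod.mk k) f =
      MvPolynomial.aeval (fun j => (MvPolynomial.X (k, j) : MvPolynomial (ρ × κ) F)) f := by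
    have h0 : (MvPolynomial.rename (Prod.mk k) : MvPolynomial κ F →ₐ[F] MvPolynomial (ρ × κ) F) =
        MvPolynomial.aeval (fun j => (MvPolynomial.X (k, j) : MvPolynomial (ρ × κ) F)) := by
      apply MvPolynomial.algHom_ext
      intro j
      rw [MvPolynomial.rename_X, MvPolynomial.aeval_X]
    rw [h0]
  rw [h1]
  refine aeval_wh (fun _ : κ => (Pi.single k 1 : ρ → ℕ)) (wt ρ κ) _
    (fun j => MvPolynomial.isWeightedHomogeneous_X F (wt ρ κ) (k, j)) f _ ?_
  intro d hd
  have h2 : Finsupp.weight (1 : κ → ℕ) d = i := hf hd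
  rw [Finsupp.weight_apply] at h2 ⊢
  funext l
  simp only [Finsupp.sum, Finset.sum_apply, Pi.smul_apply, Pi.one_apply, smul_eq_mul,
    mul_one] at h2 ⊢
  rw [← Finset.sum_mul, h2]
  by_cases hl : l = k
  · subst hl
    rw [Pi.single_eq_same, Pi.single_eq_same, mul_one]
  · rw [Pi.single_eq_of_ne hl, Pi.single_eq_of_ne hl, mul_zero]

variable [Fintype F]

/-- the delta polynomial at a matrix -/
noncomputable def delM (v : ρ → κ → F) (a : ρ → κ) (i : ρ → ℕ) : MvPolynomial (ρ × κ) F :=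
  ∏ k, MvPolynomial.rename (Prod.mk k) (del (v k) (a k) (i k))

theorem delM_multi (v : ρ → κ → F) (a : ρ → κ) (i : ρ → ℕ)
    (hi : ∀ k, (Fintype.card κ - 1) * (Fintype.card F - 1) < i k) : delM v a i ∈ multi F ρ κ i := by
  have h1 : MvPolynomial.IsWeightedHomogeneous (wt ρ κ) (delM v a i)
      (∑ k, (Pi.single k (i k) : ρ → ℕ)) := by
    apply MvPolynomial.IsWeightedHomogeneous.prod
    intro k _
    exact rename_multi k _ _ (del_hom (v k) (a k) (i k) (hi k))
  rw [Finset.univ_sum_single] at h1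
  exact h1

theorem eval_delM (v w : ρ → κ → F) (a : ρ → κ) (i : ρ → ℕ) :
    MvPolynomial.eval (fun x : ρ × κ => w x.1 x.2) (delM v a i) =
      ∏ k, MvPolynomial.eval (w k) (del (v k) (a k) (i k)) := by
  unfold delM
  rw [map_prod]
  refine Finset.prod_congr rfl fun k _ => ?_
  rw [MvPolynomial.eval_rename]
  rfl

theorem sum_delM_self (v : ρ → κ → F) (a : ρ → κ) (ha : ∀ k, v k (a k) ≠ 0)
    (d : (ρ → Fin (Fintype.card F - 1)) → ρ → ℕ)
    (hd : ∀ j k, (Fintype.card κ - 1) * (Fintype.card F - 1) < d j k) :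
    ∑ j, MvPolynomial.eval (fun x : ρ × κ => v x.1 x.2) (delM v a (d j)) =
      (-1) ^ Fintype.card ρ := by
  have h1 : ∀ j, MvPolynomial.eval (fun x : ρ × κ => v x.1 x.2) (delM v a (d j)) = 1 := by
    intro j
    rw [eval_delM]
    refine Finset.prod_eq_one fun k _ => ?_
    have h2 := eval_del_smul (v k) (a k) (ha k) _ (hd j k) 1 one_ne_zero
    rwa [one_smul, one_pow] at h2
  simp only [h1]
  rw [Finset.sum_const, Finset.card_univ, Fintype.card_fun, Fintype.card_fin, nsmul_eq_mul,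
    mul_one, Nat.cast_pow, Nat.cast_sub Fintype.card_pos, FiniteField.cast_card_eq_zero,
    Nat.cast_one, zero_sub]

theorem sum_delM_ne (v w : ρ → κ → F) (a : ρ → κ) (ha : ∀ k, v k (a k) ≠ 0)
    (d : (ρ → Fin (Fintype.card F - 1)) → ρ → ℕ)
    (hd : ∀ j k, (Fintype.card κ - 1) * (Fintype.card F - 1) < d j k)
    (hd2 : ∀ j k, d j k % (Fintype.card F - 1) = j k) (hw : w ≠ v) :
    ∑ j, MvPolynomial.eval (fun x : ρ × κ => w x.1 x.2) (delM v a (d j)) = 0 := by
  simp only [eval_delM]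
  by_cases h : ∀ k, ∃ c : F, c ≠ 0 ∧ w k = c • v k
  · choose c hc hcw using h
    have h1 : ∀ j k, MvPolynomial.eval (w k) (del (v k) (a k) (d j k)) = c k ^ ((j k : ℕ)) := by
      intro j k
      rw [hcw k, eval_del_smul (v k) (a k) (ha k) _ (hd j k) (c k) (hc k),
        ← Nat.mod_add_div (d j k) (Fintype.card F - 1), hd2, pow_add, pow_mul,
        FiniteField.pow_card_sub_one_eq_one (c k) (hc k), one_pow, mul_one]
    simp only [h1]
    have h2 : ∑ j : ρ → Fin (Fintype.card F - 1), ∏ k, c k ^ ((j k : ℕ)) =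
        ∏ k, ∑ i : Fin (Fintype.card F - 1), c k ^ (i : ℕ) := by
      rw [Finset.prod_univ_sum, Fintype.piFinset_univ]
    rw [h2]
    obtain ⟨k, hk⟩ := Function.ne_iff.1 hw
    apply Finset.prod_eq_zero (Finset.mem_univ k)
    rw [Fin.sum_univ_eq_sum_range (fun i => c k ^ i)]
    have hc1 : c k ≠ 1 := by
      intro h1
      apply hk
      rw [hcw k, h1, one_smul]
    have h3 : (c k - 1) * ∑ i ∈ Finset.range (Fintype.card F - 1), c k ^ i = 0 := by
      rw [mul_geom_sum, FiniteField.pow_card_sub_one_eq_one (c k) (hc k), sub_self]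
    exact (mul_eq_zero.1 h3).resolve_left (sub_ne_zero.2 hc1)
  · push Not at h
    obtain ⟨k, hk⟩ := h
    refine Finset.sum_eq_zero fun j _ => Finset.prod_eq_zero (Finset.mem_univ k) ?_
    exact eval_del_zero (v k) (a k) (ha k) _ (hd j k) (w k) hk

/-- Every function on the matrices with nonzero rows is a sum of multihomogeneous polynomials of the
given degrees. -/
theorem interpM (d : (ρ → Fin (Fintype.card F - 1)) → ρ → ℕ)
    (hd : ∀ j k, (Fintype.card κ - 1) * (Fintype.card F - 1) < d j k)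
    (hd2 : ∀ j k, d j k % (Fintype.card F - 1) = j k) (φ : (ρ → κ → F) → F) :
    ∃ f : ∀ j, multi F ρ κ (d j), ∀ w : ρ → κ → F, (∀ k, w k ≠ 0) →
      ∑ j, MvPolynomial.eval (fun x : ρ × κ => w x.1 x.2) (f j).1 = φ w := by
  classical
  have hk : ∀ v : {v : ρ → κ → F // ∀ k, v k ≠ 0}, ∀ k, ∃ a, v.1 k a ≠ 0 :=
    fun v k => Function.ne_iff.1 (v.2 k)
  choose a ha using hk
  refine ⟨fun j => ⟨∑ v : {v : ρ → κ → F // ∀ k, v k ≠ 0},
    MvPolynomial.C ((-1) ^ Fintype.card ρ * φ v.1) * delM v.1 (a v) (d j),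
    Submodule.sum_mem _ fun v _ => ?_⟩, fun w hw => ?_⟩
  · rw [← MvPolynomial.smul_eq_C_mul]
    exact Submodule.smul_mem _ _ (delM_multi v.1 (a v) (d j) (hd j))
  · show ∑ j, MvPolynomial.eval (fun x : ρ × κ => w x.1 x.2)
      (∑ v : {v : ρ → κ → F // ∀ k, v k ≠ 0},
        MvPolynomial.C ((-1) ^ Fintype.card ρ * φ v.1) * delM v.1 (a v) (d j)) = φ w
    simp only [map_sum, map_mul, MvPolynomial.eval_C]
    rw [Finset.sum_comm]
    rw [Finset.sum_eq_single (⟨w, hw⟩ : {v : ρ → κ → F // ∀ k, v k ≠ 0})]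
    · rw [← Finset.mul_sum, sum_delM_self w (a ⟨w, hw⟩) (ha ⟨w, hw⟩) d hd]
      have h1 : ((-1 : F)) ^ Fintype.card ρ * (-1) ^ Fintype.card ρ = 1 := by
        rw [← mul_pow, neg_one_mul, neg_neg, one_pow]
      linear_combination φ w * h1
    · intro v _ hv
      rw [← Finset.mul_sum, sum_delM_ne v.1 w (a v) (ha v) d hd hd2
        (fun h => hv (Subtype.ext h.symm)), mul_zero]
    · intro h
      exact absurd (Finset.mem_univ _) h

end Pool.Agent.K6.H45.MU
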