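import Pool.Agent.K6.H45.MU.Theta

/-!
Tensor powers and the `μ`-invariant (MP_519cc8_nt): all representations of the image.
-/

set_option autoImplicit false

open Module

namespace Pool.Agent.K6.H45.MU

variable {F : Type} [Field F] {𝔊 : Type} [Group 𝔊] [TopologicalSpace 𝔊] [IsTopologicalGroup 𝔊]

/-- the direct sum of finitely many representations -/
def sm {a : ℕ} (Z : Fin a → Rp F 𝔊) : Rp F 𝔊 where
  N := ∀ i, (Z i).N
  ρ :=
    { toFun := fun g => LinearMap.pi fun i => (Z i).ρ g ∘ₗ LinearMap.proj i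
      map_one' := by
        refine LinearMap.ext fun v => ?_
        funext i
        show (Z i).ρ 1 (v i) = v i
        rw [map_one]
        rfl
      map_mul' := fun g h => by
        refine LinearMap.ext fun v => ?_
        funext i
        show (Z i).ρ (g * h) (v i) = (Z i).ρ g ((Z i).ρ h (v i))
        rw [map_mul]
        rfl }
  cont := by
    let K : Subgroup 𝔊 := ⨅ i, MonoidHom.ker (Z i).ρ
    have hK : IsOpen (K : Set 𝔊) := by
      have h1 : (K : Set 𝔊) = ⋂ i, {g | (Z i).ρ g = 1} := by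
        ext g
        rw [SetLike.mem_coe, Subgroup.mem_iInf, Set.mem_iInter]
        rfl
      rw [h1]
      exact isOpen_iInter_of_finite fun i => (Z i).cont
    let r : Representation F 𝔊 (∀ i, (Z i).N) :=
      { toFun := fun g => LinearMap.pi fun i => (Z i).ρ g ∘ₗ LinearMap.proj i
        map_one' := by
          refine LinearMap.ext fun v => ?_
          funext i
          show (Z i).ρ 1 (v i) = v i
          rw [map_one]
          rfl
        map_mul' := fun g h => by
          refine LinearMap.ext fun v => ?_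
          funext i
          show (Z i).ρ (g * h) (v i) = (Z i).ρ g ((Z i).ρ h (v i))
          rw [map_mul]
          rfl }
    have h2 : K ≤ MonoidHom.ker r := by
      intro g hg
      have hg' : ∀ i, (Z i).ρ g = 1 := fun i => Subgroup.mem_iInf.1 hg i
      show r g = 1
      refine LinearMap.ext fun v => ?_
      funext i
      show (Z i).ρ g (v i) = v i
      rw [hg' i]
      rfl
    exact Subgroup.isOpen_mono h2 hK

theorem rk_sm_zero {Ω : Type} [CommRing Ω] [IsDomain Ω] (C : Coh F 𝔊 Ω) {a : ℕ}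
    (Z : Fin a → Rp F 𝔊) (h : ∀ i, C.rk (Z i) = 0) : C.rk (sm Z) = 0 := by
  induction a with
  | zero =>
    exact rk_zero C fun z => by
      funext k
      exact k.elim0
  | succ a ih =>
    let f : Hom (sm fun i => Z i.succ) (sm Z) :=
      { f :=
          { toFun := fun v => Fin.cons (α := fun i => (Z i).N) 0 v
            map_add' := by
              intro v w
              funext k
              refine Fin.cases ?_ (fun k => ?_) k
              · show (0 : (Z 0).N) = 0 + 0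
                rw [add_zero]
              · rfl
            map_smul' := by
              intro c v
              funext k
              refine Fin.cases ?_ (fun k => ?_) k
              · show (0 : (Z 0).N) = c • 0
                rw [smul_zero]
              · rfl }
        eq := by
          intro g v
          funext k
          refine Fin.cases ?_ (fun k => ?_) k
          · show (0 : (Z 0).N) = (Z 0).ρ g 0
            rw [map_zero]
          · rfl }
    let p : Hom (sm Z) (Z 0) :=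
      { f := LinearMap.proj (R := F) (φ := fun i : Fin (a + 1) => (Z i).N) 0
        eq := fun g v => rfl }
    have hex : Exact f p := by
      refine ⟨?_, ?_, ?_⟩
      · intro v w h
        funext k
        exact congrFun h k.succ
      · intro x
        exact ⟨Fin.cons (α := fun i => (Z i).N) x 0, rfl⟩
      · intro y
        constructor
        · intro h
          refine ⟨fun k => y k.succ, ?_⟩
          funext k
          refine Fin.cases ?_ (fun k => ?_) k
          · exact Eq.symm h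
          · rfl
        · rintro ⟨x, rfl⟩
          rfl
    have h1 := rk_exact_le C f p hex
    have h2 := ih (fun i => Z i.succ) (fun i => h i.succ)
    have h3 := h 0
    omega

variable {κ : Type} [Fintype κ] [DecidableEq κ]

/-- the map from homogeneous functions to `X`, as a sum over the image of `A` -/
noncomputable def TheK (A : 𝔊 →* Matrix κ κ F) [Fintype (𝔊 ⧸ MonoidHom.ker A)] (m : ℕ)
    (X : Rp F 𝔊) {r : ℕ} (v : Fin r → X.N) : (Fin r → hom A m) →ₗ[F] X.N where
  toFun Φ := ∑ b, ∑ q : 𝔊 ⧸ MonoidHom.ker A, (Φ b).1 (q.out)⁻¹ • X.ρ q.out (v b)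
  map_add' := by
    intro Φ Ψ
    rw [← Finset.sum_add_distrib]
    refine Finset.sum_congr rfl fun b _ => ?_
    rw [← Finset.sum_add_distrib]
    refine Finset.sum_congr rfl fun q _ => ?_
    exact add_smul _ _ _
  map_smul' := by
    intro c Φ
    rw [RingHom.id_apply, Finset.smul_sum]
    refine Finset.sum_congr rfl fun b _ => ?_
    rw [Finset.smul_sum]
    refine Finset.sum_congr rfl fun q _ => ?_
    exact mul_smul _ _ _

theorem TheK_eq (A : 𝔊 →* Matrix κ κ F) [Fintype (𝔊 ⧸ MonoidHom.ker A)] (m : ℕ) (X : Rp F 𝔊)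
    (hX : ∀ g : 𝔊, A g = 1 → X.ρ g = 1)
    {r : ℕ} (v : Fin r → X.N) (h : 𝔊) (Φ : Fin r → hom A m) :
    TheK A m X v (fun b => trans A m h (Φ b)) = X.ρ h (TheK A m X v Φ) := by
  show ∑ b, ∑ q : 𝔊 ⧸ MonoidHom.ker A, (Φ b).1 ((q.out)⁻¹ * h) • X.ρ q.out (v b) =
    X.ρ h (∑ b, ∑ q : 𝔊 ⧸ MonoidHom.ker A, (Φ b).1 (q.out)⁻¹ • X.ρ q.out (v b))
  rw [map_sum]
  refine Finset.sum_congr rfl fun b _ => ?_
  rw [map_sum]
  have key := sum_coset (MonoidHom.ker A) (fun a => (Φ b).1 (a⁻¹ * h) • X.ρ a (v b)) (by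
    intro a a' haa
    rw [QuotientGroup.eq] at haa
    have hc : A (a⁻¹ * a') = 1 := haa
    have h1 : X.ρ a' = X.ρ a := by
      have h2 : X.ρ a' = X.ρ a * X.ρ (a⁻¹ * a') := by rw [← map_mul, mul_inv_cancel_left]
      rw [h2, hX _ hc, mul_one]
    have h3 : (Φ b).1 (a⁻¹ * h) = 1 ^ m * (Φ b).1 (a'⁻¹ * h) := by
      refine (Φ b).2 _ _ 1 ?_
      have h4 : a⁻¹ * h = (a⁻¹ * a') * (a'⁻¹ * h) := by group
      rw [h4, map_mul, hc, one_mul, one_smul]
    show (Φ b).1 (a⁻¹ * h) • X.ρ a (v b) = (Φ b).1 (a'⁻¹ * h) • X.ρ a' (v b)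
    rw [h1, h3, one_pow, one_mul]) h
  refine key.trans (Finset.sum_congr rfl fun q _ => ?_)
  have h5 : (h * q.out)⁻¹ * h = (q.out)⁻¹ := by group
  rw [h5, map_smul, map_mul]
  rfl

/-- the sum of the maps over the degrees `< e` -/
noncomputable def TheS (A : 𝔊 →* Matrix κ κ F) [Fintype (𝔊 ⧸ MonoidHom.ker A)] (e : ℕ)
    (X : Rp F 𝔊) {r : ℕ} (v : Fin r → X.N) : (∀ i : Fin e, Fin r → hom A i) →ₗ[F] X.N where
  toFun Φ := ∑ i : Fin e, TheK A i X v (Φ i)
  map_add' := by
    intro Φ Ψ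
    rw [← Finset.sum_add_distrib]
    exact Finset.sum_congr rfl fun i _ => map_add _ _ _
  map_smul' := by
    intro c Φ
    rw [RingHom.id_apply, Finset.smul_sum]
    exact Finset.sum_congr rfl fun i _ => (TheK A i X v).map_smul c (Φ i)

theorem TheS_surj [Nonempty κ] (A : 𝔊 →* Matrix κ κ F) [Fintype (𝔊 ⧸ MonoidHom.ker A)] (e : ℕ)
    (he0 : (e : F) ≠ 0) (he : ∀ (g : 𝔊) (c : F), A g = c • (1 : Matrix κ κ F) → c ^ e = 1)
    (X : Rp F 𝔊) (hX : ∀ g : 𝔊, A g = 1 → X.ρ g = 1) {r : ℕ} (v : Basis (Fin r) F X.N) :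
    Function.Surjective (TheS A e X v) := by
  intro x
  refine ⟨fun i b => ((e : F)⁻¹ * v.repr x b) • delta A i, ?_⟩
  have h0 : ∀ q : 𝔊 ⧸ MonoidHom.ker A, q ≠ QuotientGroup.mk 1 →
      ∑ i : Fin e, (delta A (i : ℕ)).1 (q.out)⁻¹ = 0 := by
    intro q hq
    by_cases hs : ∃ c : F, A (q.out)⁻¹ = c • (1 : Matrix κ κ F)
    · obtain ⟨c, hc⟩ := hs
      have h1 : ∑ i : Fin e, (delta A (i : ℕ)).1 (q.out)⁻¹ = ∑ i ∈ Finset.range e, c ^ i := by
        rw [← Fin.sum_univ_eq_sum_range (fun i => c ^ i) e]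
        exact Finset.sum_congr rfl fun i _ => delta_pos A i hc
      rw [h1]
      have h2 : (c - 1) * ∑ i ∈ Finset.range e, c ^ i = 0 := by
        rw [mul_geom_sum, he _ c hc, sub_self]
      rcases mul_eq_zero.1 h2 with h3 | h3
      · exfalso
        have h4 : c = 1 := sub_eq_zero.1 h3
        apply hq
        rw [← QuotientGroup.out_eq' q, QuotientGroup.eq]
        show A ((q.out)⁻¹ * 1) = 1
        rw [mul_one, hc, h4, one_smul]
      · exact h3
    · exact Finset.sum_eq_zero fun i _ => delta_neg A i hs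
  have hk : A (QuotientGroup.mk 1 : 𝔊 ⧸ MonoidHom.ker A).out = 1 := by
    have h3 : (QuotientGroup.mk (QuotientGroup.mk 1 : 𝔊 ⧸ MonoidHom.ker A).out :
        𝔊 ⧸ MonoidHom.ker A) = QuotientGroup.mk 1 := QuotientGroup.out_eq' _
    have h4 := QuotientGroup.eq.1 h3.symm
    have h5 : A (1⁻¹ * (QuotientGroup.mk 1 : 𝔊 ⧸ MonoidHom.ker A).out) = 1 := h4
    rwa [inv_one, one_mul] at h5
  have hk' : A ((QuotientGroup.mk 1 : 𝔊 ⧸ MonoidHom.ker A).out)⁻¹ = (1 : F) • 1 := by
    have h5 : A ((QuotientGroup.mk 1 : 𝔊 ⧸ MonoidHom.ker A).out)⁻¹ *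
        A (QuotientGroup.mk 1 : 𝔊 ⧸ MonoidHom.ker A).out = 1 := by
      rw [← map_mul, inv_mul_cancel, map_one]
    rw [hk, mul_one] at h5
    rw [h5, one_smul]
  have h1 : ∀ y : X.N, ∑ q : 𝔊 ⧸ MonoidHom.ker A,
      (∑ i : Fin e, (delta A (i : ℕ)).1 (q.out)⁻¹) • X.ρ q.out y = (e : F) • y := by
    intro y
    rw [Finset.sum_eq_single (QuotientGroup.mk 1 : 𝔊 ⧸ MonoidHom.ker A)]
    · have h6 : ∑ i : Fin e, (delta A (i : ℕ)).1
          ((QuotientGroup.mk 1 : 𝔊 ⧸ MonoidHom.ker A).out)⁻¹ = (e : F) := by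
        have h7 : ∀ i : Fin e, (delta A (i : ℕ)).1
            ((QuotientGroup.mk 1 : 𝔊 ⧸ MonoidHom.ker A).out)⁻¹ = 1 := fun i => by
          rw [delta_pos A i hk', one_pow]
        simp only [h7]
        rw [Finset.sum_const, Finset.card_univ, Fintype.card_fin, nsmul_eq_mul, mul_one]
      rw [h6, hX _ hk]
      rfl
    · intro q _ hq
      rw [h0 q hq, zero_smul]
    · intro h
      exact absurd (Finset.mem_univ _) h
  show ∑ i : Fin e, ∑ b, ∑ q : 𝔊 ⧸ MonoidHom.ker A,
    (((e : F)⁻¹ * v.repr x b) * (delta A (i : ℕ)).1 (q.out)⁻¹) • X.ρ q.out (v b) = x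
  rw [Finset.sum_comm]
  conv_rhs => rw [← v.sum_repr x]
  refine Finset.sum_congr rfl fun b _ => ?_
  rw [Finset.sum_comm]
  have h8 : ∀ q : 𝔊 ⧸ MonoidHom.ker A, ∑ i : Fin e,
      (((e : F)⁻¹ * v.repr x b) * (delta A (i : ℕ)).1 (q.out)⁻¹) • X.ρ q.out (v b) =
      ((e : F)⁻¹ * v.repr x b) • ((∑ i : Fin e, (delta A (i : ℕ)).1 (q.out)⁻¹) •
        X.ρ q.out (v b)) := by
    intro q
    rw [smul_smul, Finset.mul_sum, Finset.sum_smul]
  simp only [h8]
  rw [← Finset.smul_sum, h1, smul_smul]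
  congr 1
  rw [mul_comm ((e : F)⁻¹), mul_assoc, inv_mul_cancel₀ he0, mul_one]

section
variable {Ω : Type} [CommRing Ω] [IsDomain Ω] (C : Coh F 𝔊 Ω) (A : 𝔊 →* Matrix κ κ F)
  (hA : IsOpen {g | A g = 1}) (hD : (scal A).index ≠ 0) (hK : (MonoidHom.ker A).index ≠ 0)

include hA hD hK

theorem over_zero [Nonempty κ] (e : ℕ) (he0 : (e : F) ≠ 0)
    (he : ∀ (g : 𝔊) (c : F), A g = c • (1 : Matrix κ κ F) → c ^ e = 1)
    (h0 : ∀ i : Fin e, C.rk (CC A hA hD i) = 0) (X : Rp F 𝔊) (hX : Over A X) : C.rk X = 0 := by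
  induction hX with
  | base X h =>
    have := Subgroup.fintypeOfIndexNeZero hK
    let v := Module.finBasis F X.N
    let t : Hom (sm fun i : Fin e => pw (CC A hA hD i) (Fin (finrank F X.N))) X :=
      { f := TheS A e X v
        eq := fun g Φ => by
          show ∑ i : Fin e, TheK A i X v (fun b => trans A i g (Φ i b)) =
            X.ρ g (∑ i : Fin e, TheK A i X v (Φ i))
          rw [map_sum]
          exact Finset.sum_congr rfl fun i _ => TheK_eq A i X h v g (Φ i) }
    have h1 := rk_le_of_surj C t (TheS_surj A e he0 he X h v)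
    have h2 := rk_sm_zero C (fun i : Fin e => pw (CC A hA hD i) (Fin (finrank F X.N)))
      (fun i => by rw [rk_pw, h0 i, mul_zero])
    omega
  | ext f g h _ _ ih1 ih2 =>
    have h1 := rk_exact_le C f g h
    omega

theorem CC_built (m : ℕ) : Built A m (CC A hA hD m) := by
  refine Built.base _ ?_
  intro g c hg
  refine LinearMap.ext fun φ => ?_
  apply Subtype.ext
  funext g'
  show φ.1 (g' * g) = c ^ m * φ.1 g'
  refine φ.2 _ _ c ?_
  rw [map_mul, hg, mul_smul_comm, mul_one]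

/-- the dichotomy in one class of degrees -/
theorem class_dichotomy [Nonempty κ] (e : ℕ)
    (he : ∀ (g : 𝔊) (c : F), A g = c • (1 : Matrix κ κ F) → c ^ e = 1) (s : ℕ)
    (hs : Cover A s) (i : ℕ) :
    (∀ X : Rp F 𝔊, Built A i X → C.rk X = 0) ∨
    ∀ m, s ≤ m → m % e = i % e →
      Fintype.card κ ^ (m - s) ≤ Fintype.card κ ^ s * C.rk (tp A hA (Fin m)) := by
  by_cases h : ∀ m, s ≤ m → m % e = i % e →
      Fintype.card κ ^ (m - s) ≤ Fintype.card κ ^ s * C.rk (tp A hA (Fin m))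
  · exact Or.inr h
  · left
    push Not at h
    obtain ⟨m, hm, hmi, hlt⟩ := h
    intro X hX
    refine main C A hA hD s hs i m hm ?_ hlt X hX
    intro g c hg
    have h1 := he g c hg
    rw [← Nat.mod_add_div m e, ← Nat.mod_add_div i e, pow_add, pow_add, pow_mul, pow_mul, h1,
      one_pow, one_pow, mul_one, mul_one, hmi]

theorem over_of_classes [Nonempty κ] (e : ℕ) (he0 : (e : F) ≠ 0)
    (he : ∀ (g : 𝔊) (c : F), A g = c • (1 : Matrix κ κ F) → c ^ e = 1)
    (h : ∀ i < e, ∀ X : Rp F 𝔊, Built A i X → C.rk X = 0) (X : Rp F 𝔊) (hX : Over A X) :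
    C.rk X = 0 :=
  over_zero C A hA hD hK e he0 he (fun i => h i i.2 _ (CC_built A hA hD hK i)) X hX

end

theorem sc_pow [Nonempty κ] (A : 𝔊 →* Matrix κ κ F) (g : 𝔊) (c : F)
    (h : A g = c • (1 : Matrix κ κ F)) : c ^ Nat.card (sc A) = 1 := by
  have hc : c ≠ 0 := by
    rintro rfl
    rw [zero_smul] at h
    exact A_ne_zero A g h
  let u : sc A := ⟨Units.mk0 c hc, g, h⟩
  have h1 : u ^ Nat.card (sc A) = 1 := pow_card_eq_one'
  have h2 : ((((u ^ Nat.card (sc A) : sc A) : Fˣ)) : F) = 1 := by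
    rw [h1]
    rfl
  rw [Subgroup.coe_pow, Units.val_pow_eq_pow_val] at h2
  exact h2

theorem sc_card [Finite F] (A : 𝔊 →* Matrix κ κ F) : ((Nat.card (sc A) : ℕ) : F) ≠ 0 := by
  classical
  have := Fintype.ofFinite F
  intro h
  have h1 : Nat.card (sc A) ∣ Nat.card Fˣ := Subgroup.card_subgroup_dvd_card _
  obtain ⟨k, hk⟩ := h1
  have h2 : ((Nat.card Fˣ : ℕ) : F) = 0 := by rw [hk, Nat.cast_mul, h, zero_mul]
  rw [Nat.card_eq_fintype_card, Fintype.card_units, Nat.cast_sub Fintype.card_pos,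
    FiniteField.cast_card_eq_zero, Nat.cast_one, zero_sub, neg_eq_zero] at h2
  exact one_ne_zero h2

theorem ker_index [Finite F] (A : 𝔊 →* Matrix κ κ F) : (MonoidHom.ker A).index ≠ 0 := by
  have h1 : Finite (𝔊 ⧸ MonoidHom.ker A) := by
    have h2 : Function.Injective (fun q : 𝔊 ⧸ MonoidHom.ker A => A q.out) := by
      intro q q' h
      change A q.out = A q'.out at h
      rw [← QuotientGroup.out_eq' q, ← QuotientGroup.out_eq' q', QuotientGroup.eq]
      show A ((q.out)⁻¹ * q'.out) = 1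
      rw [map_mul, ← h, ← map_mul, inv_mul_cancel, map_one]
    have : Finite (Matrix κ κ F) := Matrix.instFinite ..
    exact Finite.of_injective _ h2
  exact Nat.card_pos.ne'

theorem scal_index [Finite F] (A : 𝔊 →* Matrix κ κ F) : (scal A).index ≠ 0 := by
  have h1 : MonoidHom.ker A ≤ scal A := by
    intro g hg
    exact ⟨1, by rw [one_smul]; exact hg⟩
  exact fun h => ker_index A (Nat.eq_zero_of_zero_dvd (h ▸ Subgroup.index_dvd_of_le h1))

end Pool.Agent.K6.H45.MU
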