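import Pool.Agent.K6.H45.MU.CC

/-!
Tensor powers and the `μ`-invariant (MP_519cc8_nt): the matrix coefficients.
-/

set_option autoImplicit false

open Module

namespace Pool.Agent.K6.H45.MU

variable {F : Type} [Field F] {𝔊 : Type} [Group 𝔊] [TopologicalSpace 𝔊] [IsTopologicalGroup 𝔊]
variable {κ : Type} [Fintype κ] [DecidableEq κ]
variable {ι1 ι2 : Type} [Fintype ι1] [DecidableEq ι1] [Fintype ι2] [DecidableEq ι2]

/-- coefficient of a linear function in the tensor power -/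
def cf (L : ι1 → Matrix κ κ F →ₗ[F] F) (α J : ι1 → κ) : F :=
  ∏ i, L i (Matrix.single (α i) (J i) 1)

/-- the matrix coefficients -/
noncomputable def PsiF (ι2 : Type) [Fintype ι2] [DecidableEq ι2] (A : 𝔊 →* Matrix κ κ F)
    (L : ι1 → Matrix κ κ F →ₗ[F] F) :
    ((ι1 → κ) → (ι1 ⊕ ι2 → κ) → F) →ₗ[F] ((ι2 → κ) → hom A (Fintype.card (ι1 ⊕ ι2))) where
  toFun := fun x k => ⟨fun g => ∑ J, ∑ α, cf L α J *
      ((kr (ι1 ⊕ ι2) (A g)).mulVec (x J)) (Sum.elim α k), fun g g' c hc => by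
        show ∑ J, ∑ α, cf L α J * ((kr (ι1 ⊕ ι2) (A g')).mulVec (x J)) (Sum.elim α k) =
          c ^ Fintype.card (ι1 ⊕ ι2) *
            ∑ J, ∑ α, cf L α J * ((kr (ι1 ⊕ ι2) (A g)).mulVec (x J)) (Sum.elim α k)
        rw [hc, kr_smul, Finset.mul_sum]
        refine Finset.sum_congr rfl fun J _ => ?_
        rw [Finset.mul_sum]
        refine Finset.sum_congr rfl fun α _ => ?_
        rw [Matrix.smul_mulVec, Pi.smul_apply, smul_eq_mul]
        ring⟩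
  map_add' := by
    intro x y
    funext k
    apply Subtype.ext
    funext g
    show ∑ J, ∑ α, cf L α J * ((kr (ι1 ⊕ ι2) (A g)).mulVec (x J + y J)) (Sum.elim α k) =
      ∑ J, ∑ α, cf L α J * ((kr (ι1 ⊕ ι2) (A g)).mulVec (x J)) (Sum.elim α k) +
      ∑ J, ∑ α, cf L α J * ((kr (ι1 ⊕ ι2) (A g)).mulVec (y J)) (Sum.elim α k)
    rw [← Finset.sum_add_distrib]
    refine Finset.sum_congr rfl fun J _ => ?_
    rw [← Finset.sum_add_distrib]
    refine Finset.sum_congr rfl fun α _ => ?_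
    rw [Matrix.mulVec_add, Pi.add_apply, mul_add]
  map_smul' := by
    intro c x
    funext k
    apply Subtype.ext
    funext g
    show ∑ J, ∑ α, cf L α J * ((kr (ι1 ⊕ ι2) (A g)).mulVec (c • x J)) (Sum.elim α k) =
      c * ∑ J, ∑ α, cf L α J * ((kr (ι1 ⊕ ι2) (A g)).mulVec (x J)) (Sum.elim α k)
    rw [Finset.mul_sum]
    refine Finset.sum_congr rfl fun J _ => ?_
    rw [Finset.mul_sum]
    refine Finset.sum_congr rfl fun α _ => ?_
    rw [Matrix.mulVec_smul, Pi.smul_apply, smul_eq_mul]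
    ring

theorem PsiF_eq (A : 𝔊 →* Matrix κ κ F) (L : ι1 → Matrix κ κ F →ₗ[F] F) (h : 𝔊)
    (x : (ι1 → κ) → (ι1 ⊕ ι2 → κ) → F) (k : ι2 → κ) (g : 𝔊) :
    (PsiF ι2 A L (fun J => (Matrix.toLin' (kr (ι1 ⊕ ι2) (A h))) (x J)) k).1 g =
      (PsiF ι2 A L x k).1 (g * h) := by
  show ∑ J, ∑ α, cf L α J * ((kr (ι1 ⊕ ι2) (A g)).mulVec
      ((Matrix.toLin' (kr (ι1 ⊕ ι2) (A h))) (x J))) (Sum.elim α k) =
    ∑ J, ∑ α, cf L α J * ((kr (ι1 ⊕ ι2) (A (g * h))).mulVec (x J)) (Sum.elim α k)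
  refine Finset.sum_congr rfl fun J _ => Finset.sum_congr rfl fun α _ => ?_
  rw [Matrix.toLin'_apply, Matrix.mulVec_mulVec, map_mul, kr_mul]

/-- the matrix coefficients, as a homomorphism -/
noncomputable def Psi (A : 𝔊 →* Matrix κ κ F) (hA : IsOpen {g | A g = 1})
    (hD : (scal A).index ≠ 0) (L : ι1 → Matrix κ κ F →ₗ[F] F) :
    Hom (pw (tp A hA (ι1 ⊕ ι2)) (ι1 → κ)) (pw (CC A hA hD (Fintype.card (ι1 ⊕ ι2))) (ι2 → κ)) where
  f := PsiF ι2 A L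
  eq := by
    intro h x
    funext k
    apply Subtype.ext
    funext g
    exact PsiF_eq A L h x k g

theorem Psi_apply (A : 𝔊 →* Matrix κ κ F) (L : ι1 → Matrix κ κ F →ₗ[F] F)
    (x : (ι1 → κ) → (ι1 ⊕ ι2 → κ) → F) (k : ι2 → κ) (g : 𝔊) :
    (PsiF ι2 A L x k).1 g =
      ∑ J, ∑ α, cf L α J * ((kr (ι1 ⊕ ι2) (A g)).mulVec (x J)) (Sum.elim α k) := rfl

/-- the vector `δ_J ⊗ w` -/
def ev (J : ι1 → κ) (w : (ι2 → κ) → F) : (ι1 ⊕ ι2 → κ) → F :=
  fun β => if (fun i => β (Sum.inl i)) = J then w (fun i => β (Sum.inr i)) else 0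

theorem kr_ev (a : Matrix κ κ F) (J α : ι1 → κ) (w : (ι2 → κ) → F) (k : ι2 → κ) :
    ((kr (ι1 ⊕ ι2) a).mulVec (ev J w)) (Sum.elim α k) =
      (∏ i, a (α i) (J i)) * ((kr ι2 a).mulVec w) k := by
  show ∑ β, kr (ι1 ⊕ ι2) a (Sum.elim α k) β * ev J w β =
    (∏ i, a (α i) (J i)) * ∑ β, kr ι2 a k β * w β
  rw [← Equiv.sum_comp (Equiv.sumArrowEquivProdArrow ι1 ι2 κ).symm, Fintype.sum_prod_type,
    Finset.mul_sum, Finset.sum_eq_single J]
  · refine Finset.sum_congr rfl fun β _ => ?_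
    have h1 : ev J w ((Equiv.sumArrowEquivProdArrow ι1 ι2 κ).symm (J, β)) = w β := by
      unfold ev
      exact if_pos rfl
    have h2 : kr (ι1 ⊕ ι2) a (Sum.elim α k) ((Equiv.sumArrowEquivProdArrow ι1 ι2 κ).symm (J, β)) =
        (∏ i, a (α i) (J i)) * kr ι2 a k β := by
      unfold kr
      rw [Fintype.prod_sum_type]
      rfl
    rw [h1, h2, mul_assoc]
  · intro J' _ hJ'
    refine Finset.sum_eq_zero fun β _ => ?_
    have h1 : ev J w ((Equiv.sumArrowEquivProdArrow ι1 ι2 κ).symm (J', β)) = 0 := by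
      unfold ev
      exact if_neg hJ'
    rw [h1, mul_zero]
  · intro h
    exact absurd (Finset.mem_univ _) h

theorem sum_cf (L : ι1 → Matrix κ κ F →ₗ[F] F) (a : Matrix κ κ F) :
    ∑ J, ∑ α, cf L α J * ∏ i, a (α i) (J i) = ∏ i, L i a := by
  have h1 : ∀ i, L i a = ∑ j, ∑ b, L i (Matrix.single b j 1) * a b j := by
    intro i
    conv_lhs => rw [Matrix.matrix_eq_sum_single a]
    rw [Finset.sum_comm, map_sum]
    refine Finset.sum_congr rfl fun j _ => ?_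
    rw [map_sum]
    refine Finset.sum_congr rfl fun b _ => ?_
    have h2 : Matrix.single b j (a b j) = a b j • (Matrix.single b j 1 : Matrix κ κ F) := by
      rw [Matrix.smul_single, smul_eq_mul, mul_one]
    rw [h2, map_smul, smul_eq_mul, mul_comm]
  simp only [h1]
  rw [Finset.prod_univ_sum, Fintype.piFinset_univ]
  refine Finset.sum_congr rfl fun J _ => ?_
  rw [Finset.prod_univ_sum, Fintype.piFinset_univ]
  refine Finset.sum_congr rfl fun α _ => ?_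
  unfold cf
  rw [← Finset.prod_mul_distrib]

theorem Psi_ev (A : 𝔊 →* Matrix κ κ F) (L : ι1 → Matrix κ κ F →ₗ[F] F) (w : (ι2 → κ) → F)
    (k : ι2 → κ) (g : 𝔊) :
    (PsiF ι2 A L (fun J => ev J w) k).1 g =
      (∏ i, L i (A g)) * ((kr ι2 (A g)).mulVec w) k := by
  rw [Psi_apply]
  simp only [kr_ev]
  rw [← sum_cf, Finset.sum_mul]
  refine Finset.sum_congr rfl fun J _ => ?_
  rw [Finset.sum_mul]
  refine Finset.sum_congr rfl fun α _ => ?_
  ring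

theorem Psi_surj [Nonempty κ] (A : 𝔊 →* Matrix κ κ F) (hD : (scal A).index ≠ 0)
    (L : ι1 → Matrix κ κ F →ₗ[F] F) (hL1 : ∀ i, L i 1 = 1)
    (hL0 : ∀ q : 𝔊 ⧸ scal A, q ≠ QuotientGroup.mk 1 → ∃ i, L i (A q.out) = 0) :
    Function.Surjective (PsiF ι2 A L) := by
  intro Φ
  have := Subgroup.fintypeOfIndexNeZero hD
  let w : 𝔊 ⧸ scal A → (ι2 → κ) → F := fun q k => (Φ k).1 q.out
  refine ⟨∑ q : 𝔊 ⧸ scal A, (fun J => Matrix.toLin' (kr (ι1 ⊕ ι2) (A (q.out)⁻¹)) (ev J (w q))), ?_⟩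
  rw [map_sum]
  funext k
  apply Subtype.ext
  funext g
  have h1 : ∀ q : 𝔊 ⧸ scal A, (PsiF ι2 A L
      (fun J => Matrix.toLin' (kr (ι1 ⊕ ι2) (A (q.out)⁻¹)) (ev J (w q))) k).1 g =
      (∏ i, L i (A (g * (q.out)⁻¹))) * ((kr ι2 (A (g * (q.out)⁻¹))).mulVec (w q)) k := by
    intro q
    rw [PsiF_eq A L (q.out)⁻¹ (fun J => ev J (w q)) k g, Psi_ev]
  let ev' : ((ι2 → κ) → hom A (Fintype.card (ι1 ⊕ ι2))) →ₗ[F] F :=
    { toFun := fun y => (y k).1 g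
      map_add' := fun _ _ => rfl
      map_smul' := fun _ _ => rfl }
  have h2 : ((∑ q : 𝔊 ⧸ scal A, PsiF ι2 A L
      (fun J => Matrix.toLin' (kr (ι1 ⊕ ι2) (A (q.out)⁻¹)) (ev J (w q)))) k).1 g =
      ∑ q : 𝔊 ⧸ scal A, (PsiF ι2 A L
      (fun J => Matrix.toLin' (kr (ι1 ⊕ ι2) (A (q.out)⁻¹)) (ev J (w q))) k).1 g :=
    map_sum ev' _ _
  rw [h2]
  simp only [h1]
  rw [Finset.sum_eq_single (QuotientGroup.mk g : 𝔊 ⧸ scal A)]
  · have h3 : (QuotientGroup.mk (QuotientGroup.mk g : 𝔊 ⧸ scal A).out : 𝔊 ⧸ scal A) =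
      QuotientGroup.mk g := QuotientGroup.out_eq' _
    obtain ⟨c, hc⟩ := (mk_eq_iff A _ _).1 h3
    have h4 : A (g * ((QuotientGroup.mk g : 𝔊 ⧸ scal A).out)⁻¹) = c • (1 : Matrix κ κ F) := by
      rw [map_mul, hc, smul_mul_assoc, ← map_mul, mul_inv_cancel, map_one]
    have h5 : ∀ i, L i (c • (1 : Matrix κ κ F)) = c := by
      intro i
      rw [map_smul, hL1, smul_eq_mul, mul_one]
    rw [h4]
    simp only [h5]
    rw [kr_smul, kr_one, Matrix.smul_mulVec, Matrix.one_mulVec, Pi.smul_apply, smul_eq_mul,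
      Finset.prod_const, Finset.card_univ, ← mul_assoc, ← pow_add, ← Fintype.card_sum,
      (Φ k).2 _ _ c hc]
  · intro q _ hq
    have h3 : (QuotientGroup.mk (g * (q.out)⁻¹) : 𝔊 ⧸ scal A) ≠ QuotientGroup.mk 1 := by
      intro h
      obtain ⟨c, hc⟩ := (mk_eq_iff A _ _).1 h.symm
      apply hq
      rw [← QuotientGroup.out_eq' q]
      refine (mk_eq_iff A _ _).2 ⟨c, ?_⟩
      have h4 : A g = A (g * (q.out)⁻¹) * A q.out := by
        rw [← map_mul, inv_mul_cancel_right]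
      rw [h4, hc, map_one, smul_mul_assoc, one_mul]
    obtain ⟨i, hi⟩ := hL0 _ h3
    have h5 : (QuotientGroup.mk (QuotientGroup.mk (g * (q.out)⁻¹) : 𝔊 ⧸ scal A).out :
        𝔊 ⧸ scal A) = QuotientGroup.mk (g * (q.out)⁻¹) := QuotientGroup.out_eq' _
    obtain ⟨c, hc⟩ := (mk_eq_iff A _ _).1 h5
    have h6 : L i (A (g * (q.out)⁻¹)) = 0 := by
      rw [hc, map_smul, hi, smul_zero]
    rw [Finset.prod_eq_zero (Finset.mem_univ i) h6, zero_mul]
  · intro h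
    exact absurd (Finset.mem_univ _) h

end Pool.Agent.K6.H45.MU
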