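import Pool.Agent.K6.H45.MU.Defs

/-!
Tensor powers and the `μ`-invariant (MP_519cc8_nt): the rank of a right exact functor.
-/

set_option autoImplicit false

open Module

namespace Pool.Agent.K6.H45.MU

variable {F : Type} [Field F] {𝔊 : Type} [Group 𝔊] [TopologicalSpace 𝔊]

section
variable {Ω : Type} [CommRing Ω] [IsDomain Ω] (C : Coh F 𝔊 Ω)

theorem rk_le_of_surj {X Y : Rp F 𝔊} (f : Hom X Y) (hf : Function.Surjective f.f) :
    C.rk Y ≤ C.rk X := by
  haveI := C.fin X
  exact LinearMap.finrank_le_finrank_of_surjective (C.surj f hf)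

theorem rk_exact_le {X Y Z : Rp F 𝔊} (f : Hom X Y) (g : Hom Y Z) (h : Exact f g) :
    C.rk Y ≤ C.rk X + C.rk Z := by
  haveI := C.fin X
  haveI := C.fin Y
  haveI := C.fin Z
  have h1 := (LinearMap.ker (C.map g)).finrank_quotient_add_finrank
  have h2 : finrank Ω (C.H Y ⧸ LinearMap.ker (C.map g)) = finrank Ω (C.H Z) :=
    ((C.map g).quotKerEquivOfSurjective (C.surj g h.2.1)).finrank_eq
  have h3 : LinearMap.ker (C.map g) = LinearMap.range (C.map f) := by
    ext y
    rw [LinearMap.mem_ker, LinearMap.mem_range]
    exact C.exact f g h y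
  have h4 : finrank Ω (LinearMap.range (C.map f)) ≤ finrank Ω (C.H X) :=
    LinearMap.finrank_range_le _
  unfold Coh.rk
  rw [h3] at h1
  rw [h3] at h2
  omega

theorem rk_exact_eq {X Y Z : Rp F 𝔊} (f : Hom X Y) (g : Hom Y Z) (h : Exact f g)
    (r : Hom Y X) (hr : ∀ x, r.f (f.f x) = x) : C.rk Y = C.rk X + C.rk Z := by
  haveI := C.fin X
  haveI := C.fin Y
  haveI := C.fin Z
  have h1 := (LinearMap.ker (C.map g)).finrank_quotient_add_finrank
  have h2 : finrank Ω (C.H Y ⧸ LinearMap.ker (C.map g)) = finrank Ω (C.H Z) :=
    ((C.map g).quotKerEquivOfSurjective (C.surj g h.2.1)).finrank_eq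
  have h3 : LinearMap.ker (C.map g) = LinearMap.range (C.map f) := by
    ext y
    rw [LinearMap.mem_ker, LinearMap.mem_range]
    exact C.exact f g h y
  have h5 : r.comp f = Hom.id X := by
    have : (r.comp f).f = (Hom.id X).f := by
      ext x
      exact hr x
    cases hrf : r.comp f with
    | mk a b =>
      rw [hrf] at this
      change a = (Hom.id X).f at this
      subst this
      rfl
  have h6 : ∀ x, C.map r (C.map f x) = x := by
    intro x
    have h7 := C.map_comp r f
    rw [h5, C.map_id] at h7
    have h8 := LinearMap.congr_fun h7 x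
    exact h8.symm
  have h4 : finrank Ω (LinearMap.range (C.map f)) = finrank Ω (C.H X) :=
    LinearMap.finrank_range_of_inj (Function.LeftInverse.injective h6)
  unfold Coh.rk
  rw [h3] at h1
  rw [h3] at h2
  omega

/-- the inverse of a bijective homomorphism -/
noncomputable def Hom.inv {X Y : Rp F 𝔊} (f : Hom X Y) (hf : Function.Bijective f.f) : Hom Y X where
  f := (LinearEquiv.ofBijective f.f hf).symm.toLinearMap
  eq := by
    intro g y
    obtain ⟨x, rfl⟩ := hf.2 y
    have h1 : ∀ z, (LinearEquiv.ofBijective f.f hf).symm (f.f z) = z := fun z =>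
      (LinearEquiv.ofBijective f.f hf).symm_apply_apply z
    show (LinearEquiv.ofBijective f.f hf).symm (Y.ρ g (f.f x)) =
      X.ρ g ((LinearEquiv.ofBijective f.f hf).symm (f.f x))
    rw [← f.eq, h1, h1]

theorem rk_eq_of_bij {X Y : Rp F 𝔊} (f : Hom X Y) (hf : Function.Bijective f.f) :
    C.rk X = C.rk Y := by
  apply le_antisymm
  · exact rk_le_of_surj C (f.inv hf) (LinearEquiv.ofBijective f.f hf).symm.surjective
  · exact rk_le_of_surj C f hf.2

theorem rk_zero {Z : Rp F 𝔊} (hZ : ∀ z : Z.N, z = 0) : C.rk Z = 0 := by
  have h1 : Exact (Hom.id Z) (Hom.id Z) := by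
    refine ⟨fun a b _ => by rw [hZ a, hZ b], fun a => ⟨a, rfl⟩, fun y => ?_⟩
    constructor
    · intro _
      exact ⟨y, rfl⟩
    · intro _
      exact hZ _
  have h2 := C.exact _ _ h1
  have h3 : ∀ y : C.H Z, y = 0 := by
    intro y
    have h4 := (h2 y).2 ⟨y, by rw [C.map_id]; rfl⟩
    rw [C.map_id] at h4
    exact h4
  haveI : Subsingleton (C.H Z) := ⟨fun a b => by rw [h3 a, h3 b]⟩
  exact finrank_zero_of_subsingleton

end

/-- `X^K` -/
def pw (X : Rp F 𝔊) (K : Type) [Fintype K] : Rp F 𝔊 where
  N := K → X.N
  ρ :=
    { toFun := fun g => (X.ρ g).compLeft K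
      map_one' := by
        rw [map_one]
        ext v k
        rfl
      map_mul' := fun g h => by
        rw [map_mul]
        ext v k
        rfl }
  cont := by
    by_cases hK : Nonempty K
    · obtain ⟨k0⟩ := hK
      convert X.cont using 1
      ext g
      constructor
      · intro h
        change (X.ρ g).compLeft K = 1 at h
        show X.ρ g = 1
        ext x
        have h1 := congrFun (LinearMap.congr_fun h (fun _ => x)) k0
        exact h1
      · intro h
        change X.ρ g = 1 at h
        show (X.ρ g).compLeft K = 1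
        rw [h]
        ext v k
        rfl
    · convert isOpen_univ using 1
      ext g
      refine ⟨fun _ => trivial, fun _ => ?_⟩
      show (X.ρ g).compLeft K = 1
      ext v k
      exact absurd ⟨k⟩ hK

theorem pw_apply (X : Rp F 𝔊) (K : Type) [Fintype K] (g : 𝔊) (v : K → X.N) (k : K) :
    (pw X K).ρ g v k = X.ρ g (v k) := rfl

section
variable {Ω : Type} [CommRing Ω] [IsDomain Ω] (C : Coh F 𝔊 Ω)

theorem rk_pw_fin (X : Rp F 𝔊) (a : ℕ) : C.rk (pw X (Fin a)) = a * C.rk X := by
  induction a with
  | zero =>
    rw [zero_mul]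
    exact rk_zero C fun z => by
      funext k
      exact k.elim0
  | succ a ih =>
    let f : Hom (pw X (Fin a)) (pw X (Fin (a + 1))) :=
      { f :=
          { toFun := fun v => Fin.cons (α := fun _ => X.N) 0 v
            map_add' := by
              intro v w
              funext k
              refine Fin.cases ?_ (fun k => ?_) k
              · show (0 : X.N) = 0 + 0
                rw [add_zero]
              · rfl
            map_smul' := by
              intro c v
              funext k
              refine Fin.cases ?_ (fun k => ?_) k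
              · show (0 : X.N) = c • 0
                rw [smul_zero]
              · rfl }
        eq := by
          intro g v
          funext k
          refine Fin.cases ?_ (fun k => ?_) k
          · show (0 : X.N) = X.ρ g 0
            rw [map_zero]
          · rfl }
    let p : Hom (pw X (Fin (a + 1))) X :=
      { f := LinearMap.proj (R := F) (φ := fun _ : Fin (a + 1) => X.N) 0
        eq := fun g v => rfl }
    let r : Hom (pw X (Fin (a + 1))) (pw X (Fin a)) :=
      { f := LinearMap.funLeft F X.N Fin.succ
        eq := fun g v => rfl }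
    have hex : Exact f p := by
      refine ⟨?_, ?_, ?_⟩
      · intro v w h
        funext k
        exact congrFun h k.succ
      · intro x
        exact ⟨fun _ => x, rfl⟩
      · intro y
        constructor
        · intro h
          refine ⟨fun k => y k.succ, ?_⟩
          funext k
          refine Fin.cases ?_ (fun k => ?_) k
          · exact Eq.symm h
          · rfl
        · rintro ⟨x, rfl⟩
          rfl
    rw [rk_exact_eq C f p hex r (fun x => rfl), ih]
    ring

theorem rk_pw (X : Rp F 𝔊) (K : Type) [Fintype K] :
    C.rk (pw X K) = Fintype.card K * C.rk X := by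
  rw [← rk_pw_fin C X (Fintype.card K)]
  let e := Fintype.equivFin K
  let f : Hom (pw X K) (pw X (Fin (Fintype.card K))) :=
    { f := LinearMap.funLeft F X.N e.symm
      eq := fun g v => rfl }
  refine rk_eq_of_bij C f ⟨?_, ?_⟩
  · exact LinearMap.funLeft_injective_of_surjective F X.N _ e.symm.surjective
  · exact LinearMap.funLeft_surjective_of_injective F X.N _ e.symm.injective

end

end Pool.Agent.K6.H45.MU
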