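import Pool.Agent.K6.H45.MU.Defs

/-!
Symmetric powers and the `μ`-invariant (MP_519cc8_nt): definitions.
-/

set_option autoImplicit false

open Module

namespace Pool.Agent.K6.H45.MU

variable {F : Type} [Field F] {κ : Type} [Fintype κ] [DecidableEq κ]

/-- the substitution `X ↦ X a` in the polynomials -/
noncomputable def subst (a : Matrix κ κ F) : MvPolynomial κ F →ₐ[F] MvPolynomial κ F :=
  MvPolynomial.aeval fun j => ∑ k, MvPolynomial.C (a k j) * MvPolynomial.X k

theorem subst_one : subst (1 : Matrix κ κ F) = AlgHom.id F _ := by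
  apply MvPolynomial.algHom_ext
  intro j
  unfold subst
  rw [MvPolynomial.aeval_X, AlgHom.id_apply, Finset.sum_eq_single j]
  · rw [Matrix.one_apply_eq, MvPolynomial.C_1, one_mul]
  · intro k _ hk
    rw [Matrix.one_apply_ne hk, MvPolynomial.C_0, zero_mul]
  · intro h
    exact absurd (Finset.mem_univ _) h

theorem subst_mul (a b : Matrix κ κ F) : subst (a * b) = (subst a).comp (subst b) := by
  apply MvPolynomial.algHom_ext
  intro j
  unfold subst
  rw [AlgHom.comp_apply, MvPolynomial.aeval_X, MvPolynomial.aeval_X, map_sum]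
  simp only [map_mul, MvPolynomial.aeval_X, MvPolynomial.aeval_C, Matrix.mul_apply, map_sum,
    Finset.sum_mul, Finset.mul_sum, MvPolynomial.algebraMap_eq]
  rw [Finset.sum_comm]
  refine Finset.sum_congr rfl fun k _ => Finset.sum_congr rfl fun l _ => ?_
  ring

theorem subst_hom (a : Matrix κ κ F) (i : ℕ) (f : MvPolynomial κ F)
    (hf : f ∈ MvPolynomial.homogeneousSubmodule κ F i) :
    subst a f ∈ MvPolynomial.homogeneousSubmodule κ F i := by
  rw [MvPolynomial.mem_homogeneousSubmodule] at *
  have h1 : ∀ j, (∑ k, MvPolynomial.C (a k j) * MvPolynomial.X k :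
      MvPolynomial κ F).IsHomogeneous 1 := fun j =>
    MvPolynomial.IsHomogeneous.sum _ _ _ fun k _ => MvPolynomial.isHomogeneous_C_mul_X _ _
  have h2 := hf.aeval (fun j => ∑ k, MvPolynomial.C (a k j) * MvPolynomial.X k) h1
  rw [one_mul] at h2
  exact h2

variable {𝔊 : Type} [Group 𝔊] [TopologicalSpace 𝔊] [IsTopologicalGroup 𝔊]

/-- `Sym^i T` for `T = F^κ` with the action by the matrices `A g`: the homogeneous polynomials of
degree `i`, with the action by the substitutions `X ↦ X (A g)` -/
noncomputable def Sy (A : 𝔊 →* Matrix κ κ F) (hA : IsOpen {g | A g = 1}) (i : ℕ) : Rp F 𝔊 where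
  N := MvPolynomial.homogeneousSubmodule κ F i
  fin := Module.Finite.iff_fg.2 (MvPolynomial.homogeneousSubmodule_fg _ _ i)
  ρ :=
    { toFun := fun g => (subst (A g)).toLinearMap.restrict (subst_hom (A g) i)
      map_one' := by
        refine LinearMap.ext fun f => Subtype.ext ?_
        show subst (A 1) f.1 = f.1
        rw [map_one, subst_one]
        rfl
      map_mul' := fun g h => by
        refine LinearMap.ext fun f => Subtype.ext ?_
        show subst (A (g * h)) f.1 = subst (A g) (subst (A h) f.1)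
        rw [map_mul, subst_mul]
        rfl }
  cont := by
    refine open_of_ker hA _ fun g hg => ?_
    refine LinearMap.ext fun f => Subtype.ext ?_
    show subst (A g) f.1 = f.1
    rw [hg, subst_one]
    rfl

/-- The representations obtained by successive extensions from the representations `X`, trivial on
the kernel of `A`, such that the vectors fixed by the stabiliser of the (row) vector `v` generate
`X`, or the stabiliser of `v` acts on `X` through elements of `p`-power order. -/
inductive Near (A : 𝔊 →* Matrix κ κ F) (p : ℕ) (v : κ → F) : Rp F 𝔊 → Prop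
  | gen (X : Rp F 𝔊) (h : ∀ g : 𝔊, A g = 1 → X.ρ g = 1)
      (hX : ∀ W : Submodule F X.N, (∀ x : X.N, (∀ s : 𝔊, Matrix.vecMul v (A s) = v → X.ρ s x = x) →
        ∀ g : 𝔊, X.ρ g x ∈ W) → W = ⊤) : Near A p v X
  | unip (X : Rp F 𝔊) (h : ∀ g : 𝔊, A g = 1 → X.ρ g = 1)
      (hX : ∀ s : 𝔊, Matrix.vecMul v (A s) = v → ∃ k : ℕ, X.ρ s ^ p ^ k = 1) : Near A p v X
  | ext {X Y Z : Rp F 𝔊} (f : Hom X Y) (g : Hom Y Z) (h : Exact f g) (hX : Near A p v X)
      (hZ : Near A p v Z) : Near A p v Y

/-- The conjecture holds for the reduction `X`: the value at `X` has rank zero, and every finitely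
generated `Λ`-module with the reduction `C.H X` is torsion with `μ = 0`. -/
def HoldsAt {Λ : Type} [CommRing Λ] (P : Ideal Λ) (C : Coh F 𝔊 (Λ ⧸ P)) (X : Rp F 𝔊) : Prop :=
  C.rk X = 0 ∧ ∀ (M : Type) [AddCommGroup M] [Module Λ M] [Module.Finite Λ M],
    ((M ⧸ (P • ⊤ : Submodule Λ M)) ≃ₗ[Λ ⧸ P] C.H X) → TorsionMuZero P M

/-- The conjecture fails for the reduction `X`: no finitely generated `Λ`-module with the reduction
`C.H X` is torsion with `μ = 0`. -/
def FailsAt {Λ : Type} [CommRing Λ] (P : Ideal Λ) (C : Coh F 𝔊 (Λ ⧸ P)) (X : Rp F 𝔊) : Prop :=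
  C.rk X ≠ 0 ∧ ∀ (M : Type) [AddCommGroup M] [Module Λ M] [Module.Finite Λ M],
    ((M ⧸ (P • ⊤ : Submodule Λ M)) ≃ₗ[Λ ⧸ P] C.H X) → ¬ TorsionMuZero P M

end Pool.Agent.K6.H45.MU
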