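import Pool.Agent.K6.H45.MU.SymDefs
import Pool.Agent.K6.H45.MU.Ind

/-!
Symmetric powers and the `μ`-invariant (MP_519cc8_nt): interpolation by homogeneous polynomials.
-/

set_option autoImplicit false

open Module

namespace Pool.Agent.K6.H45.MU

variable {F : Type} [Field F] {κ : Type} [Fintype κ] [DecidableEq κ]

theorem eval_subst (a : Matrix κ κ F) (w : κ → F) (f : MvPolynomial κ F) :
    MvPolynomial.eval w (subst a f) = MvPolynomial.eval (Matrix.vecMul w a) f := by
  unfold subst
  induction f using MvPolynomial.induction_on with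
  | C c =>
    rw [MvPolynomial.aeval_C, MvPolynomial.algebraMap_eq, MvPolynomial.eval_C, MvPolynomial.eval_C]
  | add f g hf hg => rw [map_add, map_add, map_add, hf, hg]
  | mul_X f j hf =>
    rw [map_mul, map_mul, map_mul, hf, MvPolynomial.aeval_X, MvPolynomial.eval_X, map_sum]
    congr 1
    show _ = ∑ k, w k * a k j
    refine Finset.sum_congr rfl fun k _ => ?_
    rw [map_mul, MvPolynomial.eval_C, MvPolynomial.eval_X, mul_comm]

variable [Fintype F]

/-- the linear form equal to `1` at `v` -/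
noncomputable def xx (v : κ → F) (k : κ) : MvPolynomial κ F :=
  MvPolynomial.C (v k)⁻¹ * MvPolynomial.X k

/-- the linear forms vanishing at `v` -/
noncomputable def yv (v : κ → F) (k j : κ) : MvPolynomial κ F :=
  MvPolynomial.X j - MvPolynomial.C (v j) * xx v k

/-- the delta polynomials -/
noncomputable def del (v : κ → F) (k : κ) (i : ℕ) : MvPolynomial κ F :=
  xx v k ^ (i - (Fintype.card κ - 1) * (Fintype.card F - 1)) *
    ∏ j ∈ Finset.univ.erase k, (xx v k ^ (Fintype.card F - 1) - yv v k j ^ (Fintype.card F - 1))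

omit [DecidableEq κ] [Fintype F] in
theorem xx_hom (v : κ → F) (k : κ) : (xx v k).IsHomogeneous 1 :=
  MvPolynomial.isHomogeneous_C_mul_X _ _

omit [Fintype F] in
theorem yv_hom (v : κ → F) (k j : κ) : (yv v k j).IsHomogeneous 1 :=
  (MvPolynomial.isHomogeneous_X _ _).sub ((xx_hom v k).C_mul _)

theorem del_hom (v : κ → F) (k : κ) (i : ℕ)
    (hi : (Fintype.card κ - 1) * (Fintype.card F - 1) < i) :
    del v k i ∈ MvPolynomial.homogeneousSubmodule κ F i := by
  rw [MvPolynomial.mem_homogeneousSubmodule]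
  unfold del
  have h1 : (∏ j ∈ Finset.univ.erase k, (xx v k ^ (Fintype.card F - 1) -
      yv v k j ^ (Fintype.card F - 1))).IsHomogeneous
      (∑ j ∈ (Finset.univ : Finset κ).erase k, (1 * (Fintype.card F - 1))) := by
    apply MvPolynomial.IsHomogeneous.prod
    intro j _
    exact ((xx_hom v k).pow _).sub ((yv_hom v k j).pow _)
  have h2 := ((xx_hom v k).pow (i - (Fintype.card κ - 1) * (Fintype.card F - 1))).mul h1
  rw [Finset.sum_const, Finset.card_erase_of_mem (Finset.mem_univ k), Finset.card_univ,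
    smul_eq_mul, one_mul, one_mul] at h2
  rwa [Nat.sub_add_cancel hi.le] at h2

omit [Fintype F] in
theorem eval_xx (v w : κ → F) (k : κ) : MvPolynomial.eval w (xx v k) = (v k)⁻¹ * w k := by
  unfold xx
  rw [map_mul, MvPolynomial.eval_C, MvPolynomial.eval_X]

omit [Fintype F] in
theorem eval_yv (v w : κ → F) (k j : κ) :
    MvPolynomial.eval w (yv v k j) = w j - v j * ((v k)⁻¹ * w k) := by
  unfold yv
  rw [map_sub, map_mul, MvPolynomial.eval_C, MvPolynomial.eval_X, eval_xx]

theorem eval_del (v w : κ → F) (k : κ) (i : ℕ) : MvPolynomial.eval w (del v k i) =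
    ((v k)⁻¹ * w k) ^ (i - (Fintype.card κ - 1) * (Fintype.card F - 1)) *
    ∏ j ∈ Finset.univ.erase k, (((v k)⁻¹ * w k) ^ (Fintype.card F - 1) -
      (w j - v j * ((v k)⁻¹ * w k)) ^ (Fintype.card F - 1)) := by
  unfold del
  rw [map_mul, map_pow, map_prod, eval_xx]
  simp only [map_sub, map_pow, eval_xx, eval_yv]

theorem eval_del_smul (v : κ → F) (k : κ) (hk : v k ≠ 0) (i : ℕ)
    (hi : (Fintype.card κ - 1) * (Fintype.card F - 1) < i) (c : F) (hc : c ≠ 0) :
    MvPolynomial.eval (c • v) (del v k i) = c ^ i := by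
  have h1 : (v k)⁻¹ * (c • v) k = c := by
    rw [Pi.smul_apply, smul_eq_mul, mul_comm c, inv_mul_cancel_left₀ hk]
  have hq : Fintype.card F - 1 ≠ 0 := by
    have := Fintype.one_lt_card (α := F)
    omega
  rw [eval_del, h1]
  have h2 : ∀ j, (c • v) j - v j * c = 0 := fun j => by
    rw [Pi.smul_apply, smul_eq_mul]
    ring
  simp only [h2]
  rw [zero_pow hq, sub_zero, FiniteField.pow_card_sub_one_eq_one c hc, Finset.prod_const_one,
    mul_one]
  calc c ^ (i - (Fintype.card κ - 1) * (Fintype.card F - 1))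
      = c ^ (i - (Fintype.card κ - 1) * (Fintype.card F - 1)) *
        (c ^ (Fintype.card F - 1)) ^ (Fintype.card κ - 1) := by
        rw [FiniteField.pow_card_sub_one_eq_one c hc, one_pow, mul_one]
    _ = c ^ (i - (Fintype.card κ - 1) * (Fintype.card F - 1) +
        (Fintype.card F - 1) * (Fintype.card κ - 1)) := by rw [pow_add, pow_mul]
    _ = c ^ i := by
        rw [mul_comm (Fintype.card F - 1) (Fintype.card κ - 1), Nat.sub_add_cancel hi.le]

theorem eval_del_zero (v : κ → F) (k : κ) (hk : v k ≠ 0) (i : ℕ)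
    (hi : (Fintype.card κ - 1) * (Fintype.card F - 1) < i) (w : κ → F)
    (hw : ∀ c : F, c ≠ 0 → w ≠ c • v) :
    MvPolynomial.eval w (del v k i) = 0 := by
  rw [eval_del]
  by_cases h0 : (v k)⁻¹ * w k = 0
  · rw [h0, zero_pow (by omega), zero_mul]
  · obtain ⟨j, hj⟩ := Function.ne_iff.1 (hw _ h0)
    have hjk : j ≠ k := by
      rintro rfl
      apply hj
      rw [Pi.smul_apply, smul_eq_mul, mul_comm, mul_inv_cancel_left₀ hk]
    have h1 : w j - v j * ((v k)⁻¹ * w k) ≠ 0 := by
      intro h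
      apply hj
      rw [Pi.smul_apply, smul_eq_mul, mul_comm]
      exact sub_eq_zero.1 h
    rw [Finset.prod_eq_zero (Finset.mem_erase.2 ⟨hjk, Finset.mem_univ j⟩), mul_zero]
    rw [FiniteField.pow_card_sub_one_eq_one _ h0, FiniteField.pow_card_sub_one_eq_one _ h1,
      sub_self]

theorem sum_del_self (v : κ → F) (k : κ) (hk : v k ≠ 0) (d : Fin (Fintype.card F - 1) → ℕ)
    (hd : ∀ j, (Fintype.card κ - 1) * (Fintype.card F - 1) < d j) :
    ∑ j, MvPolynomial.eval v (del v k (d j)) = -1 := by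
  have h1 : ∀ j, MvPolynomial.eval v (del v k (d j)) = 1 := by
    intro j
    have h2 := eval_del_smul v k hk _ (hd j) 1 one_ne_zero
    rwa [one_smul, one_pow] at h2
  simp only [h1]
  rw [Finset.sum_const, Finset.card_univ, Fintype.card_fin, nsmul_eq_mul, mul_one,
    Nat.cast_sub Fintype.card_pos, FiniteField.cast_card_eq_zero, Nat.cast_one, zero_sub]

theorem sum_del_ne (v : κ → F) (k : κ) (hk : v k ≠ 0) (d : Fin (Fintype.card F - 1) → ℕ)
    (hd : ∀ j, (Fintype.card κ - 1) * (Fintype.card F - 1) < d j)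
    (hd2 : ∀ j, d j % (Fintype.card F - 1) = j) (w : κ → F) (hw : w ≠ v) :
    ∑ j, MvPolynomial.eval w (del v k (d j)) = 0 := by
  by_cases h : ∃ c : F, c ≠ 0 ∧ w = c • v
  · obtain ⟨c, hc, rfl⟩ := h
    have h1 : ∀ j, MvPolynomial.eval (c • v) (del v k (d j)) = c ^ (j : ℕ) := by
      intro j
      rw [eval_del_smul v k hk _ (hd j) c hc, ← Nat.mod_add_div (d j) (Fintype.card F - 1), hd2,
        pow_add, pow_mul, FiniteField.pow_card_sub_one_eq_one c hc, one_pow, mul_one]
    simp only [h1]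
    rw [Fin.sum_univ_eq_sum_range (fun i => c ^ i)]
    have hc1 : c ≠ 1 := by
      rintro rfl
      exact hw (one_smul _ _)
    have h2 : (c - 1) * ∑ i ∈ Finset.range (Fintype.card F - 1), c ^ i = 0 := by
      rw [mul_geom_sum, FiniteField.pow_card_sub_one_eq_one c hc, sub_self]
    exact (mul_eq_zero.1 h2).resolve_left (sub_ne_zero.2 hc1)
  · refine Finset.sum_eq_zero fun j _ => eval_del_zero v k hk _ (hd j) w fun c hc hcw => ?_
    exact h ⟨c, hc, hcw⟩

/-- Every function on the nonzero vectors is a sum of homogeneous polynomials of the given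
degrees. -/
theorem interp (d : Fin (Fintype.card F - 1) → ℕ)
    (hd : ∀ j, (Fintype.card κ - 1) * (Fintype.card F - 1) < d j)
    (hd2 : ∀ j, d j % (Fintype.card F - 1) = j) (φ : (κ → F) → F) :
    ∃ f : ∀ j, MvPolynomial.homogeneousSubmodule κ F (d j),
      ∀ w : κ → F, w ≠ 0 → ∑ j, MvPolynomial.eval w (f j).1 = φ w := by
  classical
  have hk : ∀ v : {v : κ → F // v ≠ 0}, ∃ k, v.1 k ≠ 0 := fun v => Function.ne_iff.1 v.2
  choose k hk using hk
  refine ⟨fun j => ⟨∑ v : {v : κ → F // v ≠ 0}, MvPolynomial.C (-φ v.1) * del v.1 (k v) (d j),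
    Submodule.sum_mem _ fun v _ => ?_⟩, fun w hw => ?_⟩
  · rw [← MvPolynomial.smul_eq_C_mul]
    exact Submodule.smul_mem _ _ (del_hom v.1 (k v) (d j) (hd j))
  · show ∑ j, MvPolynomial.eval w (∑ v : {v : κ → F // v ≠ 0},
      MvPolynomial.C (-φ v.1) * del v.1 (k v) (d j)) = φ w
    simp only [map_sum, map_mul, MvPolynomial.eval_C]
    rw [Finset.sum_comm]
    rw [Finset.sum_eq_single (⟨w, hw⟩ : {v : κ → F // v ≠ 0})]
    · rw [← Finset.mul_sum, sum_del_self w (k ⟨w, hw⟩) (hk ⟨w, hw⟩) d hd]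
      ring
    · intro v _ hv
      rw [← Finset.mul_sum, sum_del_ne v.1 (k v) (hk v) d hd hd2 w
        (fun h => hv (Subtype.ext h.symm)), mul_zero]
    · intro h
      exact absurd (Finset.mem_univ _) h

end Pool.Agent.K6.H45.MU
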