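import Pool.Agent.K6.H45.MU.Psi

/-!
Tensor powers and the `μ`-invariant (MP_519cc8_nt): the dichotomy.
-/

set_option autoImplicit false

open Module

namespace Pool.Agent.K6.H45.MU

variable {F : Type} [Field F] {𝔊 : Type} [Group 𝔊] [TopologicalSpace 𝔊] [IsTopologicalGroup 𝔊]
variable {κ : Type} [Fintype κ] [DecidableEq κ]

/-- the map from homogeneous functions to `X` -/
noncomputable def ThetaF (A : 𝔊 →* Matrix κ κ F) [Fintype (𝔊 ⧸ scal A)] (m : ℕ) (X : Rp F 𝔊)
    {r : ℕ} (v : Fin r → X.N) : (Fin r → hom A m) →ₗ[F] X.N where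
  toFun Φ := ∑ b, ∑ q : 𝔊 ⧸ scal A, (Φ b).1 (q.out)⁻¹ • X.ρ q.out (v b)
  map_add' := by
    intro Φ Ψ
    rw [← Finset.sum_add_distrib]
    refine Finset.sum_congr rfl fun b _ => ?_
    rw [← Finset.sum_add_distrib]
    refine Finset.sum_congr rfl fun q _ => ?_
    exact add_smul _ _ _
  map_smul' := by
    intro c Φ
    rw [RingHom.id_apply, Finset.smul_sum]
    refine Finset.sum_congr rfl fun b _ => ?_
    rw [Finset.smul_sum]
    refine Finset.sum_congr rfl fun q _ => ?_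
    exact mul_smul _ _ _

theorem ThetaF_eq (A : 𝔊 →* Matrix κ κ F) [Fintype (𝔊 ⧸ scal A)] (m : ℕ) (X : Rp F 𝔊)
    (hX : ∀ (g : 𝔊) (c : F), A g = c • (1 : Matrix κ κ F) → X.ρ g = c ^ m • (1 : X.N →ₗ[F] X.N))
    {r : ℕ} (v : Fin r → X.N) (h : 𝔊) (Φ : Fin r → hom A m) :
    ThetaF A m X v (fun b => trans A m h (Φ b)) = X.ρ h (ThetaF A m X v Φ) := by
  show ∑ b, ∑ q : 𝔊 ⧸ scal A, (Φ b).1 ((q.out)⁻¹ * h) • X.ρ q.out (v b) =
    X.ρ h (∑ b, ∑ q : 𝔊 ⧸ scal A, (Φ b).1 (q.out)⁻¹ • X.ρ q.out (v b))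
  rw [map_sum]
  refine Finset.sum_congr rfl fun b _ => ?_
  rw [map_sum]
  have key := sum_coset (scal A) (fun a => (Φ b).1 (a⁻¹ * h) • X.ρ a (v b)) (by
    intro a a' haa
    rw [QuotientGroup.eq] at haa
    obtain ⟨c, hc⟩ := haa
    have h1 : X.ρ a' (v b) = c ^ m • X.ρ a (v b) := by
      have h2 : X.ρ a' = X.ρ a * X.ρ (a⁻¹ * a') := by rw [← map_mul, mul_inv_cancel_left]
      rw [h2, hX _ c hc]
      show X.ρ a (c ^ m • v b) = _
      rw [map_smul]
    have h3 : (Φ b).1 (a⁻¹ * h) = c ^ m * (Φ b).1 (a'⁻¹ * h) := by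
      refine (Φ b).2 _ _ c ?_
      have h4 : a⁻¹ * h = (a⁻¹ * a') * (a'⁻¹ * h) := by group
      rw [h4, map_mul, hc, smul_mul_assoc, one_mul]
    show (Φ b).1 (a⁻¹ * h) • X.ρ a (v b) = (Φ b).1 (a'⁻¹ * h) • X.ρ a' (v b)
    rw [h1, h3, smul_smul, mul_comm]) h
  refine key.trans (Finset.sum_congr rfl fun q _ => ?_)
  have h5 : (h * q.out)⁻¹ * h = (q.out)⁻¹ := by group
  rw [h5, map_smul, map_mul]
  rfl

theorem ThetaF_surj [Nonempty κ] (A : 𝔊 →* Matrix κ κ F) [Fintype (𝔊 ⧸ scal A)] (m : ℕ)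
    (X : Rp F 𝔊)
    (hX : ∀ (g : 𝔊) (c : F), A g = c • (1 : Matrix κ κ F) → X.ρ g = c ^ m • (1 : X.N →ₗ[F] X.N))
    {r : ℕ} (v : Basis (Fin r) F X.N) : Function.Surjective (ThetaF A m X v) := by
  intro x
  refine ⟨fun b => v.repr x b • delta A m, ?_⟩
  have h1 : ∀ y : X.N, ∑ q : 𝔊 ⧸ scal A, (delta A m).1 (q.out)⁻¹ • X.ρ q.out y = y := by
    intro y
    rw [Finset.sum_eq_single (QuotientGroup.mk 1 : 𝔊 ⧸ scal A)]
    · have h3 : (QuotientGroup.mk (QuotientGroup.mk 1 : 𝔊 ⧸ scal A).out : 𝔊 ⧸ scal A) =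
        QuotientGroup.mk 1 := QuotientGroup.out_eq' _
      obtain ⟨c, hc⟩ := (mk_eq_iff A _ _).1 h3
      have h4 : A ((QuotientGroup.mk 1 : 𝔊 ⧸ scal A).out)⁻¹ = c • (1 : Matrix κ κ F) := by
        have h5 : A ((QuotientGroup.mk 1 : 𝔊 ⧸ scal A).out)⁻¹ =
            A ((QuotientGroup.mk 1 : 𝔊 ⧸ scal A).out)⁻¹ * A 1 := by rw [map_one, mul_one]
        rw [h5, hc, mul_smul_comm, ← map_mul, inv_mul_cancel, map_one]
      rw [delta_pos A m h4, ← map_smul]
      have h6 : c ^ m • y = X.ρ ((QuotientGroup.mk 1 : 𝔊 ⧸ scal A).out)⁻¹ y := by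
        rw [hX _ c h4]
        rfl
      rw [h6, ← Module.End.mul_apply, ← map_mul, mul_inv_cancel, map_one]
      rfl
    · intro q _ hq
      rw [delta_neg A m, zero_smul]
      rintro ⟨c, hc⟩
      apply hq
      rw [← QuotientGroup.out_eq' q]
      refine (mk_eq_iff A _ _).2 ⟨c, ?_⟩
      have h5 : A 1 = A q.out * A (q.out)⁻¹ := by rw [← map_mul, mul_inv_cancel]
      rw [h5, hc, mul_smul_comm, mul_one]
    · intro h
      exact absurd (Finset.mem_univ _) h
  show ∑ b, ∑ q : 𝔊 ⧸ scal A, (v.repr x b * (delta A m).1 (q.out)⁻¹) • X.ρ q.out (v b) = x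
  conv_rhs => rw [← v.sum_repr x]
  refine Finset.sum_congr rfl fun b _ => ?_
  conv_rhs => rw [← h1 (v b)]
  rw [Finset.smul_sum]
  refine Finset.sum_congr rfl fun q _ => ?_
  rw [mul_smul]

/-- reindexing the tensor power -/
theorem kr_reindex {ι ι' : Type} [Fintype ι] [Fintype ι'] [DecidableEq ι] [DecidableEq ι']
    (e : ι ≃ ι') (a : Matrix κ κ F) (x : (ι → κ) → F) (β : ι' → κ) :
    (kr ι' a).mulVec (fun γ => x (fun i => γ (e i))) β = (kr ι a).mulVec x (fun i => β (e i)) := by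
  show ∑ γ, kr ι' a β γ * x (fun i => γ (e i)) = ∑ γ, kr ι a (fun i => β (e i)) γ * x γ
  refine Fintype.sum_equiv (Equiv.arrowCongr e.symm (Equiv.refl κ)) _ _ fun γ => ?_
  have h1 : (Equiv.arrowCongr e.symm (Equiv.refl κ)) γ = fun i => γ (e i) := rfl
  rw [h1]
  congr 1
  unfold kr
  exact (Equiv.prod_comp e (fun i => a (β i) (γ i))).symm

theorem rk_tp {Ω : Type} [CommRing Ω] [IsDomain Ω] (C : Coh F 𝔊 Ω) (A : 𝔊 →* Matrix κ κ F)
    (hA : IsOpen {g | A g = 1}) {ι ι' : Type} [Fintype ι] [Fintype ι'] [DecidableEq ι]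
    [DecidableEq ι'] (e : ι ≃ ι') : C.rk (tp A hA ι) = C.rk (tp A hA ι') := by
  let f : Hom (tp A hA ι) (tp A hA ι') :=
    { f := LinearMap.funLeft F F (fun (γ : ι' → κ) (i : ι) => γ (e i))
      eq := by
        intro g x
        funext β
        exact (kr_reindex e (A g) x β).symm }
  refine rk_eq_of_bij C f ⟨?_, ?_⟩
  · refine LinearMap.funLeft_injective_of_surjective F F _ ?_
    intro γ
    refine ⟨fun i => γ (e.symm i), ?_⟩
    funext i
    show γ (e.symm (e i)) = γ i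
    rw [e.symm_apply_apply]
  · refine LinearMap.funLeft_surjective_of_injective F F _ ?_
    intro γ γ' h
    funext i
    have h1 := congrFun h (e.symm i)
    change γ (e (e.symm i)) = γ' (e (e.symm i)) at h1
    rwa [e.apply_symm_apply] at h1

section
variable {Ω : Type} [CommRing Ω] [IsDomain Ω] (C : Coh F 𝔊 Ω) (A : 𝔊 →* Matrix κ κ F)
  (hA : IsOpen {g | A g = 1}) (hD : (scal A).index ≠ 0)

include hA hD

theorem built_zero [Nonempty κ] (m : ℕ) (h0 : C.rk (CC A hA hD m) = 0) (X : Rp F 𝔊)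
    (hX : Built A m X) : C.rk X = 0 := by
  induction hX with
  | base X h =>
    have := Subgroup.fintypeOfIndexNeZero hD
    let e := Module.finBasis F X.N
    let t : Hom (pw (CC A hA hD m) (Fin (finrank F X.N))) X :=
      { f := ThetaF A m X e
        eq := fun g Φ => ThetaF_eq A m X h e g Φ }
    have h1 := rk_le_of_surj C t (ThetaF_surj A m X h e)
    rw [rk_pw, h0, mul_zero] at h1
    omega
  | ext f g h _ _ ih1 ih2 =>
    have h1 := rk_exact_le C f g h
    omega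

/-- `s` linear functions on the matrices, equal to `1` at the unit matrix, such that one of them
vanishes at `A g` if `A g` is not a scalar -/
def Cover (A : 𝔊 →* Matrix κ κ F) (s : ℕ) : Prop :=
  ∃ L : Fin s → Matrix κ κ F →ₗ[F] F, (∀ i, L i 1 = 1) ∧ ∀ g, g ∉ scal A → ∃ i, L i (A g) = 0

theorem CC_le [Nonempty κ] (s : ℕ) (hs : Cover A s) (l : ℕ) :
    Fintype.card κ ^ l * C.rk (CC A hA hD (s + l)) ≤
      Fintype.card κ ^ s * C.rk (tp A hA (Fin (s + l))) := by
  classical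
  obtain ⟨L, hL1, hL0⟩ := hs
  have hc2 : Fintype.card (Fin s ⊕ Fin l) = s + l := by
    rw [Fintype.card_sum, Fintype.card_fin, Fintype.card_fin]
  have h1 := rk_le_of_surj C (Psi (ι2 := Fin l) A hA hD L)
    (Psi_surj (ι2 := Fin l) A hD L hL1 (fun q hq => hL0 _ (fun h => hq (by
      rw [← QuotientGroup.out_eq' q, eq_comm, QuotientGroup.eq, inv_one, one_mul]
      exact h))))
  rw [rk_pw, rk_pw, hc2] at h1
  have h2 : Fintype.card (Fin l → κ) = Fintype.card κ ^ l := by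
    rw [Fintype.card_fun, Fintype.card_fin]
  have h3 : Fintype.card (Fin s → κ) = Fintype.card κ ^ s := by
    rw [Fintype.card_fun, Fintype.card_fin]
  rw [h2, h3, rk_tp C A hA (Fintype.equivFinOfCardEq hc2)] at h1
  exact h1

theorem main [Nonempty κ] (s : ℕ) (hs : Cover A s) (m m' : ℕ) (hm' : s ≤ m')
    (hcl : ∀ (g : 𝔊) (c : F), A g = c • (1 : Matrix κ κ F) → c ^ m' = c ^ m)
    (hr : Fintype.card κ ^ s * C.rk (tp A hA (Fin m')) < Fintype.card κ ^ (m' - s)) (X : Rp F 𝔊)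
    (hX : Built A m X) : C.rk X = 0 := by
  obtain ⟨l, rfl⟩ := Nat.exists_eq_add_of_le hm'
  have h1 := CC_le C A hA hD s hs l
  have h2 : s + l - s = l := by omega
  rw [h2] at hr
  have h0 : C.rk (CC A hA hD (s + l)) = 0 := by
    by_contra hne
    have h3 : 1 ≤ C.rk (CC A hA hD (s + l)) := Nat.one_le_iff_ne_zero.2 hne
    have h4 : Fintype.card κ ^ l * 1 ≤ Fintype.card κ ^ l * C.rk (CC A hA hD (s + l)) :=
      Nat.mul_le_mul_left _ h3
    omega
  refine built_zero C A hA hD _ h0 X ?_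
  clear hr h1
  induction hX with
  | base X h =>
    refine Built.base X fun g c hg => ?_
    rw [h g c hg, hcl g c hg]
  | ext f g h _ _ ih1 ih2 => exact Built.ext f g h ih1 ih2

end

theorem cover_index [Nonempty κ] (A : 𝔊 →* Matrix κ κ F) (hD : (scal A).index ≠ 0) :
    Cover A ((scal A).index - 1) := by
  classical
  have := Subgroup.fintypeOfIndexNeZero hD
  have hc : Fintype.card (𝔊 ⧸ scal A) = (scal A).index := by
    rw [Subgroup.index, Nat.card_eq_fintype_card]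
  have hc1 : Fintype.card {q : 𝔊 ⧸ scal A // q ≠ QuotientGroup.mk 1} = (scal A).index - 1 := by
    rw [← hc]
    exact Set.card_ne_eq _
  choose L hL using fun q : {q : 𝔊 ⧸ scal A // q ≠ QuotientGroup.mk 1} => exists_L A q.1 q.2
  let E := Fintype.equivFinOfCardEq hc1
  refine ⟨fun i => L (E.symm i), fun i => (hL _).1, fun g hg => ?_⟩
  have hq : (QuotientGroup.mk g : 𝔊 ⧸ scal A) ≠ QuotientGroup.mk 1 := by
    intro h
    rw [eq_comm, QuotientGroup.eq, inv_one, one_mul] at h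
    exact hg h
  refine ⟨E ⟨QuotientGroup.mk g, hq⟩, ?_⟩
  show L (E.symm (E ⟨QuotientGroup.mk g, hq⟩)) (A g) = 0
  rw [E.symm_apply_apply]
  have h5 : (QuotientGroup.mk (QuotientGroup.mk g : 𝔊 ⧸ scal A).out : 𝔊 ⧸ scal A) =
      QuotientGroup.mk g := QuotientGroup.out_eq' _
  obtain ⟨c, hc⟩ := (mk_eq_iff A _ _).1 h5
  rw [hc, map_smul, (hL ⟨QuotientGroup.mk g, hq⟩).2, smul_zero]

/-- the entries, the diagonal ones being diminished by the entry at `(k, k)` -/
def yy (k : κ) (p : κ × κ) : Matrix κ κ F →ₗ[F] F where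
  toFun M := M p.1 p.2 - if p.1 = p.2 then M k k else 0
  map_add' M N := by
    split_ifs
    · show (M p.1 p.2 + N p.1 p.2) - (M k k + N k k) = _
      ring
    · show (M p.1 p.2 + N p.1 p.2) - 0 = _
      ring
  map_smul' c M := by
    split_ifs
    · show c * M p.1 p.2 - c * M k k = c * (M p.1 p.2 - M k k)
      ring
    · show c * M p.1 p.2 - 0 = c * (M p.1 p.2 - 0)
      ring

/-- the entry at `(k, k)` -/
def x0 (k : κ) : Matrix κ κ F →ₗ[F] F where
  toFun M := M k k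
  map_add' _ _ := rfl
  map_smul' _ _ := rfl

theorem cover_field [Finite F] [Nonempty κ] (A : 𝔊 →* Matrix κ κ F) :
    Cover A ((Fintype.card κ ^ 2 - 1) * (Nat.card F - 1) + 1) := by
  classical
  have := Fintype.ofFinite F
  obtain ⟨k⟩ := ‹Nonempty κ›
  have hc1 : Fintype.card (Option ({p : κ × κ // p ≠ (k, k)} × Fˣ)) =
      (Fintype.card κ ^ 2 - 1) * (Nat.card F - 1) + 1 := by
    have h1 : Fintype.card {p : κ × κ // p ≠ (k, k)} = Fintype.card (κ × κ) - 1 :=
      Set.card_ne_eq _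
    rw [Fintype.card_option, Fintype.card_prod, h1, Fintype.card_prod, Fintype.card_units,
      Nat.card_eq_fintype_card, sq]
  let E := Fintype.equivFinOfCardEq hc1
  let L : Option ({p : κ × κ // p ≠ (k, k)} × Fˣ) → Matrix κ κ F →ₗ[F] F := fun o =>
    match o with
    | none => x0 k
    | some (p, c) => x0 k - (c : F) • yy k p.1
  have hL1 : ∀ o, L o 1 = 1 := by
    intro o
    match o with
    | none =>
      show (1 : Matrix κ κ F) k k = 1
      exact Matrix.one_apply_eq k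
    | some (p, c) =>
      show (1 : Matrix κ κ F) k k - (c : F) * ((1 : Matrix κ κ F) p.1.1 p.1.2 -
        if p.1.1 = p.1.2 then (1 : Matrix κ κ F) k k else 0) = 1
      rw [Matrix.one_apply_eq k, Matrix.one_apply]
      split_ifs <;> ring
  refine ⟨fun i => L (E.symm i), fun i => hL1 _, fun g hg => ?_⟩
  by_cases h0 : A g k k = 0
  · refine ⟨E none, ?_⟩
    show L (E.symm (E none)) (A g) = 0
    rw [E.symm_apply_apply]
    exact h0
  · have h1 : ∃ p : κ × κ, yy k p (A g) ≠ 0 := by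
      by_contra hcon
      push Not at hcon
      apply hg
      refine ⟨A g k k, ?_⟩
      ext i j
      have h2 : A g i j - (if i = j then A g k k else 0) = 0 := hcon (i, j)
      rw [sub_eq_zero.1 h2, Matrix.smul_apply, Matrix.one_apply, smul_eq_mul]
      split_ifs
      · rw [mul_one]
      · rw [mul_zero]
    obtain ⟨p, hp⟩ := h1
    have hpk : p ≠ (k, k) := by
      rintro rfl
      apply hp
      show A g k k - (if k = k then A g k k else 0) = 0
      rw [if_pos rfl, sub_self]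
    refine ⟨E (some (⟨p, hpk⟩, Units.mk0 (A g k k / yy k p (A g)) (div_ne_zero h0 hp))), ?_⟩
    show L (E.symm (E (some (⟨p, hpk⟩, _)))) (A g) = 0
    rw [E.symm_apply_apply]
    show A g k k - (A g k k / yy k p (A g)) * yy k p (A g) = 0
    rw [div_mul_cancel₀ _ hp, sub_self]

end Pool.Agent.K6.H45.MU
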